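import Mathlib

/-! # Induced directed 2-paths in oriented graphs: definitions

A finite oriented graph is coded by `rel : V → V → Fin 3` with `rel y x = - rel x y`:
`rel x y = 0` (non-adjacent, or `x = y`), `1` (arc `x → y`), `2` (arc `y → x`). -/

set_option autoImplicit false
open Finset

namespace Pool.Agent.H190R2.P3

/-- the relation code that a vertex of class `i` should have to a vertex of class `i + k` in a
blow-up of the directed 4-cycle (`k ≠ 0`) -/
def nd (k : Fin 4) : Fin 3 := if k = 1 then 1 else if k = 3 then 2 else 0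

/-- indicator of an induced directed 2-path on three vertices `a, b, c` (in any order), in terms of
the codes `d = rel a b`, `e = rel a c`, `f = rel b c` -/
def h3 (d e f : Fin 3) : ℤ :=
  if (e = 0 ∧ f = d ∧ d ≠ 0) ∨ (f = 0 ∧ e = -d ∧ d ≠ 0) ∨ (d = 0 ∧ f = -e ∧ e ≠ 0) then 1 else 0

/-- indicator of a wrong pair: classes `i ≠ j`, relation code `r` not the needed one -/
def wr (i j : Fin 4) (r : Fin 3) : ℤ := if i ≠ j ∧ r ≠ nd (j - i) then 1 else 0

/-- the class in which `v` would have the right relation to a vertex `x` of class `i`, when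
`r = rel v x` -/
def vt (i : Fin 4) (r : Fin 3) : Fin 4 := if r = 0 then i + 2 else if r = 1 then i + 3 else i + 1

section
variable {V : Type} [Fintype V] (rel : V → V → Fin 3) (w : V → ℝ)

/-- indicator that the three vertices form an induced directed 2-path -/
noncomputable def H (a b c : V) : ℝ := ((h3 (rel a b) (rel a c) (rel b c) : ℤ) : ℝ)

/-- the weighted density of induced directed 2-paths (ordered triples, any order) -/
noncomputable def F : ℝ := ∑ a, ∑ b, ∑ c, w a * w b * w c * H rel a b c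

/-- link density at `v` -/
noncomputable def L (v : V) : ℝ := ∑ x, ∑ y, w x * w y * H rel v x y

/-- a global optimum (with positive weights) with value more than `2/5` -/
structure Opt : Prop where
  skew : ∀ x y, rel y x = - rel x y
  pos : ∀ v, 0 < w v
  sum : ∑ v, w v = 1
  lag : ∀ v, L rel w v = F rel w
  max : ∀ u : V → ℝ, (∀ v, 0 ≤ u v) → F rel u ≤ F rel w * (∑ v, u v) ^ 3
  big : 2 / 5 < F rel w

variable (P : V → Fin 4)

/-- weight of the class `i` -/
noncomputable def X (i : Fin 4) : ℝ := ∑ v, if P v = i then w v else 0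

/-- weight of the vertices of class `i` that vote `k`, seen from `v` -/
noncomputable def q (v : V) (i k : Fin 4) : ℝ :=
  ∑ x, if P x = i ∧ vt (P x) (rel v x) = k then w x else 0

/-- weight of the vertices that are wrong for `v`, if `v` is put in class `k` -/
noncomputable def zk (v : V) (k : Fin 4) : ℝ := ∑ x, w x * ((wr k (P x) (rel v x) : ℤ) : ℝ)

/-- weight of the vertices that are wrong for `v` -/
noncomputable def z (v : V) : ℝ := zk rel w P v (P v)

/-- weight of the vertices of class `j` that are wrong for `v` -/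
noncomputable def zc (v : V) (j : Fin 4) : ℝ :=
  ∑ x, if P x = j then w x * ((wr (P v) (P x) (rel v x) : ℤ) : ℝ) else 0

/-- total weight of the (ordered) wrong pairs -/
noncomputable def Phi : ℝ := ∑ x, ∑ y, w x * w y * ((wr (P x) (P y) (rel x y) : ℤ) : ℝ)

/-- weights restricted to the class `i` -/
noncomputable def wi (i : Fin 4) (v : V) : ℝ := if P v = i then w v else 0

end

/-- row sum -/
noncomputable def rs (q : Fin 4 → Fin 4 → ℝ) (i : Fin 4) : ℝ := ∑ k, q i k
/-- column sum -/
noncomputable def cs (q : Fin 4 → Fin 4 → ℝ) (k : Fin 4) : ℝ := ∑ i, q i k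
/-- sum of the squares in a row -/
noncomputable def ss (q : Fin 4 → Fin 4 → ℝ) (i : Fin 4) : ℝ := ∑ k, q i k ^ 2
/-- maximum of a function on `Fin 4` -/
noncomputable def mx (f : Fin 4 → ℝ) : ℝ := max (max (f 0) (f 1)) (max (f 2) (f 3))

/-- the quadratic form bounding the link density -/
noncomputable def B (q : Fin 4 → Fin 4 → ℝ) : ℝ :=
  ∑ k, cs q k ^ 2 + ∑ i, rs q i ^ 2 - 2 * ∑ i, ss q i

/-- vote matrices -/
structure VM (q : Fin 4 → Fin 4 → ℝ) : Prop where
  nonneg : ∀ i k, 0 ≤ q i k
  diag : ∀ i, q i i = 0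
  sum : ∑ i, rs q i = 1

/-- class of a vertex with codes `r0 r1 r2` from `a0 → a1 → a2` (junk value `3` for the trash) -/
def cls (r0 r1 r2 : Fin 3) : Fin 4 :=
  if r1 = 2 ∧ r2 = 0 then 0 else if r0 = 1 ∧ r2 = 2 then 1 else if r0 = 0 ∧ r1 = 1 then 2 else 3

/-- unclassified vertex -/
def tr (r0 r1 r2 : Fin 3) : Bool :=
  decide (¬ (r1 = 2 ∧ r2 = 0) ∧ ¬ (r0 = 1 ∧ r2 = 2) ∧ ¬ (r0 = 0 ∧ r1 = 1) ∧
    ¬ (r0 = 2 ∧ r1 = 0 ∧ r2 = 1))

/-- uniform vertex (it is unclassified) -/
def un (r0 r1 r2 : Fin 3) : Bool := decide (r0 = r1 ∧ r1 = r2)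

end Pool.Agent.H190R2.P3
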