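import Pool.Agent.H122R2.FdF.TaskK1

/-! Flag bound with a part depending on the relation of the last two vertices. -/

set_option autoImplicit false
open Finset
open scoped Classical

namespace Pool.Agent.H190R2.P3

open Pool.Agent.H122R2.FdF (cd Pr c3 c4 F3 F1)
open Pool.Agent.H122R2.FdF.K1 (psumw convw lower3 lower1 sum1)

section
variable {V : Type} (rel : V → V → ℕ)

def Bb (bd : ℕ → ℕ → ℕ → ℕ → ℕ) (a b c d e : V) : ℕ :=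
  bd (cd (rel a b) (rel a c) (rel b c)) (cd (rel a d) (rel b d) (rel c d))
    (cd (rel a e) (rel b e) (rel c e)) (rel d e)

def F3r (q3 : ℕ → ℕ → ℕ → ℕ → ℕ) (a b c d e : V) : ℕ :=
  q3 (cd (rel a b) (rel a c) (rel b c)) (cd (rel a d) (rel b d) (rel c d))
    (cd (rel a e) (rel b e) (rel c e)) (rel d e)

/-- the total over the 10 triples and the 15 splittings of five vertices -/
def LeafR (q3 : ℕ → ℕ → ℕ → ℕ → ℕ) (q1 : ℕ → ℕ → ℕ) (x : Fin 5 → V) : ℕ :=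
  (F3r rel q3 (x 0) (x 1) (x 2) (x 3) (x 4) +
      (F3r rel q3 (x 0) (x 1) (x 3) (x 2) (x 4) +
      (F3r rel q3 (x 0) (x 1) (x 4) (x 2) (x 3) +
      (F3r rel q3 (x 0) (x 2) (x 3) (x 1) (x 4) +
      (F3r rel q3 (x 0) (x 2) (x 4) (x 1) (x 3) +
      (F3r rel q3 (x 0) (x 3) (x 4) (x 1) (x 2) +
      (F3r rel q3 (x 1) (x 2) (x 3) (x 0) (x 4) +
      (F3r rel q3 (x 1) (x 2) (x 4) (x 0) (x 3) +
      (F3r rel q3 (x 1) (x 3) (x 4) (x 0) (x 2) +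
      F3r rel q3 (x 2) (x 3) (x 4) (x 0) (x 1))))))))))
    + (F1 rel q1 (x 0) (x 1) (x 2) (x 3) (x 4) +
      (F1 rel q1 (x 0) (x 1) (x 3) (x 2) (x 4) +
      (F1 rel q1 (x 0) (x 1) (x 4) (x 2) (x 3) +
      (F1 rel q1 (x 1) (x 0) (x 2) (x 3) (x 4) +
      (F1 rel q1 (x 1) (x 0) (x 3) (x 2) (x 4) +
      (F1 rel q1 (x 1) (x 0) (x 4) (x 2) (x 3) +
      (F1 rel q1 (x 2) (x 0) (x 1) (x 3) (x 4) +
      (F1 rel q1 (x 2) (x 0) (x 3) (x 1) (x 4) +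
      (F1 rel q1 (x 2) (x 0) (x 4) (x 1) (x 3) +
      (F1 rel q1 (x 3) (x 0) (x 1) (x 2) (x 4) +
      (F1 rel q1 (x 3) (x 0) (x 2) (x 1) (x 4) +
      (F1 rel q1 (x 3) (x 0) (x 4) (x 1) (x 2) +
      (F1 rel q1 (x 4) (x 0) (x 1) (x 2) (x 3) +
      (F1 rel q1 (x 4) (x 0) (x 2) (x 1) (x 3) +
      F1 rel q1 (x 4) (x 0) (x 3) (x 1) (x 2)))))))))))))))
end

theorem flag_boundR {V : Type} [Fintype V] (rel : V → V → ℕ)
    (hrel : ∀ x y, Pr (rel x y) (rel y x)) (w : V → ℝ) (hw : ∀ v, 0 ≤ w v) (h1 : ∑ v, w v = 1)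
    (K3 K1 C S2 : ℕ) (qq l3 : ℕ → ℕ → ℕ → ℕ) (bd q3 : ℕ → ℕ → ℕ → ℕ → ℕ) (q1 l1 : ℕ → ℕ → ℕ)
    (B O3 O1 : ℤ) (t : ℕ → ℤ) (g : ℕ → ℕ → ℤ)
    (hq : ∀ c i j r, q3 c i j r = qq c i j + S2 * bd c i j r)
    (hq3 : ∀ c i j, c < 27 → i < 27 → j < 27 → (qq c i j : ℤ) =
      ∑ k ∈ range K3, ((l3 c i k : ℤ) - B) * ((l3 c j k : ℤ) - B) + O3 + t c + g c i + g c j)
    (hq1 : ∀ i j, i < 27 → j < 27 → (q1 i j : ℤ) =
      ∑ k ∈ range K1, ((l1 i k : ℤ) - B) * ((l1 j k : ℤ) - B) + O1)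
    (hleaf : ∀ x : Fin 5 → V, LeafR rel q3 q1 x ≤ C) :
    10 * ((O3 : ℝ) + (∑ a, ∑ b, ∑ c, w a * w b * w c * (t (c3 rel a b c) : ℝ))
      + 2 * (∑ a, ∑ b, ∑ c, ∑ d, w a * w b * w c * w d *
          (g (c3 rel a b c) (c4 rel a b c d) : ℝ))
      + S2 * (∑ a, ∑ b, ∑ c, ∑ d, ∑ e, w a * w b * w c * w d * w e *
          (Bb rel bd a b c d e : ℝ))) + 15 * (O1 : ℝ) ≤ (C : ℝ) := by
  have L3 := lower3 rel hrel w hw h1 K3 qq l3 B O3 t g hq3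
  have L1 := lower1 rel hrel w hw h1 K1 q1 l1 B O1 hq1
  have L3' : (∑ x : Fin 5 → V, (∏ i, w (x i)) * (F3r rel q3 (x 0) (x 1) (x 2) (x 3) (x 4) : ℝ))
      = (∑ x : Fin 5 → V, (∏ i, w (x i)) * (F3 rel qq (x 0) (x 1) (x 2) (x 3) (x 4) : ℝ))
        + S2 * (∑ a, ∑ b, ∑ c, ∑ d, ∑ e, w a * w b * w c * w d * w e *
          (Bb rel bd a b c d e : ℝ)) := by
    rw [← convw w (fun a b c d e => (Bb rel bd a b c d e : ℝ)), mul_sum, ← sum_add_distrib]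
    refine sum_congr rfl fun x _ => ?_
    have : F3r rel q3 (x 0) (x 1) (x 2) (x 3) (x 4) = F3 rel qq (x 0) (x 1) (x 2) (x 3) (x 4)
        + S2 * Bb rel bd (x 0) (x 1) (x 2) (x 3) (x 4) := hq _ _ _ _
    rw [this]
    push_cast
    ring
  have f3 : ∀ i0 i1 i2 i3 i4 : Fin 5, Function.Bijective ![i0, i1, i2, i3, i4] →
      ∑ x : Fin 5 → V, (∏ i, w (x i)) * (F3r rel q3 (x i0) (x i1) (x i2) (x i3) (x i4) : ℝ)
      = ∑ x : Fin 5 → V, (∏ i, w (x i)) * (F3r rel q3 (x 0) (x 1) (x 2) (x 3) (x 4) : ℝ) :=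
    fun i0 i1 i2 i3 i4 hg =>
      psumw w (fun a b c d e => (F3r rel q3 a b c d e : ℝ)) ![i0, i1, i2, i3, i4] hg
  have f1 : ∀ i0 i1 i2 i3 i4 : Fin 5, Function.Bijective ![i0, i1, i2, i3, i4] →
      ∑ x : Fin 5 → V, (∏ i, w (x i)) * (F1 rel q1 (x i0) (x i1) (x i2) (x i3) (x i4) : ℝ)
      = ∑ x : Fin 5 → V, (∏ i, w (x i)) * (F1 rel q1 (x 0) (x 1) (x 2) (x 3) (x 4) : ℝ) :=
    fun i0 i1 i2 i3 i4 hg =>
      psumw w (fun a b c d e => (F1 rel q1 a b c d e : ℝ)) ![i0, i1, i2, i3, i4] hg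
  have hW : ∑ x : Fin 5 → V, (∏ i, w (x i)) * (C : ℝ) = C := by
    rw [convw w (fun _ _ _ _ _ => (C : ℝ))]
    simp only [mul_assoc, ← mul_sum, sum1 w h1]
  have key : ∑ x : Fin 5 → V, (∏ i, w (x i)) * (LeafR rel q3 q1 x : ℝ) ≤ C := by
    rw [← hW]
    refine sum_le_sum fun x _ => mul_le_mul_of_nonneg_left ?_ (prod_nonneg fun i _ => hw _)
    exact_mod_cast hleaf x
  have e : ∑ x : Fin 5 → V, (∏ i, w (x i)) * (LeafR rel q3 q1 x : ℝ)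
      = 10 * (∑ x : Fin 5 → V, (∏ i, w (x i)) * (F3r rel q3 (x 0) (x 1) (x 2) (x 3) (x 4) : ℝ))
      + 15 * (∑ x : Fin 5 → V, (∏ i, w (x i)) * (F1 rel q1 (x 0) (x 1) (x 2) (x 3) (x 4) : ℝ)) := by
    simp only [LeafR, Nat.cast_add, mul_add, sum_add_distrib]
    rw [f3 0 1 3 2 4 (by decide), f3 0 1 4 2 3 (by decide), f3 0 2 3 1 4 (by decide),
      f3 0 2 4 1 3 (by decide), f3 0 3 4 1 2 (by decide), f3 1 2 3 0 4 (by decide),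
      f3 1 2 4 0 3 (by decide), f3 1 3 4 0 2 (by decide), f3 2 3 4 0 1 (by decide),
      f1 0 1 3 2 4 (by decide), f1 0 1 4 2 3 (by decide),
      f1 1 0 2 3 4 (by decide), f1 1 0 3 2 4 (by decide), f1 1 0 4 2 3 (by decide),
      f1 2 0 1 3 4 (by decide), f1 2 0 3 1 4 (by decide), f1 2 0 4 1 3 (by decide),
      f1 3 0 1 2 4 (by decide), f1 3 0 2 1 4 (by decide), f1 3 0 4 1 2 (by decide),
      f1 4 0 1 2 3 (by decide), f1 4 0 2 1 3 (by decide), f1 4 0 3 1 2 (by decide)]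
    ring
  rw [e, L3'] at key
  linarith

end Pool.Agent.H190R2.P3
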