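import Pool.Agent.H190R2.P3.Chk
import Pool.Agent.H190R2.P3.FlagB
import Pool.Agent.H122R2.FdF.FlagAux

/-! The flag algebra certificate: consequences of the kernel checks. -/

set_option autoImplicit false
set_option maxRecDepth 100000
open Finset
open scoped Classical

namespace Pool.Agent.H190R2.P3

open Pool.Agent.H122R2.FdF (cd Pr A3_true nsum_eq nall_true expand)

theorem leaf_le (d01 e01 d02 e02 d03 e03 d04 e04 d12 e12 d13 e13 d14 e14 d23 e23 d24 e24 d34 e34 : ℕ) (h01 : Pr d01 e01) (h02 : Pr d02 e02) (h03 : Pr d03 e03) (h04 : Pr d04 e04) (h12 : Pr d12 e12) (h13 : Pr d13 e13) (h14 : Pr d14 e14) (h23 : Pr d23 e23) (h24 : Pr d24 e24) (h34 : Pr d34 e34) :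
    leaf d01 e01 d02 e02 d03 e03 d04 e04 d12 e12 d13 e13 d14 e14 d23 e23 d24 e24 d34 e34 ≤ 7032301489207 := by
  have hc : chk d01 e01 d02 e02 = true := by
    rcases h01 with ⟨rfl, rfl⟩ | ⟨rfl, rfl⟩ | ⟨rfl, rfl⟩ <;>
    rcases h02 with ⟨rfl, rfl⟩ | ⟨rfl, rfl⟩ | ⟨rfl, rfl⟩
    exacts [ck0, ck1, ck2, ck3, ck4, ck5, ck6, ck7, ck8]
  have h := (A3_true (A3_true (A3_true (A3_true (A3_true (A3_true (A3_true (A3_true hc h03) h04) h12) h13) h14) h23) h24) h34)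
  exact Nat.le_of_ble_eq_true h

theorem g3_all (c i j : ℕ) (hc : c < 27) (hi : i < 27) (hj : j < 27) : g3 c i j = true := by
  have h : chk3 c = true := by
    interval_cases c
    exacts [cg3_0, cg3_1, cg3_2, cg3_3, cg3_4, cg3_5, cg3_6, cg3_7, cg3_8, cg3_9, cg3_10, cg3_11, cg3_12, cg3_13, cg3_14, cg3_15, cg3_16, cg3_17, cg3_18, cg3_19, cg3_20, cg3_21, cg3_22, cg3_23, cg3_24, cg3_25, cg3_26]
  exact nall_true (nall_true h i hi) j hj

theorem g1_all (i j : ℕ) (hi : i < 27) (hj : j < 27) : g1 i j = true :=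
  nall_true (nall_true cg1 i hi) j hj

theorem qq_eq (c i j : ℕ) (hc : c < 27) (hi : i < 27) (hj : j < 27) :
    (qq c i j : ℤ) = ∑ k ∈ range 27, ((l3 c i k : ℤ) - 524288) * ((l3 c j k : ℤ) - 524288)
      + 274877906944 + 40060650951 * (p3c c : ℤ) + (gp c i : ℤ) + (gp c j : ℤ) := by
  have h := Nat.eq_of_beq_eq_true (g3_all c i j hc hi hj)
  rw [nsum_eq, nsum_eq] at h
  have h2 := congrArg (fun n : ℕ => (n : ℤ)) h
  simp only [Nat.add_eq, Nat.mul_eq] at h2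
  push_cast at h2
  rw [expand (range 27) (fun k => l3 c i k) (fun k => l3 c j k) 524288, card_range]
  push_cast
  linarith

theorem q1_eq (i j : ℕ) (hi : i < 27) (hj : j < 27) :
    (q1 i j : ℤ) = ∑ k ∈ range 15, ((l1 i k : ℤ) - 524288) * ((l1 j k : ℤ) - 524288)
      + 274877906944 := by
  have h := Nat.eq_of_beq_eq_true (g1_all i j hi hj)
  rw [nsum_eq, nsum_eq] at h
  have h2 := congrArg (fun n : ℕ => (n : ℤ)) h
  simp only [Nat.add_eq, Nat.mul_eq] at h2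
  push_cast at h2
  rw [expand (range 15) (fun k => l1 i k) (fun k => l1 j k) 524288, card_range]
  push_cast
  linarith

theorem leaf_all {V : Type} (rel : V → V → ℕ) (h : ∀ x y, Pr (rel x y) (rel y x))
    (x : Fin 5 → V) : LeafR rel q3 q1 x ≤ 7032301489207 :=
  leaf_le (rel (x 0) (x 1)) (rel (x 1) (x 0)) (rel (x 0) (x 2)) (rel (x 2) (x 0)) (rel (x 0) (x 3)) (rel (x 3) (x 0)) (rel (x 0) (x 4)) (rel (x 4) (x 0)) (rel (x 1) (x 2)) (rel (x 2) (x 1)) (rel (x 1) (x 3)) (rel (x 3) (x 1)) (rel (x 1) (x 4)) (rel (x 4) (x 1)) (rel (x 2) (x 3)) (rel (x 3) (x 2)) (rel (x 2) (x 4)) (rel (x 4) (x 2)) (rel (x 3) (x 4)) (rel (x 4) (x 3))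
    (h _ _) (h _ _) (h _ _) (h _ _) (h _ _) (h _ _) (h _ _) (h _ _) (h _ _) (h _ _)

/-- the flag algebra inequality -/
theorem flag_main {V : Type} [Fintype V] (rel : V → V → ℕ)
    (hrel : ∀ x y, Pr (rel x y) (rel y x)) (w : V → ℝ) (hw : ∀ v, 0 ≤ w v) (h1 : ∑ v, w v = 1) :
    10 * ((∑ a, ∑ b, ∑ c, w a * w b * w c *
        (40060650951 * (p3c (cd (rel a b) (rel a c) (rel b c)) : ℝ)))
      + 2 * (∑ a, ∑ b, ∑ c, ∑ d, w a * w b * w c * w d *
          (gp (cd (rel a b) (rel a c) (rel b c)) (cd (rel a d) (rel b d) (rel c d)) : ℝ))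
      + 12884880000 * (∑ a, ∑ b, ∑ c, ∑ d, ∑ e, w a * w b * w c * w d * w e *
          (Bb rel bd a b c d e : ℝ))) ≤ 160353815607 := by
  have h := flag_boundR rel hrel w hw h1 27 15 7032301489207 12884880000 qq l3 bd q3 q1 l1
    524288 274877906944 274877906944 (fun c => 40060650951 * (p3c c : ℤ)) (fun c i => (gp c i : ℤ))
    (fun c i j r => rfl) qq_eq q1_eq (leaf_all rel hrel)
  simp only [Pool.Agent.H122R2.FdF.c3, Pool.Agent.H122R2.FdF.c4] at h
  push_cast at h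
  linarith

end Pool.Agent.H190R2.P3
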