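import Pool.Agent.H190R2.P3.Defs

/-! Task T1: existence of an optimum (helper267). -/

set_option autoImplicit false
open Finset

namespace Pool.Agent.H190R2.P3

namespace T1

section Tri
variable {V : Type} [Fintype V] (K : V → V → V → ℝ)

/-- the trilinear form of a kernel -/
noncomputable def TT (x y z : V → ℝ) : ℝ := ∑ a, ∑ b, ∑ c, x a * y b * z c * K a b c

variable {K}

theorem TT_swap12 (h : ∀ a b c, K a b c = K b a c) (x y z : V → ℝ) :
    TT K x y z = TT K y x z := by
  unfold TT
  rw [Finset.sum_comm]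
  refine Finset.sum_congr rfl fun b _ => Finset.sum_congr rfl fun a _ =>
    Finset.sum_congr rfl fun c _ => ?_
  rw [h a b c]; ring

theorem TT_swap23 (h : ∀ a b c, K a b c = K a c b) (x y z : V → ℝ) :
    TT K x y z = TT K x z y := by
  unfold TT
  refine Finset.sum_congr rfl fun a _ => ?_
  rw [Finset.sum_comm]
  refine Finset.sum_congr rfl fun b _ => Finset.sum_congr rfl fun c _ => ?_
  rw [h a c b]; ring

theorem TT_line1 (x y z d : V → ℝ) (t : ℝ) :
    TT K (fun v => x v + t * d v) y z = TT K x y z + t * TT K d y z := by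
  unfold TT
  simp only [add_mul, Finset.sum_add_distrib, Finset.mul_sum]
  congr 1
  refine Finset.sum_congr rfl fun a _ => Finset.sum_congr rfl fun b _ =>
    Finset.sum_congr rfl fun c _ => by ring

theorem TT_line (h12 : ∀ a b c, K a b c = K b a c) (h23 : ∀ a b c, K a b c = K a c b)
    (x d : V → ℝ) (t : ℝ) :
    TT K (fun v => x v + t * d v) (fun v => x v + t * d v) (fun v => x v + t * d v) =
      TT K x x x + 3 * t * TT K d x x + 3 * t ^ 2 * TT K d d x + t ^ 3 * TT K d d d := by
  have L2 : ∀ y z : V → ℝ, TT K y (fun v => x v + t * d v) z =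
      TT K y x z + t * TT K y d z := by
    intro y z
    rw [TT_swap12 h12, TT_line1, TT_swap12 h12 x, TT_swap12 h12 d]
  have L3 : ∀ y z : V → ℝ, TT K y z (fun v => x v + t * d v) =
      TT K y z x + t * TT K y z d := by
    intro y z
    rw [TT_swap23 h23, L2, TT_swap23 h23 y x, TT_swap23 h23 y d]
  rw [TT_line1, L2, L3, L3, L2, L3, L3]
  have e1 : TT K x x d = TT K d x x := by
    rw [TT_swap23 h23, TT_swap12 h12]
  have e2 : TT K x d x = TT K d x x := TT_swap12 h12 _ _ _
  have e3 : TT K x d d = TT K d d x := by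
    rw [TT_swap12 h12, TT_swap23 h23]
  have e4 : TT K d x d = TT K d d x := TT_swap23 h23 _ _ _
  rw [e1, e2, e3, e4]; ring

end Tri

theorem h3_swap12 : ∀ d e f : Fin 3, h3 d e f = h3 (-d) f e := by decide
theorem h3_swap23 : ∀ d e f : Fin 3, h3 d e f = h3 e d (-f) := by decide
theorem h3_diag : ∀ e : Fin 3, h3 0 e e = 0 := by decide
theorem neg_self : ∀ r : Fin 3, r = -r → r = 0 := by decide

section
variable {V : Type} [Fintype V] {rel : V → V → Fin 3} (hs : ∀ x y, rel y x = - rel x y)
include hs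

omit [Fintype V] in
theorem H_swap12 (a b c : V) : H rel a b c = H rel b a c := by
  unfold H
  rw [h3_swap12, ← hs a b]

omit [Fintype V] in
theorem H_swap23 (a b c : V) : H rel a b c = H rel a c b := by
  unfold H
  rw [h3_swap23, ← hs b c]

omit [Fintype V] in
theorem H_diag (a c : V) : H rel a a c = 0 := by
  unfold H
  rw [neg_self _ (hs a a), h3_diag]
  simp

theorem F_line (w : V → ℝ) (v : V) (s : ℝ) [DecidableEq V] :
    F rel (fun a => w a + s * (if a = v then 1 else 0)) = F rel w + 3 * s * L rel w v := by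
  have h1 := TT_line (K := H rel) (H_swap12 hs) (H_swap23 hs) w (fun a => if a = v then 1 else 0) s
  have e1 : TT (H rel) (fun a => if a = v then 1 else 0) w w = L rel w v := by
    unfold TT L
    rw [Finset.sum_eq_single v]
    · simp
    · intro b _ hb
      simp [hb]
    · intro h; exact absurd (Finset.mem_univ _) h
  have e2 : ∀ z : V → ℝ, TT (H rel) (fun a => if a = v then 1 else 0)
      (fun a => if a = v then 1 else 0) z = 0 := by
    intro z
    unfold TT
    apply Finset.sum_eq_zero
    intro a _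
    apply Finset.sum_eq_zero
    intro b _
    apply Finset.sum_eq_zero
    intro c _
    by_cases ha : a = v
    · by_cases hb : b = v
      · rw [ha, hb, H_diag hs, mul_zero]
      · simp [hb]
    · simp [ha]
  rw [e1, e2, e2] at h1
  have e3 : F rel (fun a => w a + s * (if a = v then 1 else 0)) =
      TT (H rel) (fun a => w a + s * (if a = v then 1 else 0))
        (fun a => w a + s * (if a = v then 1 else 0))
        (fun a => w a + s * (if a = v then 1 else 0)) := rfl
  have e4 : F rel w = TT (H rel) w w w := rfl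
  rw [e3, e4, h1]
  ring

end

section
variable {V : Type} [Fintype V] (rel : V → V → Fin 3)

theorem F_eq_L (w : V → ℝ) : F rel w = ∑ a, w a * L rel w a := by
  unfold F L
  refine Finset.sum_congr rfl fun a _ => ?_
  rw [Finset.mul_sum]
  refine Finset.sum_congr rfl fun b _ => ?_
  rw [Finset.mul_sum]
  refine Finset.sum_congr rfl fun c _ => by ring

theorem F_smul (w : V → ℝ) (c : ℝ) : F rel (fun a => c * w a) = c ^ 3 * F rel w := by
  unfold F
  rw [Finset.mul_sum]
  refine Finset.sum_congr rfl fun a _ => ?_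
  rw [Finset.mul_sum]
  refine Finset.sum_congr rfl fun b _ => ?_
  rw [Finset.mul_sum]
  refine Finset.sum_congr rfl fun c _ => by ring

theorem continuous_F : Continuous (fun w : V → ℝ => F rel w) := by
  unfold F
  fun_prop

/-- maximality in homogeneous form -/
theorem F_max {w0 : V → ℝ} (hmax : ∀ x ∈ stdSimplex ℝ V, F rel x ≤ F rel w0) (u : V → ℝ)
    (hu : ∀ v, 0 ≤ u v) : F rel u ≤ F rel w0 * (∑ v, u v) ^ 3 := by
  rcases (Finset.sum_nonneg fun v (_ : v ∈ Finset.univ) => hu v).eq_or_lt with h0 | h0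
  · have h1 : ∀ v, u v = 0 := fun v =>
      (Finset.sum_eq_zero_iff_of_nonneg fun v _ => hu v).mp h0.symm v (Finset.mem_univ v)
    have h2 : F rel u = 0 := by
      unfold F
      simp [h1]
    rw [h2, ← h0]
    simp
  · set S := ∑ v, u v with hS
    have h1 := hmax (fun v => S⁻¹ * u v) ⟨fun v => mul_nonneg (by positivity) (hu v), by
      rw [← Finset.mul_sum, ← hS, inv_mul_cancel₀ h0.ne']⟩
    rw [F_smul, inv_pow] at h1
    rw [← div_eq_inv_mul, div_le_iff₀ (by positivity)] at h1
    exact h1

open scoped Classical in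
/-- extension by zero -/
noncomputable def xt (s : Finset V) (u : s → ℝ) (v : V) : ℝ := if h : v ∈ s then u ⟨v, h⟩ else 0

omit [Fintype V] in
theorem xt_coe (s : Finset V) (u : s → ℝ) (a : s) : xt s u a = u a := by
  unfold xt
  rw [dif_pos a.2]

theorem sum_ext (s : Finset V) (u : s → ℝ) (g : V → ℝ) :
    ∑ a : s, u a * g a = ∑ a, xt s u a * g a := by
  have h1 : ∑ a : s, u a * g a = ∑ a : s, xt s u a * g a :=
    Finset.sum_congr rfl fun a _ => by rw [xt_coe]
  rw [h1, Finset.sum_coe_sort s (fun a => xt s u a * g a)]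
  refine Finset.sum_subset (Finset.subset_univ _) fun a _ ha => ?_
  unfold xt
  rw [dif_neg ha, zero_mul]

theorem L_eq (w : V → ℝ) (v : V) : L rel w v = ∑ b, w b * ∑ c, w c * H rel v b c := by
  unfold L
  refine Finset.sum_congr rfl fun b _ => ?_
  rw [Finset.mul_sum]
  refine Finset.sum_congr rfl fun c _ => by ring

theorem L_ext (s : Finset V) (u : s → ℝ) (v : s) :
    L (fun x y : s => rel x y) u v = L rel (xt s u) v := by
  rw [L_eq, L_eq, ← sum_ext]
  refine Finset.sum_congr rfl fun b _ => ?_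
  congr 1
  exact sum_ext s u (fun c => H rel v b c)

theorem F_ext (s : Finset V) (u : s → ℝ) :
    F (fun x y : s => rel x y) u = F rel (xt s u) := by
  rw [F_eq_L, F_eq_L, ← sum_ext]
  refine Finset.sum_congr rfl fun b _ => ?_
  rw [L_ext]

end

/-- elementary limit -/
theorem lim_le {l ρ : ℝ} (hρ : 0 < ρ) (h : ∀ s : ℝ, 0 < s → ρ + 3 * s * l ≤ ρ * (1 + s) ^ 3) :
    l ≤ ρ := by
  apply le_of_forall_pos_le_add
  intro ε hε
  set s := min 1 (ε / (2 * ρ)) with hs
  have hs0 : 0 < s := lt_min one_pos (by positivity)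
  have hs1 : s ≤ 1 := min_le_left _ _
  have hs2 : s * (2 * ρ) ≤ ε := by
    have : s ≤ ε / (2 * ρ) := min_le_right _ _
    rwa [le_div_iff₀ (by positivity)] at this
  have h1 := h s hs0
  have h2 : 3 * s * l ≤ 3 * s * (ρ + ρ * s + ρ * s ^ 2 / 3) := by
    nlinarith
  have h3 := le_of_mul_le_mul_left h2 (by positivity)
  have h4 : ρ * s ^ 2 / 3 ≤ ρ * s := by
    have : ρ * s ^ 2 ≤ ρ * s := by
      have : s ^ 2 ≤ s := by nlinarith
      exact mul_le_mul_of_nonneg_left this hρ.le
    have h5 : 0 ≤ ρ * s := by positivity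
    linarith
  linarith

end T1

open T1 in
theorem exists_opt {V : Type} [Fintype V] (rel : V → V → Fin 3) (hs : ∀ x y, rel y x = - rel x y)
    (w : V → ℝ) (hw : ∀ v, 0 ≤ w v) (h1 : ∑ v, w v = 1) (hF : 2 / 5 < F rel w) :
    ∃ (W : Type) (_ : Fintype W) (rel' : W → W → Fin 3) (w' : W → ℝ), Opt rel' w' := by
  classical
  obtain ⟨w0, hw0, hmax0⟩ := (isCompact_stdSimplex ℝ V).exists_isMaxOn ⟨w, hw, h1⟩
    (continuous_F rel).continuousOn
  have hmax : ∀ x ∈ stdSimplex ℝ V, F rel x ≤ F rel w0 := fun x hx => hmax0 hx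
  obtain ⟨h0, hsum⟩ := hw0
  set ρ := F rel w0 with hρ
  have hρ1 : 2 / 5 < ρ := hF.trans_le (hmax w ⟨hw, h1⟩)
  have hρ0 : 0 < ρ := by linarith
  have hM := F_max rel hmax
  rw [← hρ] at hM
  have hL : ∀ v, L rel w0 v ≤ ρ := by
    intro v
    apply lim_le hρ0
    intro s hs0
    have h2 := hM (fun a => w0 a + s * (if a = v then 1 else 0)) (fun a => by
      have := h0 a
      split_ifs <;> nlinarith)
    rw [F_line hs] at h2
    have h3 : ∑ a, (w0 a + s * (if a = v then (1:ℝ) else 0)) = 1 + s := by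
      rw [Finset.sum_add_distrib, hsum, ← Finset.mul_sum]
      simp
    rw [h3, ← hρ] at h2
    exact h2
  have hLeq : ∀ v, w0 v ≠ 0 → L rel w0 v = ρ := by
    have h2 : ∑ v, w0 v * L rel w0 v = ∑ v, w0 v * ρ := by
      rw [← F_eq_L, ← Finset.sum_mul, hsum, one_mul]
    have h3 := (Finset.sum_eq_sum_iff_of_le (fun v _ =>
      mul_le_mul_of_nonneg_left (hL v) (h0 v))).mp h2
    intro v hv
    exact mul_left_cancel₀ hv (h3 v (Finset.mem_univ v))
  set s : Finset V := Finset.univ.filter (fun v => w0 v ≠ 0) with hsdef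
  have hext : xt s (fun a : s => w0 a) = w0 := by
    funext v
    unfold xt
    split_ifs with hv
    · rfl
    · by_contra hne
      exact hv (by rw [hsdef, Finset.mem_filter]; exact ⟨Finset.mem_univ _, fun h => hne h.symm⟩)
  have hmem : ∀ v : s, w0 v ≠ 0 := fun v => (Finset.mem_filter.1 v.2).2
  have hFs : F (fun x y : s => rel x y) (fun a : s => w0 a) = ρ := by
    rw [F_ext, hext]
  refine ⟨s, inferInstance, fun x y => rel x y, fun a => w0 a, ⟨?_, ?_, ?_, ?_, ?_, ?_⟩⟩
  · intro x y
    exact hs x y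
  · intro v
    exact lt_of_le_of_ne (h0 v) (Ne.symm (hmem v))
  · have h2 := sum_ext s (fun a : s => w0 a) (fun _ => 1)
    rw [hext] at h2
    simpa [hsum] using h2
  · intro v
    rw [hFs, L_ext, hext]
    exact hLeq v (hmem v)
  · intro u hu
    rw [hFs, F_ext]
    have h2 := hM (xt s u) (fun v => by
      unfold xt
      split_ifs with hv
      · exact hu _
      · exact le_rfl)
    have h3 := sum_ext s u (fun _ => 1)
    simp only [mul_one] at h3
    rw [← h3] at h2
    exact h2
  · rw [hFs]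
    exact hρ1

end Pool.Agent.H190R2.P3
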