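import Mathlib
import Pool.Agent.H190R2.P3.Defs

/-! # Task T6: basic facts about votes and wrong pairs, and the link bound `V1` -/

set_option autoImplicit false
open Finset

namespace Pool.Agent.H190R2.P3

theorem wr_symm (i j : Fin 4) (r : Fin 3) : wr i j r = wr j i (-r) := by
  revert i j r; decide +kernel

namespace T6

theorem wr_nonneg (i j : Fin 4) (r : Fin 3) : 0 ≤ wr i j r := by
  revert i j r; decide +kernel

theorem wr_self (i : Fin 4) (r : Fin 3) : wr i i r = 0 := by
  revert i r; decide +kernel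

theorem vt_ne (i : Fin 4) (r : Fin 3) : vt i r ≠ i := by
  revert i r; decide +kernel

theorem zkpt (k i : Fin 4) (r : Fin 3) :
    wr k i r = 1 - (if i = k then 1 else 0) - (if vt i r = k then 1 else 0) := by
  revert k i r; decide +kernel

theorem h3pt (i j : Fin 4) (d e f : Fin 3) :
    h3 d e f ≤ (if vt i d = vt j e then 1 else 0) + (if i = j then 1 else 0)
      - 2 * (if (i, vt i d) = (j, vt j e) then 1 else 0) + wr i j f := by
  revert i j d e f; decide +kernel

theorem h3ptR (i j : Fin 4) (d e f : Fin 3) :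
    ((h3 d e f : ℤ) : ℝ) ≤ (if vt i d = vt j e then 1 else 0) + (if i = j then 1 else 0)
      - 2 * (if (i, vt i d) = (j, vt j e) then 1 else 0) + ((wr i j f : ℤ) : ℝ) := by
  have h := h3pt i j d e f
  have h2 : ((h3 d e f : ℤ) : ℝ) ≤ (((if vt i d = vt j e then 1 else 0) + (if i = j then 1 else 0)
      - 2 * (if (i, vt i d) = (j, vt j e) then 1 else 0) + wr i j f : ℤ) : ℝ) := by
    exact_mod_cast h
  refine le_trans h2 (le_of_eq ?_)
  push_cast
  ring

section
variable {V : Type} [Fintype V]

theorem sq_sum {α : Type} [Fintype α] [DecidableEq α] (f : V → α) (w : V → ℝ) :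
    ∑ x, ∑ y, w x * w y * (if f x = f y then (1 : ℝ) else 0)
      = ∑ a, (∑ x, if f x = a then w x else 0) ^ 2 := by
  have h1 : ∀ a, (∑ x, if f x = a then w x else 0) ^ 2
      = ∑ x, ∑ y, (if f x = a then w x else 0) * (if f y = a then w y else 0) := by
    intro a
    rw [sq, Finset.sum_mul_sum]
  simp_rw [h1]
  symm
  rw [Finset.sum_comm]
  refine Finset.sum_congr rfl fun x _ => ?_
  rw [Finset.sum_comm]
  refine Finset.sum_congr rfl fun y _ => ?_
  rw [Finset.sum_eq_single (f x)]
  · by_cases h : f x = f y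
    · simp [h]
    · rw [if_pos rfl, if_neg h, if_neg (Ne.symm h)]
      ring
  · intro b _ hb
    simp [Ne.symm hb]
  · simp

variable (rel : V → V → Fin 3) (w : V → ℝ) (P : V → Fin 4)

theorem cs_q (v : V) (k : Fin 4) :
    cs (q rel w P v) k = ∑ x, if vt (P x) (rel v x) = k then w x else 0 := by
  unfold cs q
  rw [Finset.sum_comm]
  refine Finset.sum_congr rfl fun x _ => ?_
  rw [Finset.sum_eq_single (P x)]
  · simp
  · intro b _ hb
    simp [Ne.symm hb]
  · simp

theorem rs_q' (v : V) (i : Fin 4) : rs (q rel w P v) i = X w P i := by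
  unfold rs q X
  rw [Finset.sum_comm]
  refine Finset.sum_congr rfl fun x _ => ?_
  rw [Finset.sum_eq_single (vt (P x) (rel v x))]
  · simp
  · intro b _ hb
    simp [Ne.symm hb]
  · simp

theorem ss_q (v : V) : ∑ i, ss (q rel w P v) i
    = ∑ a : Fin 4 × Fin 4, (∑ x, if (P x, vt (P x) (rel v x)) = a then w x else 0) ^ 2 := by
  rw [Fintype.sum_prod_type]
  unfold ss q
  refine Finset.sum_congr rfl fun i _ => Finset.sum_congr rfl fun k _ => ?_
  simp only [Prod.mk.injEq]

theorem B_q (v : V) : B (q rel w P v)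
    = ∑ x, ∑ y, w x * w y * ((if vt (P x) (rel v x) = vt (P y) (rel v y) then (1 : ℝ) else 0)
      + (if P x = P y then 1 else 0)
      - 2 * (if (P x, vt (P x) (rel v x)) = (P y, vt (P y) (rel v y)) then 1 else 0)) := by
  have e1 := sq_sum (fun x => vt (P x) (rel v x)) w
  have e2 := sq_sum (fun x => P x) w
  have e3 := sq_sum (fun x => (P x, vt (P x) (rel v x))) w
  have e4 : ∑ x, ∑ y, w x * w y * ((if vt (P x) (rel v x) = vt (P y) (rel v y) then (1 : ℝ) else 0)
      + (if P x = P y then 1 else 0)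
      - 2 * (if (P x, vt (P x) (rel v x)) = (P y, vt (P y) (rel v y)) then 1 else 0))
      = (∑ x, ∑ y, w x * w y * (if vt (P x) (rel v x) = vt (P y) (rel v y) then (1 : ℝ) else 0))
        + (∑ x, ∑ y, w x * w y * (if P x = P y then (1 : ℝ) else 0))
        - 2 * ∑ x, ∑ y, w x * w y *
          (if (P x, vt (P x) (rel v x)) = (P y, vt (P y) (rel v y)) then (1 : ℝ) else 0) := by
    rw [Finset.mul_sum, ← Finset.sum_add_distrib, ← Finset.sum_sub_distrib]
    refine Finset.sum_congr rfl fun x _ => ?_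
    rw [Finset.mul_sum, ← Finset.sum_add_distrib, ← Finset.sum_sub_distrib]
    refine Finset.sum_congr rfl fun y _ => ?_
    ring
  rw [e4]
  rw [e1, e2, e3]
  unfold B
  rw [ss_q]
  simp only [cs_q, rs_q']
  rfl

end

end T6

section
variable {V : Type} [Fintype V] (rel : V → V → Fin 3) (w : V → ℝ) (P : V → Fin 4)

theorem X_nonneg (hw : ∀ v, 0 ≤ w v) (i : Fin 4) : 0 ≤ X w P i := by
  unfold X
  refine Finset.sum_nonneg fun v _ => ?_
  split_ifs
  · exact hw v
  · exact le_refl _

theorem X_sum (h1 : ∑ v, w v = 1) : ∑ i, X w P i = 1 := by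
  unfold X
  rw [Finset.sum_comm, ← h1]
  refine Finset.sum_congr rfl fun x _ => ?_
  rw [Finset.sum_eq_single (P x)]
  · simp
  · intro b _ hb
    simp [Ne.symm hb]
  · simp

theorem rs_q (v : V) (i : Fin 4) : rs (q rel w P v) i = X w P i :=
  T6.rs_q' rel w P v i

theorem VM_q (hw : ∀ v, 0 ≤ w v) (h1 : ∑ v, w v = 1) (v : V) : VM (q rel w P v) where
  nonneg := by
    intro i k
    unfold q
    refine Finset.sum_nonneg fun x _ => ?_
    split_ifs
    · exact hw x
    · exact le_refl _
  diag := by
    intro i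
    unfold q
    refine Finset.sum_eq_zero fun x _ => ?_
    rw [if_neg]
    rintro ⟨h1, h2⟩
    rw [← h1] at h2
    exact T6.vt_ne _ _ h2
  sum := by
    simp only [rs_q]
    exact X_sum w P h1

/-- (finite check: for `i ≠ k`, `r ≠ nd (i - k) ↔ vt i r ≠ k`) -/
theorem zk_eq (h1 : ∑ v, w v = 1) (v : V) (k : Fin 4) :
    zk rel w P v k = 1 - X w P k - cs (q rel w P v) k := by
  rw [T6.cs_q, ← h1]
  unfold zk X
  rw [← Finset.sum_sub_distrib, ← Finset.sum_sub_distrib]
  refine Finset.sum_congr rfl fun x _ => ?_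
  rw [T6.zkpt]
  push_cast
  split_ifs <;> ring

theorem zk_nonneg (hw : ∀ v, 0 ≤ w v) (v : V) (k : Fin 4) : 0 ≤ zk rel w P v k := by
  unfold zk
  refine Finset.sum_nonneg fun x _ => mul_nonneg (hw x) ?_
  exact_mod_cast T6.wr_nonneg _ _ _

theorem Phi_eq : Phi rel w P = ∑ v, w v * z rel w P v := by
  unfold Phi z zk
  refine Finset.sum_congr rfl fun x _ => ?_
  rw [Finset.mul_sum]
  refine Finset.sum_congr rfl fun y _ => ?_
  ring

theorem Phi_nonneg (hw : ∀ v, 0 ≤ w v) : 0 ≤ Phi rel w P := by
  rw [Phi_eq]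
  exact Finset.sum_nonneg fun v _ => mul_nonneg (hw v) (zk_nonneg rel w P hw v _)

theorem zc_nonneg (hw : ∀ v, 0 ≤ w v) (v : V) (j : Fin 4) : 0 ≤ zc rel w P v j := by
  unfold zc
  refine Finset.sum_nonneg fun x _ => ?_
  split_ifs
  · refine mul_nonneg (hw x) ?_
    exact_mod_cast T6.wr_nonneg _ _ _
  · exact le_refl _

theorem zc_own (v : V) : zc rel w P v (P v) = 0 := by
  unfold zc
  refine Finset.sum_eq_zero fun x _ => ?_
  split_ifs with h
  · rw [h, T6.wr_self]
    simp
  · rfl

theorem z_eq_zc (v : V) : z rel w P v = ∑ j, zc rel w P v j := by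
  unfold z zk zc
  rw [Finset.sum_comm]
  refine Finset.sum_congr rfl fun x _ => ?_
  rw [Finset.sum_eq_single (P x)]
  · simp
  · intro b _ hb
    simp [Ne.symm hb]
  · simp

/-- moving the vertex `v` to the class `k` -/
theorem Phi_update [DecidableEq V] (hs : ∀ x y, rel y x = - rel x y) (hw : ∀ v, 0 ≤ w v) (v : V)
    (k : Fin 4) : Phi rel w (Function.update P v k) ≤
      Phi rel w P + 2 * w v * (zk rel w P v k - z rel w P v) := by
  -- pointwise bound
  have hpt : ∀ x y, ((wr (Function.update P v k x) (Function.update P v k y) (rel x y) : ℤ) : ℝ)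
      ≤ ((wr (P x) (P y) (rel x y) : ℤ) : ℝ)
        + (if x = v then ((wr k (P y) (rel v y) : ℤ) : ℝ) - ((wr (P v) (P y) (rel v y) : ℤ) : ℝ)
            else 0)
        + (if y = v then ((wr k (P x) (rel v x) : ℤ) : ℝ) - ((wr (P v) (P x) (rel v x) : ℤ) : ℝ)
            else 0) := by
    intro x y
    by_cases hx : x = v
    · by_cases hy : y = v
      · subst hx
        subst hy
        simp only [Function.update_self, if_true, T6.wr_self]
        have : (0 : ℝ) ≤ ((wr k (P y) (rel y y) : ℤ) : ℝ) := by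
          exact_mod_cast T6.wr_nonneg _ _ _
        push_cast
        linarith
      · subst hx
        rw [Function.update_self, Function.update_of_ne hy, if_pos rfl, if_neg hy]
        linarith
    · by_cases hy : y = v
      · subst hy
        rw [Function.update_self, Function.update_of_ne hx, if_pos rfl, if_neg hx,
          wr_symm (P x) k, wr_symm (P x) (P y), ← hs x y]
        linarith
      · rw [Function.update_of_ne hy, Function.update_of_ne hx, if_neg hx, if_neg hy]
        linarith
  have h1 : Phi rel w (Function.update P v k) ≤ ∑ x, ∑ y, w x * w y *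
      (((wr (P x) (P y) (rel x y) : ℤ) : ℝ)
        + (if x = v then ((wr k (P y) (rel v y) : ℤ) : ℝ) - ((wr (P v) (P y) (rel v y) : ℤ) : ℝ)
            else 0)
        + (if y = v then ((wr k (P x) (rel v x) : ℤ) : ℝ) - ((wr (P v) (P x) (rel v x) : ℤ) : ℝ)
            else 0)) := by
    unfold Phi
    refine Finset.sum_le_sum fun x _ => Finset.sum_le_sum fun y _ => ?_
    exact mul_le_mul_of_nonneg_left (hpt x y) (mul_nonneg (hw x) (hw y))
  refine le_trans h1 (le_of_eq ?_)
  have h2 : ∀ x y, w x * w y *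
      (((wr (P x) (P y) (rel x y) : ℤ) : ℝ)
        + (if x = v then ((wr k (P y) (rel v y) : ℤ) : ℝ) - ((wr (P v) (P y) (rel v y) : ℤ) : ℝ)
            else 0)
        + (if y = v then ((wr k (P x) (rel v x) : ℤ) : ℝ) - ((wr (P v) (P x) (rel v x) : ℤ) : ℝ)
            else 0))
      = w x * w y * ((wr (P x) (P y) (rel x y) : ℤ) : ℝ)
        + (if x = v then w v * (w y * ((wr k (P y) (rel v y) : ℤ) : ℝ)
              - w y * ((wr (P v) (P y) (rel v y) : ℤ) : ℝ)) else 0)
        + (if y = v then w v * (w x * ((wr k (P x) (rel v x) : ℤ) : ℝ)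
              - w x * ((wr (P v) (P x) (rel v x) : ℤ) : ℝ)) else 0) := by
    intro x y
    split_ifs with hx hy hy
    · subst hx; subst hy; ring
    · subst hx; ring
    · subst hy; ring
    · ring
  simp_rw [h2, Finset.sum_add_distrib]
  have e1 : ∑ x, ∑ y, (if x = v then w v * (w y * ((wr k (P y) (rel v y) : ℤ) : ℝ)
              - w y * ((wr (P v) (P y) (rel v y) : ℤ) : ℝ)) else 0)
      = w v * (zk rel w P v k - z rel w P v) := by
    rw [Finset.sum_eq_single v]
    · simp only [if_true]
      rw [← Finset.mul_sum, Finset.sum_sub_distrib]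
      rfl
    · intro b _ hb
      simp [hb]
    · simp
  have e2 : ∑ x, ∑ y, (if y = v then w v * (w x * ((wr k (P x) (rel v x) : ℤ) : ℝ)
              - w x * ((wr (P v) (P x) (rel v x) : ℤ) : ℝ)) else 0)
      = w v * (zk rel w P v k - z rel w P v) := by
    rw [Finset.sum_comm]
    exact e1
  rw [e1, e2]
  unfold Phi
  ring

/-- Pointwise: `h3 d e f ≤ [vt i d = vt j e] + [i = j] - 2 [both] + wr i j f` (decide), summed over
`x, y` with `i = P x`, `j = P y`, `d = rel v x`, `e = rel v y`, `f = rel x y`. -/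
theorem V1 (hw : ∀ v, 0 ≤ w v) (v : V) : L rel w v ≤ B (q rel w P v) + Phi rel w P := by
  rw [T6.B_q]
  unfold L Phi H
  rw [← Finset.sum_add_distrib]
  refine Finset.sum_le_sum fun x _ => ?_
  rw [← Finset.sum_add_distrib]
  refine Finset.sum_le_sum fun y _ => ?_
  rw [← mul_add]
  exact mul_le_mul_of_nonneg_left (T6.h3ptR _ _ _ _ _) (mul_nonneg (hw x) (hw y))

/-- The same, keeping the pairs inside the class `i` exact. -/
theorem V1own (hw : ∀ v, 0 ≤ w v) (v : V) (i : Fin 4) :
    L rel w v ≤ (∑ x, ∑ y, wi w P i x * wi w P i y * H rel v x y)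
      + (B (q rel w P v) - (X w P i ^ 2 - ss (q rel w P v) i)) + Phi rel w P := by
  have e1 : X w P i ^ 2 = ∑ x, ∑ y, wi w P i x * wi w P i y := by
    unfold X wi
    rw [sq, Finset.sum_mul_sum]
  have e2 : ss (q rel w P v) i = ∑ x, ∑ y, wi w P i x * wi w P i y *
      (if vt (P x) (rel v x) = vt (P y) (rel v y) then (1 : ℝ) else 0) := by
    rw [T6.sq_sum (fun x => vt (P x) (rel v x)) (wi w P i)]
    unfold ss q wi
    refine Finset.sum_congr rfl fun k _ => ?_
    congr 1
    refine Finset.sum_congr rfl fun x _ => ?_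
    by_cases h1 : P x = i
    · by_cases h2 : vt (P x) (rel v x) = k
      · rw [if_pos ⟨h1, h2⟩, if_pos h2, if_pos h1]
      · rw [if_neg (fun h => h2 h.2), if_neg h2]
    · rw [if_neg (fun h => h1 h.1), if_neg h1]
      simp
  rw [T6.B_q, e1, e2]
  unfold L Phi H
  rw [← Finset.sum_sub_distrib, ← Finset.sum_sub_distrib, ← Finset.sum_add_distrib,
    ← Finset.sum_add_distrib]
  refine Finset.sum_le_sum fun x _ => ?_
  rw [← Finset.sum_sub_distrib, ← Finset.sum_sub_distrib, ← Finset.sum_add_distrib,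
    ← Finset.sum_add_distrib]
  refine Finset.sum_le_sum fun y _ => ?_
  have hww := mul_nonneg (hw x) (hw y)
  have h3 := T6.h3ptR (P x) (P y) (rel v x) (rel v y) (rel x y)
  by_cases hx : P x = i
  · by_cases hy : P y = i
    · have w1 : wi w P i x = w x := by unfold wi; rw [if_pos hx]
      have w2 : wi w P i y = w y := by unfold wi; rw [if_pos hy]
      rw [w1, w2, hx, hy, T6.wr_self]
      by_cases hv : vt i (rel v x) = vt i (rel v y)
      · simp only [hv]
        simp only [if_true, Int.cast_zero]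
        linarith
      · have hv2 : ¬ ((i, vt i (rel v x)) = (i, vt i (rel v y))) := by
          intro h
          exact hv (Prod.mk.inj h).2
        rw [if_neg hv, if_pos rfl, if_neg hv2]
        simp only [Int.cast_zero]
        linarith
    · have w2 : wi w P i y = 0 := by unfold wi; rw [if_neg hy]
      rw [w2]
      have := mul_le_mul_of_nonneg_left h3 hww
      linarith
  · have w1 : wi w P i x = 0 := by unfold wi; rw [if_neg hx]
    rw [w1]
    have := mul_le_mul_of_nonneg_left h3 hww
    linarith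
end

end Pool.Agent.H190R2.P3
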