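import Pool.Agent.H190R2.P3.Defs

/-! Task T7 (algebraic bounds for the quadratic form `B` of a vote matrix). -/

set_option autoImplicit false
open Finset

namespace Pool.Agent.H190R2.P3

namespace T7

theorem perm_ex : ∀ i k : Fin 4, i ≠ k → ∃ σ : Equiv.Perm (Fin 4), σ 0 = i ∧ σ 1 = k := by
  decide

theorem other : ∀ i : Fin 4, ∃ k : Fin 4, i ≠ k := by decide

/-- simultaneous permutation of rows and columns -/
def pq (q : Fin 4 → Fin 4 → ℝ) (σ : Equiv.Perm (Fin 4)) : Fin 4 → Fin 4 → ℝ :=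
  fun i k => q (σ i) (σ k)

variable {q : Fin 4 → Fin 4 → ℝ}

theorem rs_pq (σ : Equiv.Perm (Fin 4)) (i : Fin 4) : rs (pq q σ) i = rs q (σ i) :=
  Equiv.sum_comp σ (fun k => q (σ i) k)

theorem cs_pq (σ : Equiv.Perm (Fin 4)) (k : Fin 4) : cs (pq q σ) k = cs q (σ k) :=
  Equiv.sum_comp σ (fun i => q i (σ k))

theorem ss_pq (σ : Equiv.Perm (Fin 4)) (i : Fin 4) : ss (pq q σ) i = ss q (σ i) :=
  Equiv.sum_comp σ (fun k => q (σ i) k ^ 2)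

theorem B_pq (σ : Equiv.Perm (Fin 4)) : B (pq q σ) = B q := by
  unfold B
  simp only [rs_pq, cs_pq, ss_pq]
  rw [Equiv.sum_comp σ (fun k => cs q k ^ 2), Equiv.sum_comp σ (fun k => rs q k ^ 2),
    Equiv.sum_comp σ (fun k => ss q k)]

theorem VM_pq (hq : VM q) (σ : Equiv.Perm (Fin 4)) : VM (pq q σ) where
  nonneg i k := hq.nonneg _ _
  diag i := hq.diag _
  sum := by
    simp only [rs_pq]
    rw [Equiv.sum_comp σ (fun i => rs q i)]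
    exact hq.sum

theorem rs_eq (hq : VM q) : rs q 0 = q 0 1 + q 0 2 + q 0 3 ∧ rs q 1 = q 1 0 + q 1 2 + q 1 3 ∧
    rs q 2 = q 2 0 + q 2 1 + q 2 3 ∧ rs q 3 = q 3 0 + q 3 1 + q 3 2 := by
  have h0 := hq.diag 0
  have h1 := hq.diag 1
  have h2 := hq.diag 2
  have h3 := hq.diag 3
  unfold rs
  simp only [Fin.sum_univ_four, h0, h1, h2, h3]
  refine ⟨by ring, by ring, by ring, by ring⟩

theorem cs_eq (hq : VM q) : cs q 0 = q 1 0 + q 2 0 + q 3 0 ∧ cs q 1 = q 0 1 + q 2 1 + q 3 1 ∧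
    cs q 2 = q 0 2 + q 1 2 + q 3 2 ∧ cs q 3 = q 0 3 + q 1 3 + q 2 3 := by
  have h0 := hq.diag 0
  have h1 := hq.diag 1
  have h2 := hq.diag 2
  have h3 := hq.diag 3
  unfold cs
  simp only [Fin.sum_univ_four, h0, h1, h2, h3]
  refine ⟨by ring, by ring, by ring, by ring⟩

theorem ss_eq (hq : VM q) : ss q 0 = q 0 1 ^ 2 + q 0 2 ^ 2 + q 0 3 ^ 2 ∧
    ss q 1 = q 1 0 ^ 2 + q 1 2 ^ 2 + q 1 3 ^ 2 ∧
    ss q 2 = q 2 0 ^ 2 + q 2 1 ^ 2 + q 2 3 ^ 2 ∧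
    ss q 3 = q 3 0 ^ 2 + q 3 1 ^ 2 + q 3 2 ^ 2 := by
  have h0 := hq.diag 0
  have h1 := hq.diag 1
  have h2 := hq.diag 2
  have h3 := hq.diag 3
  unfold ss
  simp only [Fin.sum_univ_four, h0, h1, h2, h3]
  refine ⟨by ring, by ring, by ring, by ring⟩

theorem tot_eq (hq : VM q) : q 0 1 + q 0 2 + q 0 3 + (q 1 0 + q 1 2 + q 1 3) +
    (q 2 0 + q 2 1 + q 2 3) + (q 3 0 + q 3 1 + q 3 2) = 1 := by
  have h := hq.sum
  obtain ⟨h0, h1, h2, h3⟩ := rs_eq hq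
  rw [Fin.sum_univ_four, h0, h1, h2, h3] at h
  exact h

/-- the common part of the bounds: own class `0`, everything except the terms of row `0` -/
theorem main (hq : VM q) (M : ℝ) (hM : ∀ i, rs q i ≤ M) :
    B q ≤ 2 / 3 * (1 - rs q 0) ^ 2 + (rs q 0 ^ 2 - ss q 0)
      + 2 * (q 0 1 * (q 2 1 + q 3 1) + q 0 2 * (q 1 2 + q 3 2) + q 0 3 * (q 1 3 + q 2 3))
      - (1 - rs q 0 - cs q 0) * (2 - 2 * rs q 0 - 4 * M) + (1 - rs q 0 - cs q 0) ^ 2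
      - 2 * ((q 1 2 + q 1 3) ^ 2 + (q 2 1 + q 2 3) ^ 2 + (q 3 1 + q 3 2) ^ 2) := by
  have ht := tot_eq hq
  have hM1 := hM 1
  have hM2 := hM 2
  have hM3 := hM 3
  have hB : B q = (cs q 0 ^ 2 + cs q 1 ^ 2 + cs q 2 ^ 2 + cs q 3 ^ 2) +
      (rs q 0 ^ 2 + rs q 1 ^ 2 + rs q 2 ^ 2 + rs q 3 ^ 2) -
      2 * (ss q 0 + ss q 1 + ss q 2 + ss q 3) := by
    unfold B
    simp only [Fin.sum_univ_four]
  rw [hB]
  obtain ⟨r0, r1, r2, r3⟩ := rs_eq hq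
  obtain ⟨c0, c1, c2, c3⟩ := cs_eq hq
  obtain ⟨s0, s1, s2, s3⟩ := ss_eq hq
  rw [r0, r1, r2, r3, c0, c1, c2, c3, s0, s1, s2, s3]
  rw [r1] at hM1
  rw [r2] at hM2
  rw [r3] at hM3
  have n12 := hq.nonneg 1 2
  have n13 := hq.nonneg 1 3
  have n21 := hq.nonneg 2 1
  have n23 := hq.nonneg 2 3
  have n31 := hq.nonneg 3 1
  have n32 := hq.nonneg 3 2
  generalize q 0 1 = q01 at *
  generalize q 0 2 = q02 at *
  generalize q 0 3 = q03 at *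
  generalize q 1 0 = q10 at *
  generalize q 1 2 = q12 at *
  generalize q 1 3 = q13 at *
  generalize q 2 0 = q20 at *
  generalize q 2 1 = q21 at *
  generalize q 2 3 = q23 at *
  generalize q 3 0 = q30 at *
  generalize q 3 1 = q31 at *
  generalize q 3 2 = q32 at *
  have e1 : (1 - (q01 + q02 + q03)) = (q10 + q12 + q13) + (q20 + q21 + q23) + (q30 + q31 + q32) := by
    linarith
  have e2 : 1 - (q01 + q02 + q03) - (q10 + q20 + q30) = (q12 + q13) + (q21 + q23) + (q31 + q32) := by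
    linarith
  have e3 : 2 - 2 * (q01 + q02 + q03) - 4 * M =
      2 * ((q10 + q12 + q13) + (q20 + q21 + q23) + (q30 + q31 + q32)) - 4 * M := by linarith
  rw [e2, e3, e1]
  have m1 : (q12 + q13) * (q10 + q12 + q13) ≤ (q12 + q13) * M :=
    mul_le_mul_of_nonneg_left hM1 (by linarith)
  have m2 : (q21 + q23) * (q20 + q21 + q23) ≤ (q21 + q23) * M :=
    mul_le_mul_of_nonneg_left hM2 (by linarith)
  have m3 : (q31 + q32) * (q30 + q31 + q32) ≤ (q31 + q32) * M :=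
    mul_le_mul_of_nonneg_left hM3 (by linarith)
  linarith [m1, m2, m3, sq_nonneg (q21 - q31), sq_nonneg (q12 - q32), sq_nonneg (q13 - q23),
    sq_nonneg ((q10 + q12 + q13) - (q20 + q21 + q23)),
    sq_nonneg ((q10 + q12 + q13) - (q30 + q31 + q32)),
    sq_nonneg ((q20 + q21 + q23) - (q30 + q31 + q32))]

theorem mx01 (hq : VM q) (h2 : q 0 2 ≤ q 0 1) (h3 : q 0 3 ≤ q 0 1) :
    rs q 0 ^ 2 - ss q 0 ≤ 2 * rs q 0 * (rs q 0 - q 0 1) - 3 / 2 * (rs q 0 - q 0 1) ^ 2 := by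
  rw [(rs_eq hq).1, (ss_eq hq).1]
  nlinarith [sq_nonneg (q 0 2 - q 0 3)]

theorem zz_eq (hq : VM q) : 1 - rs q 0 - cs q 0 =
    (q 1 2 + q 1 3) + (q 2 1 + q 2 3) + (q 3 1 + q 3 2) := by
  have ht := tot_eq hq
  rw [(rs_eq hq).1, (cs_eq hq).1]
  linarith

theorem HB0 (hq : VM q) (M : ℝ) (hM : ∀ i, rs q i ≤ M) (h2 : q 0 2 ≤ q 0 1)
    (h3 : q 0 3 ≤ q 0 1) (y a zz : ℝ) (hy : y = rs q 0) (ha : a = q 0 1)
    (hz : zz = 1 - rs q 0 - cs q 0) :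
    B q ≤ 2 / 3 * (1 - y) ^ 2 + 2 * y * (y - a) - 3 / 2 * (y - a) ^ 2
      - zz * (2 - 4 * y - 4 * M) - 2 * (y - a) * zz + zz ^ 2 / 3 := by
  have h := main hq M hM
  have e1 := mx01 hq h2 h3
  have ez := zz_eq hq
  rw [← hy, ← ha] at e1
  rw [← hz] at h ez
  rw [← hy, ← ha] at h
  rw [← ha] at h2 h3
  have n12 := hq.nonneg 1 2
  have n13 := hq.nonneg 1 3
  have n21 := hq.nonneg 2 1
  have n23 := hq.nonneg 2 3
  have n31 := hq.nonneg 3 1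
  have n32 := hq.nonneg 3 2
  have p1 : q 0 2 * (q 1 2 + q 3 2) ≤ a * (q 1 2 + q 3 2) :=
    mul_le_mul_of_nonneg_right h2 (by linarith)
  have p2 : q 0 3 * (q 1 3 + q 2 3) ≤ a * (q 1 3 + q 2 3) :=
    mul_le_mul_of_nonneg_right h3 (by linarith)
  have p3 : a * (q 2 1 + q 3 1) + q 0 2 * (q 1 2 + q 3 2) + q 0 3 * (q 1 3 + q 2 3) ≤
      a * zz := by
    rw [ez]; linarith
  have p4 : zz ^ 2 / 3 ≤ (q 1 2 + q 1 3) ^ 2 + (q 2 1 + q 2 3) ^ 2 + (q 3 1 + q 3 2) ^ 2 := by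
    rw [ez]
    linarith [sq_nonneg ((q 1 2 + q 1 3) - (q 2 1 + q 2 3)),
      sq_nonneg ((q 1 2 + q 1 3) - (q 3 1 + q 3 2)),
      sq_nonneg ((q 2 1 + q 2 3) - (q 3 1 + q 3 2))]
  linarith

theorem HBown0 (hq : VM q) (M : ℝ) (hM : ∀ i, rs q i ≤ M) (y zz : ℝ) (hy : y = rs q 0)
    (hz : zz = 1 - rs q 0 - cs q 0) :
    B q - (y ^ 2 - ss q 0) ≤ 2 / 3 * (1 - y) ^ 2 - zz * (2 - 4 * y - 4 * M) + zz ^ 2 / 3 := by
  have h := main hq M hM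
  have ez := zz_eq hq
  have er := (rs_eq hq).1
  rw [← hz] at h ez
  rw [← hy] at h er
  have n01 := hq.nonneg 0 1
  have n02 := hq.nonneg 0 2
  have n03 := hq.nonneg 0 3
  have n12 := hq.nonneg 1 2
  have n13 := hq.nonneg 1 3
  have n21 := hq.nonneg 2 1
  have n23 := hq.nonneg 2 3
  have n31 := hq.nonneg 3 1
  have n32 := hq.nonneg 3 2
  have p0 : q 0 1 * (q 2 1 + q 3 1) ≤ y * (q 2 1 + q 3 1) :=
    mul_le_mul_of_nonneg_right (by linarith) (by linarith)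
  have p1 : q 0 2 * (q 1 2 + q 3 2) ≤ y * (q 1 2 + q 3 2) :=
    mul_le_mul_of_nonneg_right (by linarith) (by linarith)
  have p2 : q 0 3 * (q 1 3 + q 2 3) ≤ y * (q 1 3 + q 2 3) :=
    mul_le_mul_of_nonneg_right (by linarith) (by linarith)
  have p3 : q 0 1 * (q 2 1 + q 3 1) + q 0 2 * (q 1 2 + q 3 2) + q 0 3 * (q 1 3 + q 2 3) ≤
      y * zz := by
    rw [ez]; linarith
  have p4 : zz ^ 2 / 3 ≤ (q 1 2 + q 1 3) ^ 2 + (q 2 1 + q 2 3) ^ 2 + (q 3 1 + q 3 2) ^ 2 := by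
    rw [ez]
    linarith [sq_nonneg ((q 1 2 + q 1 3) - (q 2 1 + q 2 3)),
      sq_nonneg ((q 1 2 + q 1 3) - (q 3 1 + q 3 2)),
      sq_nonneg ((q 2 1 + q 2 3) - (q 3 1 + q 3 2))]
  linarith

theorem HR0 (hq : VM q) (M : ℝ) (hM : ∀ i, rs q i ≤ M) (h2 : q 0 2 ≤ q 0 1)
    (h3 : q 0 3 ≤ q 0 1) (y a zz : ℝ) (hy : y = rs q 0) (ha : a = q 0 1)
    (hz : zz = 1 - rs q 0 - cs q 0) :
    ∃ c, 0 ≤ c ∧ c ≤ zz ∧ B q ≤ 2 / 3 * (1 - y) ^ 2 + 2 * y * (y - a) - 3 / 2 * (y - a) ^ 2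
      - zz * (2 - 4 * y - 4 * M) - 2 * (y - a) * zz + 2 * zz * c - 3 * c ^ 2
      - 2 * (max (2 * a - y) 0) * c := by
  have h := main hq M hM
  have e1 := mx01 hq h2 h3
  have ez := zz_eq hq
  have er := (rs_eq hq).1
  rw [← hy, ← ha] at e1
  rw [← hz] at h ez
  rw [← hy, ← ha] at h
  rw [← hy, ← ha] at er
  rw [← ha] at h2 h3
  have n02 := hq.nonneg 0 2
  have n03 := hq.nonneg 0 3
  have n12 := hq.nonneg 1 2
  have n13 := hq.nonneg 1 3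
  have n21 := hq.nonneg 2 1
  have n23 := hq.nonneg 2 3
  have n31 := hq.nonneg 3 1
  have n32 := hq.nonneg 3 2
  refine ⟨q 1 2 + q 1 3, by linarith, by rw [ez]; linarith, ?_⟩
  have p3 : a * (q 2 1 + q 3 1) + q 0 2 * (q 1 2 + q 3 2) + q 0 3 * (q 1 3 + q 2 3) ≤
      a * zz - (max (2 * a - y) 0) * (q 1 2 + q 1 3) := by
    rcases le_total (2 * a - y) 0 with hm | hm
    · rw [max_eq_right hm]
      have p1 : q 0 2 * (q 1 2 + q 3 2) ≤ a * (q 1 2 + q 3 2) :=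
        mul_le_mul_of_nonneg_right h2 (by linarith)
      have p2 : q 0 3 * (q 1 3 + q 2 3) ≤ a * (q 1 3 + q 2 3) :=
        mul_le_mul_of_nonneg_right h3 (by linarith)
      rw [ez]; linarith
    · rw [max_eq_left hm]
      have p1 : q 0 2 * (q 1 2 + q 3 2) ≤ (y - a) * (q 1 2 + q 3 2) :=
        mul_le_mul_of_nonneg_right (by linarith) (by linarith)
      have p2 : q 0 3 * (q 1 3 + q 2 3) ≤ (y - a) * (q 1 3 + q 2 3) :=
        mul_le_mul_of_nonneg_right (by linarith) (by linarith)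
      have p5 : 0 ≤ (2 * a - y) * (q 3 2 + q 2 3) := mul_nonneg hm (by linarith)
      rw [ez]; linarith
  have p4 : zz ^ 2 - 2 * ((q 1 2 + q 1 3) ^ 2 + (q 2 1 + q 2 3) ^ 2 + (q 3 1 + q 3 2) ^ 2) ≤
      2 * zz * (q 1 2 + q 1 3) - 3 * (q 1 2 + q 1 3) ^ 2 := by
    rw [ez]
    linarith [sq_nonneg ((q 2 1 + q 2 3) - (q 3 1 + q 3 2))]
  linarith

/-- a position of the maximum outside of the diagonal -/
theorem pos_mx (hq : VM q) (i : Fin 4) (hmx : ∀ f : Fin 4 → ℝ, ∃ k, mx f = f k)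
    (hle : ∀ (f : Fin 4 → ℝ) (k : Fin 4), f k ≤ mx f) :
    ∃ σ : Equiv.Perm (Fin 4), σ 0 = i ∧ mx (q i) = pq q σ 0 1 ∧
      pq q σ 0 2 ≤ pq q σ 0 1 ∧ pq q σ 0 3 ≤ pq q σ 0 1 := by
  obtain ⟨k, hk⟩ := hmx (q i)
  have hex : ∃ k, i ≠ k ∧ mx (q i) = q i k := by
    by_cases hik : i = k
    · have h0 : mx (q i) = 0 := by rw [hk, ← hik]; exact hq.diag i
      obtain ⟨k', hk'⟩ := other i
      refine ⟨k', hk', le_antisymm ?_ (hle _ _)⟩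
      rw [h0]; exact hq.nonneg _ _
    · exact ⟨k, hik, hk⟩
  obtain ⟨k, hik, hk⟩ := hex
  obtain ⟨σ, h0, h1⟩ := perm_ex i k hik
  refine ⟨σ, h0, ?_, ?_, ?_⟩
  · rw [pq, h0, h1, hk]
  · rw [pq, pq, h0, h1, ← hk]; exact hle _ _
  · rw [pq, pq, h0, h1, ← hk]; exact hle _ _

end T7

theorem le_mx (f : Fin 4 → ℝ) (k : Fin 4) : f k ≤ mx f := by
  unfold mx
  fin_cases k
  · exact (le_max_left _ _).trans (le_max_left _ _)
  · exact (le_max_right _ _).trans (le_max_left _ _)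
  · exact (le_max_left _ _).trans (le_max_right _ _)
  · exact (le_max_right _ _).trans (le_max_right _ _)

theorem exists_mx (f : Fin 4 → ℝ) : ∃ k, mx f = f k := by
  unfold mx
  rcases max_choice (max (f 0) (f 1)) (max (f 2) (f 3)) with h | h
  · rw [h]
    rcases max_choice (f 0) (f 1) with h | h
    · exact ⟨0, h⟩
    · exact ⟨1, h⟩
  · rw [h]
    rcases max_choice (f 2) (f 3) with h | h
    · exact ⟨2, h⟩
    · exact ⟨3, h⟩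

section
variable {q : Fin 4 → Fin 4 → ℝ}

theorem mx_le_rs (hq : VM q) (i : Fin 4) : mx (q i) ≤ rs q i := by
  obtain ⟨k, hk⟩ := exists_mx (q i)
  rw [hk]
  exact Finset.single_le_sum (f := fun k => q i k) (fun k _ => hq.nonneg i k) (Finset.mem_univ k)

theorem rs_le_mx (hq : VM q) (i : Fin 4) : rs q i ≤ 3 * mx (q i) := by
  unfold rs
  rw [← Finset.add_sum_erase _ _ (Finset.mem_univ i), hq.diag i, zero_add]
  refine (Finset.sum_le_card_nsmul _ _ (mx (q i)) fun k _ => le_mx (q i) k).trans (le_of_eq ?_)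
  rw [Finset.card_erase_of_mem (Finset.mem_univ i), Finset.card_univ, Fintype.card_fin]
  norm_num

theorem zq_nonneg (hq : VM q) (i : Fin 4) : 0 ≤ 1 - rs q i - cs q i := by
  obtain ⟨k, hk⟩ := T7.other i
  obtain ⟨σ, h0, _⟩ := T7.perm_ex i k hk
  have h := T7.zz_eq (T7.VM_pq hq σ)
  rw [T7.rs_pq, T7.cs_pq, h0] at h
  rw [h]
  have h1 := (T7.VM_pq hq σ).nonneg
  linarith [h1 1 2, h1 1 3, h1 2 1, h1 2 3, h1 3 1, h1 3 2]

/-- the four numbers `1 - rs q k - cs q k` add up to `2` -/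
theorem zq_sum (hq : VM q) : ∑ k, (1 - rs q k - cs q k) = 2 := by
  have h1 := hq.sum
  have h2 : ∑ k, cs q k = 1 := by
    rw [← h1]
    unfold cs rs
    exact Finset.sum_comm
  rw [Finset.sum_sub_distrib, Finset.sum_sub_distrib, h1, h2]
  simp
  norm_num

theorem HR (hq : VM q) (M : ℝ) (hM : ∀ i, rs q i ≤ M) (i : Fin 4) (y a zz : ℝ)
    (hy : y = rs q i) (ha : a = mx (q i)) (hz : zz = 1 - rs q i - cs q i) :
    ∃ c, 0 ≤ c ∧ c ≤ zz ∧ B q ≤ 2 / 3 * (1 - y) ^ 2 + 2 * y * (y - a) - 3 / 2 * (y - a) ^ 2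
      - zz * (2 - 4 * y - 4 * M) - 2 * (y - a) * zz + 2 * zz * c - 3 * c ^ 2
      - 2 * (max (2 * a - y) 0) * c := by
  obtain ⟨σ, h0, h1, h2, h3⟩ := T7.pos_mx hq i exists_mx le_mx
  have := T7.HR0 (T7.VM_pq hq σ) M (fun j => by rw [T7.rs_pq]; exact hM _) h2 h3 y a zz
    (by rw [T7.rs_pq, h0, hy]) (by rw [ha, h1]) (by rw [T7.rs_pq, T7.cs_pq, h0, hz])
  rwa [T7.B_pq] at this

theorem HB (hq : VM q) (M : ℝ) (hM : ∀ i, rs q i ≤ M) (i : Fin 4) (y a zz : ℝ)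
    (hy : y = rs q i) (ha : a = mx (q i)) (hz : zz = 1 - rs q i - cs q i) :
    B q ≤ 2 / 3 * (1 - y) ^ 2 + 2 * y * (y - a) - 3 / 2 * (y - a) ^ 2
      - zz * (2 - 4 * y - 4 * M) - 2 * (y - a) * zz + zz ^ 2 / 3 := by
  obtain ⟨σ, h0, h1, h2, h3⟩ := T7.pos_mx hq i exists_mx le_mx
  have := T7.HB0 (T7.VM_pq hq σ) M (fun j => by rw [T7.rs_pq]; exact hM _) h2 h3 y a zz
    (by rw [T7.rs_pq, h0, hy]) (by rw [ha, h1]) (by rw [T7.rs_pq, T7.cs_pq, h0, hz])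
  rwa [T7.B_pq] at this

theorem HBown (hq : VM q) (M : ℝ) (hM : ∀ i, rs q i ≤ M) (i : Fin 4) (y zz : ℝ)
    (hy : y = rs q i) (hz : zz = 1 - rs q i - cs q i) :
    B q - (y ^ 2 - ss q i) ≤ 2 / 3 * (1 - y) ^ 2 - zz * (2 - 4 * y - 4 * M) + zz ^ 2 / 3 := by
  obtain ⟨σ, h0, h1, h2, h3⟩ := T7.pos_mx hq i exists_mx le_mx
  have := T7.HBown0 (T7.VM_pq hq σ) M (fun j => by rw [T7.rs_pq]; exact hM _) y zz
    (by rw [T7.rs_pq, h0, hy]) (by rw [T7.rs_pq, T7.cs_pq, h0, hz])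
  rwa [T7.B_pq, T7.ss_pq, h0] at this

theorem B1 (hq : VM q) : B q ≤ 1 / 3 + 1 / 4 * ∑ i, (rs q i - cs q i) ^ 2 := by
  have ht := T7.tot_eq hq
  have hB : B q = (cs q 0 ^ 2 + cs q 1 ^ 2 + cs q 2 ^ 2 + cs q 3 ^ 2) +
      (rs q 0 ^ 2 + rs q 1 ^ 2 + rs q 2 ^ 2 + rs q 3 ^ 2) -
      2 * (ss q 0 + ss q 1 + ss q 2 + ss q 3) := by
    unfold B
    simp only [Fin.sum_univ_four]
  rw [hB, Fin.sum_univ_four]
  obtain ⟨r0, r1, r2, r3⟩ := T7.rs_eq hq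
  obtain ⟨c0, c1, c2, c3⟩ := T7.cs_eq hq
  obtain ⟨s0, s1, s2, s3⟩ := T7.ss_eq hq
  rw [r0, r1, r2, r3, c0, c1, c2, c3, s0, s1, s2, s3]
  have hT : (1 : ℝ) / 3 = (q 0 1 + q 0 2 + q 0 3 + (q 1 0 + q 1 2 + q 1 3) +
    (q 2 0 + q 2 1 + q 2 3) + (q 3 0 + q 3 1 + q 3 2)) ^ 2 / 3 := by rw [ht]; norm_num
  rw [hT]
  clear hT ht hB
  generalize q 0 1 = q01
  generalize q 0 2 = q02
  generalize q 0 3 = q03
  generalize q 1 0 = q10
  generalize q 1 2 = q12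
  generalize q 1 3 = q13
  generalize q 2 0 = q20
  generalize q 2 1 = q21
  generalize q 2 3 = q23
  generalize q 3 0 = q30
  generalize q 3 1 = q31
  generalize q 3 2 = q32
  have key : (q01 + q02 + q03 + (q10 + q12 + q13) + (q20 + q21 + q23) + (q30 + q31 + q32)) ^ 2 / 3
      + 1 / 4 * ((q01 + q02 + q03 - (q10 + q20 + q30)) ^ 2
      + (q10 + q12 + q13 - (q01 + q21 + q31)) ^ 2
      + (q20 + q21 + q23 - (q02 + q12 + q32)) ^ 2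
      + (q30 + q31 + q32 - (q03 + q13 + q23)) ^ 2)
      - (((q10 + q20 + q30) ^ 2 + (q01 + q21 + q31) ^ 2 + (q02 + q12 + q32) ^ 2
        + (q03 + q13 + q23) ^ 2) +
      ((q01 + q02 + q03) ^ 2 + (q10 + q12 + q13) ^ 2 + (q20 + q21 + q23) ^ 2
        + (q30 + q31 + q32) ^ 2) -
      2 * (q01 ^ 2 + q02 ^ 2 + q03 ^ 2 + (q10 ^ 2 + q12 ^ 2 + q13 ^ 2)
        + (q20 ^ 2 + q21 ^ 2 + q23 ^ 2) + (q30 ^ 2 + q31 ^ 2 + q32 ^ 2))) = 2 * ((q01 - ((((q01 + q02 + q03) + (q10 + q20 + q30)) / 2 - (q01 + q02 + q03 + (q10 + q12 + q13) + (q20 + q21 + q23) + (q30 + q31 + q32)) / 6) / 2 + (((q10 + q12 + q13) + (q01 + q21 + q31)) / 2 - (q01 + q02 + q03 + (q10 + q12 + q13) + (q20 + q21 + q23) + (q30 + q31 + q32)) / 6) / 2 + (((q01 + q02 + q03) - (q10 + q20 + q30)) / 2 - ((q10 + q12 + q13) - (q01 + q21 + q31)) / 2) / 4)) ^ 2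
      + (q02 - ((((q01 + q02 + q03) + (q10 + q20 + q30)) / 2 - (q01 + q02 + q03 + (q10 + q12 + q13) + (q20 + q21 + q23) + (q30 + q31 + q32)) / 6) / 2 + (((q20 + q21 + q23) + (q02 + q12 + q32)) / 2 - (q01 + q02 + q03 + (q10 + q12 + q13) + (q20 + q21 + q23) + (q30 + q31 + q32)) / 6) / 2 + (((q01 + q02 + q03) - (q10 + q20 + q30)) / 2 - ((q20 + q21 + q23) - (q02 + q12 + q32)) / 2) / 4)) ^ 2
      + (q03 - ((((q01 + q02 + q03) + (q10 + q20 + q30)) / 2 - (q01 + q02 + q03 + (q10 + q12 + q13) + (q20 + q21 + q23) + (q30 + q31 + q32)) / 6) / 2 + (((q30 + q31 + q32) + (q03 + q13 + q23)) / 2 - (q01 + q02 + q03 + (q10 + q12 + q13) + (q20 + q21 + q23) + (q30 + q31 + q32)) / 6) / 2 + (((q01 + q02 + q03) - (q10 + q20 + q30)) / 2 - ((q30 + q31 + q32) - (q03 + q13 + q23)) / 2) / 4)) ^ 2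
      + (q10 - ((((q10 + q12 + q13) + (q01 + q21 + q31)) / 2 - (q01 + q02 + q03 + (q10 + q12 + q13) + (q20 + q21 + q23) + (q30 + q31 + q32)) / 6) / 2 + (((q01 + q02 + q03) + (q10 + q20 + q30)) / 2 - (q01 + q02 + q03 + (q10 + q12 + q13) + (q20 + q21 + q23) + (q30 + q31 + q32)) / 6) / 2 + (((q10 + q12 + q13) - (q01 + q21 + q31)) / 2 - ((q01 + q02 + q03) - (q10 + q20 + q30)) / 2) / 4)) ^ 2
      + (q12 - ((((q10 + q12 + q13) + (q01 + q21 + q31)) / 2 - (q01 + q02 + q03 + (q10 + q12 + q13) + (q20 + q21 + q23) + (q30 + q31 + q32)) / 6) / 2 + (((q20 + q21 + q23) + (q02 + q12 + q32)) / 2 - (q01 + q02 + q03 + (q10 + q12 + q13) + (q20 + q21 + q23) + (q30 + q31 + q32)) / 6) / 2 + (((q10 + q12 + q13) - (q01 + q21 + q31)) / 2 - ((q20 + q21 + q23) - (q02 + q12 + q32)) / 2) / 4)) ^ 2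
      + (q13 - ((((q10 + q12 + q13) + (q01 + q21 + q31)) / 2 - (q01 + q02 + q03 + (q10 + q12 + q13) + (q20 + q21 + q23) + (q30 + q31 + q32)) / 6) / 2 + (((q30 + q31 + q32) + (q03 + q13 + q23)) / 2 - (q01 + q02 + q03 + (q10 + q12 + q13) + (q20 + q21 + q23) + (q30 + q31 + q32)) / 6) / 2 + (((q10 + q12 + q13) - (q01 + q21 + q31)) / 2 - ((q30 + q31 + q32) - (q03 + q13 + q23)) / 2) / 4)) ^ 2
      + (q20 - ((((q20 + q21 + q23) + (q02 + q12 + q32)) / 2 - (q01 + q02 + q03 + (q10 + q12 + q13) + (q20 + q21 + q23) + (q30 + q31 + q32)) / 6) / 2 + (((q01 + q02 + q03) + (q10 + q20 + q30)) / 2 - (q01 + q02 + q03 + (q10 + q12 + q13) + (q20 + q21 + q23) + (q30 + q31 + q32)) / 6) / 2 + (((q20 + q21 + q23) - (q02 + q12 + q32)) / 2 - ((q01 + q02 + q03) - (q10 + q20 + q30)) / 2) / 4)) ^ 2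
      + (q21 - ((((q20 + q21 + q23) + (q02 + q12 + q32)) / 2 - (q01 + q02 + q03 + (q10 + q12 + q13) + (q20 + q21 + q23) + (q30 + q31 + q32)) / 6) / 2 + (((q10 + q12 + q13) + (q01 + q21 + q31)) / 2 - (q01 + q02 + q03 + (q10 + q12 + q13) + (q20 + q21 + q23) + (q30 + q31 + q32)) / 6) / 2 + (((q20 + q21 + q23) - (q02 + q12 + q32)) / 2 - ((q10 + q12 + q13) - (q01 + q21 + q31)) / 2) / 4)) ^ 2
      + (q23 - ((((q20 + q21 + q23) + (q02 + q12 + q32)) / 2 - (q01 + q02 + q03 + (q10 + q12 + q13) + (q20 + q21 + q23) + (q30 + q31 + q32)) / 6) / 2 + (((q30 + q31 + q32) + (q03 + q13 + q23)) / 2 - (q01 + q02 + q03 + (q10 + q12 + q13) + (q20 + q21 + q23) + (q30 + q31 + q32)) / 6) / 2 + (((q20 + q21 + q23) - (q02 + q12 + q32)) / 2 - ((q30 + q31 + q32) - (q03 + q13 + q23)) / 2) / 4)) ^ 2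
      + (q30 - ((((q30 + q31 + q32) + (q03 + q13 + q23)) / 2 - (q01 + q02 + q03 + (q10 + q12 + q13) + (q20 + q21 + q23) + (q30 + q31 + q32)) / 6) / 2 + (((q01 + q02 + q03) + (q10 + q20 + q30)) / 2 - (q01 + q02 + q03 + (q10 + q12 + q13) + (q20 + q21 + q23) + (q30 + q31 + q32)) / 6) / 2 + (((q30 + q31 + q32) - (q03 + q13 + q23)) / 2 - ((q01 + q02 + q03) - (q10 + q20 + q30)) / 2) / 4)) ^ 2
      + (q31 - ((((q30 + q31 + q32) + (q03 + q13 + q23)) / 2 - (q01 + q02 + q03 + (q10 + q12 + q13) + (q20 + q21 + q23) + (q30 + q31 + q32)) / 6) / 2 + (((q10 + q12 + q13) + (q01 + q21 + q31)) / 2 - (q01 + q02 + q03 + (q10 + q12 + q13) + (q20 + q21 + q23) + (q30 + q31 + q32)) / 6) / 2 + (((q30 + q31 + q32) - (q03 + q13 + q23)) / 2 - ((q10 + q12 + q13) - (q01 + q21 + q31)) / 2) / 4)) ^ 2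
      + (q32 - ((((q30 + q31 + q32) + (q03 + q13 + q23)) / 2 - (q01 + q02 + q03 + (q10 + q12 + q13) + (q20 + q21 + q23) + (q30 + q31 + q32)) / 6) / 2 + (((q20 + q21 + q23) + (q02 + q12 + q32)) / 2 - (q01 + q02 + q03 + (q10 + q12 + q13) + (q20 + q21 + q23) + (q30 + q31 + q32)) / 6) / 2 + (((q30 + q31 + q32) - (q03 + q13 + q23)) / 2 - ((q20 + q21 + q23) - (q02 + q12 + q32)) / 2) / 4)) ^ 2) := by
    ring
  have hpos : 0 ≤ 2 * ((q01 - ((((q01 + q02 + q03) + (q10 + q20 + q30)) / 2 - (q01 + q02 + q03 + (q10 + q12 + q13) + (q20 + q21 + q23) + (q30 + q31 + q32)) / 6) / 2 + (((q10 + q12 + q13) + (q01 + q21 + q31)) / 2 - (q01 + q02 + q03 + (q10 + q12 + q13) + (q20 + q21 + q23) + (q30 + q31 + q32)) / 6) / 2 + (((q01 + q02 + q03) - (q10 + q20 + q30)) / 2 - ((q10 + q12 + q13) - (q01 + q21 + q31)) / 2) / 4)) ^ 2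
      + (q02 - ((((q01 + q02 + q03) + (q10 + q20 + q30)) / 2 - (q01 + q02 + q03 + (q10 + q12 + q13) + (q20 + q21 + q23) + (q30 + q31 + q32)) / 6) / 2 + (((q20 + q21 + q23) + (q02 + q12 + q32)) / 2 - (q01 + q02 + q03 + (q10 + q12 + q13) + (q20 + q21 + q23) + (q30 + q31 + q32)) / 6) / 2 + (((q01 + q02 + q03) - (q10 + q20 + q30)) / 2 - ((q20 + q21 + q23) - (q02 + q12 + q32)) / 2) / 4)) ^ 2
      + (q03 - ((((q01 + q02 + q03) + (q10 + q20 + q30)) / 2 - (q01 + q02 + q03 + (q10 + q12 + q13) + (q20 + q21 + q23) + (q30 + q31 + q32)) / 6) / 2 + (((q30 + q31 + q32) + (q03 + q13 + q23)) / 2 - (q01 + q02 + q03 + (q10 + q12 + q13) + (q20 + q21 + q23) + (q30 + q31 + q32)) / 6) / 2 + (((q01 + q02 + q03) - (q10 + q20 + q30)) / 2 - ((q30 + q31 + q32) - (q03 + q13 + q23)) / 2) / 4)) ^ 2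
      + (q10 - ((((q10 + q12 + q13) + (q01 + q21 + q31)) / 2 - (q01 + q02 + q03 + (q10 + q12 + q13) + (q20 + q21 + q23) + (q30 + q31 + q32)) / 6) / 2 + (((q01 + q02 + q03) + (q10 + q20 + q30)) / 2 - (q01 + q02 + q03 + (q10 + q12 + q13) + (q20 + q21 + q23) + (q30 + q31 + q32)) / 6) / 2 + (((q10 + q12 + q13) - (q01 + q21 + q31)) / 2 - ((q01 + q02 + q03) - (q10 + q20 + q30)) / 2) / 4)) ^ 2
      + (q12 - ((((q10 + q12 + q13) + (q01 + q21 + q31)) / 2 - (q01 + q02 + q03 + (q10 + q12 + q13) + (q20 + q21 + q23) + (q30 + q31 + q32)) / 6) / 2 + (((q20 + q21 + q23) + (q02 + q12 + q32)) / 2 - (q01 + q02 + q03 + (q10 + q12 + q13) + (q20 + q21 + q23) + (q30 + q31 + q32)) / 6) / 2 + (((q10 + q12 + q13) - (q01 + q21 + q31)) / 2 - ((q20 + q21 + q23) - (q02 + q12 + q32)) / 2) / 4)) ^ 2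
      + (q13 - ((((q10 + q12 + q13) + (q01 + q21 + q31)) / 2 - (q01 + q02 + q03 + (q10 + q12 + q13) + (q20 + q21 + q23) + (q30 + q31 + q32)) / 6) / 2 + (((q30 + q31 + q32) + (q03 + q13 + q23)) / 2 - (q01 + q02 + q03 + (q10 + q12 + q13) + (q20 + q21 + q23) + (q30 + q31 + q32)) / 6) / 2 + (((q10 + q12 + q13) - (q01 + q21 + q31)) / 2 - ((q30 + q31 + q32) - (q03 + q13 + q23)) / 2) / 4)) ^ 2
      + (q20 - ((((q20 + q21 + q23) + (q02 + q12 + q32)) / 2 - (q01 + q02 + q03 + (q10 + q12 + q13) + (q20 + q21 + q23) + (q30 + q31 + q32)) / 6) / 2 + (((q01 + q02 + q03) + (q10 + q20 + q30)) / 2 - (q01 + q02 + q03 + (q10 + q12 + q13) + (q20 + q21 + q23) + (q30 + q31 + q32)) / 6) / 2 + (((q20 + q21 + q23) - (q02 + q12 + q32)) / 2 - ((q01 + q02 + q03) - (q10 + q20 + q30)) / 2) / 4)) ^ 2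
      + (q21 - ((((q20 + q21 + q23) + (q02 + q12 + q32)) / 2 - (q01 + q02 + q03 + (q10 + q12 + q13) + (q20 + q21 + q23) + (q30 + q31 + q32)) / 6) / 2 + (((q10 + q12 + q13) + (q01 + q21 + q31)) / 2 - (q01 + q02 + q03 + (q10 + q12 + q13) + (q20 + q21 + q23) + (q30 + q31 + q32)) / 6) / 2 + (((q20 + q21 + q23) - (q02 + q12 + q32)) / 2 - ((q10 + q12 + q13) - (q01 + q21 + q31)) / 2) / 4)) ^ 2
      + (q23 - ((((q20 + q21 + q23) + (q02 + q12 + q32)) / 2 - (q01 + q02 + q03 + (q10 + q12 + q13) + (q20 + q21 + q23) + (q30 + q31 + q32)) / 6) / 2 + (((q30 + q31 + q32) + (q03 + q13 + q23)) / 2 - (q01 + q02 + q03 + (q10 + q12 + q13) + (q20 + q21 + q23) + (q30 + q31 + q32)) / 6) / 2 + (((q20 + q21 + q23) - (q02 + q12 + q32)) / 2 - ((q30 + q31 + q32) - (q03 + q13 + q23)) / 2) / 4)) ^ 2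
      + (q30 - ((((q30 + q31 + q32) + (q03 + q13 + q23)) / 2 - (q01 + q02 + q03 + (q10 + q12 + q13) + (q20 + q21 + q23) + (q30 + q31 + q32)) / 6) / 2 + (((q01 + q02 + q03) + (q10 + q20 + q30)) / 2 - (q01 + q02 + q03 + (q10 + q12 + q13) + (q20 + q21 + q23) + (q30 + q31 + q32)) / 6) / 2 + (((q30 + q31 + q32) - (q03 + q13 + q23)) / 2 - ((q01 + q02 + q03) - (q10 + q20 + q30)) / 2) / 4)) ^ 2
      + (q31 - ((((q30 + q31 + q32) + (q03 + q13 + q23)) / 2 - (q01 + q02 + q03 + (q10 + q12 + q13) + (q20 + q21 + q23) + (q30 + q31 + q32)) / 6) / 2 + (((q10 + q12 + q13) + (q01 + q21 + q31)) / 2 - (q01 + q02 + q03 + (q10 + q12 + q13) + (q20 + q21 + q23) + (q30 + q31 + q32)) / 6) / 2 + (((q30 + q31 + q32) - (q03 + q13 + q23)) / 2 - ((q10 + q12 + q13) - (q01 + q21 + q31)) / 2) / 4)) ^ 2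
      + (q32 - ((((q30 + q31 + q32) + (q03 + q13 + q23)) / 2 - (q01 + q02 + q03 + (q10 + q12 + q13) + (q20 + q21 + q23) + (q30 + q31 + q32)) / 6) / 2 + (((q20 + q21 + q23) + (q02 + q12 + q32)) / 2 - (q01 + q02 + q03 + (q10 + q12 + q13) + (q20 + q21 + q23) + (q30 + q31 + q32)) / 6) / 2 + (((q30 + q31 + q32) - (q03 + q13 + q23)) / 2 - ((q20 + q21 + q23) - (q02 + q12 + q32)) / 2) / 4)) ^ 2) := by positivity
  linarith
end

end Pool.Agent.H190R2.P3
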