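import Pool.Agent.H190R2.P3.Defs
import Pool.Agent.H190R2.P3.T6
import Pool.Agent.H190R2.P3.T7

/-! Task T8 (class average). -/

set_option autoImplicit false
open Finset

namespace Pool.Agent.H190R2.P3

variable {V : Type} [Fintype V] {rel : V → V → Fin 3} {w : V → ℝ}

namespace T8

theorem wr_nonneg (i j : Fin 4) (r : Fin 3) : (0 : ℝ) ≤ ((wr i j r : ℤ) : ℝ) := by
  unfold wr
  split_ifs <;> simp

theorem wr_self (i : Fin 4) (r : Fin 3) : wr i i r = 0 := by
  unfold wr
  simp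

/-- weight of the wrong pairs with a given vertex in the class `i` -/
theorem sum_z (hs : ∀ x y, rel y x = - rel x y) (hw : ∀ v, 0 ≤ w v) (P : V → Fin 4) (i : Fin 4) :
    2 * ∑ v, wi w P i v * z rel w P v ≤ Phi rel w P := by
  have h1 : ∑ v, wi w P i v * z rel w P v = ∑ x, ∑ y, if P x = i then
      w x * w y * ((wr (P x) (P y) (rel x y) : ℤ) : ℝ) else 0 := by
    refine Finset.sum_congr rfl fun x _ => ?_
    unfold wi z zk
    by_cases hx : P x = i
    · rw [if_pos hx, Finset.mul_sum]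
      refine Finset.sum_congr rfl fun y _ => ?_
      rw [if_pos hx]
      ring
    · rw [if_neg hx]
      simp [hx]
  have hsym : ∀ x y, w x * w y * ((wr (P x) (P y) (rel x y) : ℤ) : ℝ) =
      w y * w x * ((wr (P y) (P x) (rel y x) : ℤ) : ℝ) := by
    intro x y
    rw [wr_symm (P x) (P y), ← hs x y]
    ring
  have h2 : ∑ v, wi w P i v * z rel w P v = ∑ x, ∑ y, if P y = i then
      w x * w y * ((wr (P x) (P y) (rel x y) : ℤ) : ℝ) else 0 := by
    rw [h1, Finset.sum_comm]
    refine Finset.sum_congr rfl fun x _ => Finset.sum_congr rfl fun y _ => ?_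
    rw [hsym x y]
  calc 2 * ∑ v, wi w P i v * z rel w P v = (∑ x, ∑ y, if P x = i then
      w x * w y * ((wr (P x) (P y) (rel x y) : ℤ) : ℝ) else 0) + ∑ x, ∑ y, if P y = i then
      w x * w y * ((wr (P x) (P y) (rel x y) : ℤ) : ℝ) else 0 := by
        rw [← h1, ← h2]; ring
    _ = ∑ x, ∑ y, ((if P x = i then
      w x * w y * ((wr (P x) (P y) (rel x y) : ℤ) : ℝ) else 0) + if P y = i then
      w x * w y * ((wr (P x) (P y) (rel x y) : ℤ) : ℝ) else 0) := by
        simp only [Finset.sum_add_distrib]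
    _ ≤ Phi rel w P := by
        unfold Phi
        refine Finset.sum_le_sum fun x _ => Finset.sum_le_sum fun y _ => ?_
        have h3 : 0 ≤ w x * w y * ((wr (P x) (P y) (rel x y) : ℤ) : ℝ) :=
          mul_nonneg (mul_nonneg (hw x) (hw y)) (wr_nonneg _ _ _)
        by_cases hx : P x = i
        · by_cases hy : P y = i
          · rw [hx, hy, wr_self]
            simp
          · rw [if_pos hx, if_neg hy, add_zero]
        · rw [if_neg hx, zero_add]
          split_ifs
          · exact le_rfl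
          · exact h3

theorem F_wi (P : V → Fin 4) (i : Fin 4) : F rel (wi w P i) =
    ∑ v, wi w P i v * ∑ x, ∑ y, wi w P i x * wi w P i y * H rel v x y := by
  unfold F
  refine Finset.sum_congr rfl fun v _ => ?_
  rw [Finset.mul_sum]
  refine Finset.sum_congr rfl fun x _ => ?_
  rw [Finset.mul_sum]
  refine Finset.sum_congr rfl fun y _ => ?_
  ring

end T8

theorem CA (O : Opt rel w) (P : V → Fin 4) (m Zb : ℝ) (i : Fin 4) (hi : X w P i = 1 / 4 + m)
    (hM : ∀ j, X w P j ≤ 1 / 4 + m) (hZ : ∀ v, P v = i → z rel w P v ≤ Zb) :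
    m * (4 / 5 - 16 / 15 * m - 16 * Phi rel w P) ≤ Phi rel w P * (1 + 2 / 3 * Zb) := by
  have hw : ∀ v, 0 ≤ w v := fun v => (O.pos v).le
  set Φ := Phi rel w P with hΦ
  set Y := X w P i with hY
  set ρ := F rel w with hρ
  have hΦ0 : 0 ≤ Φ := Phi_nonneg rel w P hw
  have hsum : ∑ j, X w P j = 1 := X_sum w P O.sum
  have hX0 : ∀ j, 0 ≤ X w P j := X_nonneg w P hw
  have hm : 0 ≤ m := by
    have : ∑ j : Fin 4, X w P j ≤ ∑ _j : Fin 4, (1 / 4 + m) := Finset.sum_le_sum fun j _ => hM j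
    rw [hsum] at this
    simp at this
    linarith
  have hY1 : Y ≤ 1 := by
    rw [← hsum]
    exact Finset.single_le_sum (fun j _ => hX0 j) (Finset.mem_univ i)
  have hY4 : 1 / 4 ≤ Y := by rw [hi]; linarith
  have hz0 : ∀ v, 0 ≤ z rel w P v := fun v => zk_nonneg rel w P hw v _
  have hZb : 0 ≤ Zb := by
    by_contra hcon
    have hno : ∀ v, P v ≠ i := by
      intro v hv
      have h1 := hZ v hv
      have h2 := hz0 v
      exact hcon (h2.trans h1)
    have : Y = 0 := by
      rw [hY]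
      unfold X
      exact Finset.sum_eq_zero fun v _ => by rw [if_neg (hno v)]
    linarith
  have hwi0 : ∀ v, 0 ≤ wi w P i v := by
    intro v
    unfold wi
    split_ifs
    · exact hw v
    · exact le_rfl
  have hwiY : ∑ v, wi w P i v = Y := rfl
  set S : V → ℝ := fun v => ∑ x, ∑ y, wi w P i x * wi w P i y * H rel v x y with hS
  have hpt : ∀ v, wi w P i v * ρ ≤ wi w P i v * S v + wi w P i v * (2 / 3 * (1 - Y) ^ 2 + Φ) +
      8 * m * (wi w P i v * z rel w P v) + Zb / 3 * (wi w P i v * z rel w P v) := by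
    intro v
    by_cases hv : P v = i
    · have h1 := V1own rel w P hw v i
      have h2 := HBown (VM_q rel w P hw O.sum v) (1 / 4 + m)
        (fun j => by rw [rs_q]; exact hM j) i Y (z rel w P v) (rs_q rel w P v i).symm (by
          rw [rs_q]
          unfold z
          rw [hv, zk_eq rel w P O.sum v i])
      rw [O.lag v] at h1
      have h3 : z rel w P v ^ 2 ≤ Zb * z rel w P v := by
        rw [sq]
        exact mul_le_mul_of_nonneg_right (hZ v hv) (hz0 v)
      have h4 : 2 - 4 * Y - 4 * (1 / 4 + m) = -(8 * m) := by rw [hi]; ring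
      rw [h4] at h2
      have h5 : ρ ≤ S v + (2 / 3 * (1 - Y) ^ 2 + Φ) + 8 * m * z rel w P v +
          Zb / 3 * z rel w P v := by
        have h6 : ρ ≤ S v + (B (q rel w P v) - (Y ^ 2 - ss (q rel w P v) i)) + Φ := h1
        nlinarith
      calc wi w P i v * ρ ≤ wi w P i v * (S v + (2 / 3 * (1 - Y) ^ 2 + Φ) +
            8 * m * z rel w P v + Zb / 3 * z rel w P v) :=
            mul_le_mul_of_nonneg_left h5 (hwi0 v)
        _ = _ := by ring
    · have : wi w P i v = 0 := by unfold wi; rw [if_neg hv]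
      rw [this]
      simp
  have hall := Finset.sum_le_sum (s := Finset.univ) fun v _ => hpt v
  rw [← Finset.sum_mul, hwiY] at hall
  simp only [Finset.sum_add_distrib] at hall
  rw [← Finset.mul_sum, ← Finset.mul_sum, ← Finset.sum_mul, hwiY, ← T8.F_wi P i] at hall
  have h1 := T8.sum_z (w := w) O.skew hw P i
  have h2 := O.max (wi w P i) hwi0
  rw [hwiY] at h2
  set s := ∑ v, wi w P i v * z rel w P v with hs
  have hs0 : 0 ≤ s := Finset.sum_nonneg fun v _ => mul_nonneg (hwi0 v) (hz0 v)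
  have hρ2 : 2 / 5 ≤ ρ := O.big.le
  -- main inequality
  have h3 : Y * ρ ≤ ρ * Y ^ 3 + Y * (2 / 3 * (1 - Y) ^ 2 + Φ) + 4 * m * Φ + Zb / 6 * Φ := by
    have h4 : 8 * m * s ≤ 4 * m * Φ := by nlinarith
    have h5 : Zb / 3 * s ≤ Zb / 6 * Φ := by nlinarith
    linarith
  have h6 : Y * (1 - Y) * (2 / 5 * (1 + Y) - 2 / 3 * (1 - Y)) ≤
      Y * (1 - Y) * (ρ * (1 + Y) - 2 / 3 * (1 - Y)) := by
    refine mul_le_mul_of_nonneg_left ?_ (mul_nonneg (by linarith) (by linarith))
    have : 2 / 5 * (1 + Y) ≤ ρ * (1 + Y) := mul_le_mul_of_nonneg_right hρ2 (by linarith)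
    linarith
  have h7 : Y * (m * (4 / 5 - 16 / 15 * m)) ≤ Y * Φ + 4 * m * Φ + Zb / 6 * Φ := by
    have h8 : Y * (m * (4 / 5 - 16 / 15 * m)) =
        Y * (1 - Y) * (2 / 5 * (1 + Y) - 2 / 3 * (1 - Y)) := by
      rw [hi]; ring
    rw [h8]
    have h9 : Y * (1 - Y) * (ρ * (1 + Y) - 2 / 3 * (1 - Y)) =
        Y * ρ - ρ * Y ^ 3 - Y * (2 / 3 * (1 - Y) ^ 2) := by ring
    linarith
  have h8 : Y * (m * (4 / 5 - 16 / 15 * m)) ≤ Y * (Φ + 16 * m * Φ + 2 / 3 * Zb * Φ) := by
    refine h7.trans ?_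
    have h9 : 0 ≤ m * Φ := mul_nonneg hm hΦ0
    have h10 : 0 ≤ Zb * Φ := mul_nonneg hZb hΦ0
    nlinarith
  have h9 : m * (4 / 5 - 16 / 15 * m) ≤ Φ + 16 * m * Φ + 2 / 3 * Zb * Φ :=
    le_of_mul_le_mul_left h8 (by linarith)
  linarith

end Pool.Agent.H190R2.P3
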