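import Pool.Agent.H190R2.P3.T7

/-! Task T9 (numeric vote lemma). -/

set_option autoImplicit false
open Finset

namespace Pool.Agent.H190R2.P3

namespace T9

/-- The final numeric inequality of case A at the endpoint `y = 1/4 + m`. -/
theorem numA1 (m z phi : ℝ) (hm0 : 0 ≤ m) (hm : m ≤ 23 / 625 * z) (hphi : phi ≤ 2 / 125 * z)
    (hz : 3 / 20 ≤ z) (hz' : z ≤ 3 / 10) :
    3 / 8 + (1 / 4 - z) ^ 2 + m * (6 * z - 1 / 2) + 5 / 3 * m ^ 2 + phi ≤ 399 / 1000 := by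
  have h1 : m * (6 * z - 1 / 2) ≤ 23 / 625 * z * (6 * z - 1 / 2) :=
    mul_le_mul_of_nonneg_right hm (by linarith)
  have h2 : m ^ 2 ≤ (23 / 625 * z) ^ 2 := pow_le_pow_left₀ hm0 hm 2
  nlinarith [mul_nonneg (sub_nonneg.mpr hz) (sub_nonneg.mpr hz')]

/-- The final numeric inequality of case A at the endpoint `y = 1/4 - 3 m`. -/
theorem numA2 (m z phi : ℝ) (hm0 : 0 ≤ m) (hm : m ≤ 23 / 625 * z) (hphi : phi ≤ 2 / 125 * z)
    (hz : 3 / 20 ≤ z) (hz' : z ≤ 3 / 10) :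
    3 / 8 + (1 / 4 - z) ^ 2 + m * (3 / 2 - 2 * z) + 15 * m ^ 2 + phi ≤ 399 / 1000 := by
  have h1 : m * (3 / 2 - 2 * z) ≤ 23 / 625 * z * (3 / 2 - 2 * z) :=
    mul_le_mul_of_nonneg_right hm (by linarith)
  have h2 : m ^ 2 ≤ (23 / 625 * z) ^ 2 := pow_le_pow_left₀ hm0 hm 2
  nlinarith [mul_nonneg (sub_nonneg.mpr hz) (sub_nonneg.mpr hz')]

/-- A quadratic polynomial with nonnegative leading coefficient on an interval. -/
theorem convex_quad (A Bc C lo hi y K : ℝ) (hA : 0 ≤ A) (h1 : lo ≤ y) (h2 : y ≤ hi)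
    (hlo : A * lo ^ 2 + Bc * lo + C ≤ K) (hhi : A * hi ^ 2 + Bc * hi + C ≤ K) :
    A * y ^ 2 + Bc * y + C ≤ K := by
  rcases h1.eq_or_lt with h | h
  · rw [← h]; exact hlo
  have hd : 0 < hi - lo := by linarith
  have key : (hi - lo) * (A * y ^ 2 + Bc * y + C) ≤ (hi - lo) * K := by
    have e : (hi - lo) * (A * y ^ 2 + Bc * y + C) =
        (hi - y) * (A * lo ^ 2 + Bc * lo + C) + (y - lo) * (A * hi ^ 2 + Bc * hi + C) -
          A * ((hi - lo) * ((hi - y) * (y - lo))) := by ring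
    have e1 := mul_le_mul_of_nonneg_left hlo (sub_nonneg.mpr h2)
    have e2 := mul_le_mul_of_nonneg_left hhi (sub_nonneg.mpr h1)
    have e3 : 0 ≤ A * ((hi - lo) * ((hi - y) * (y - lo))) :=
      mul_nonneg hA (mul_nonneg hd.le (mul_nonneg (by linarith) (by linarith)))
    nlinarith
  exact le_of_mul_le_mul_left key hd

theorem numA (m z phi y : ℝ) (hm0 : 0 ≤ m) (hm : m ≤ 23 / 625 * z) (hphi : phi ≤ 2 / 125 * z)
    (hz : 3 / 20 ≤ z) (hz' : z ≤ 3 / 10) (hy1 : 1 / 4 - 3 * m ≤ y) (hy2 : y ≤ 1 / 4 + m) :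
    2 / 3 * (1 - y) ^ 2 + z * (4 * y + 4 * m - 1) + (y - z) ^ 2 + phi ≤ 399 / 1000 := by
  have := convex_quad (5 / 3) (2 * z - 4 / 3) (2 / 3 + 4 * m * z - z + z ^ 2 + phi)
    (1 / 4 - 3 * m) (1 / 4 + m) y (399 / 1000) (by norm_num) hy1 hy2
    (by
      have := numA2 m z phi hm0 hm hphi hz hz'
      nlinarith)
    (by
      have := numA1 m z phi hm0 hm hphi hz hz'
      nlinarith)
  nlinarith

/-- The algebra of case A. -/
theorem algA (y a z c m Bq w : ℝ) (hc : 0 ≤ c) (hw : 2 * a - y ≤ w)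
    (hB : Bq ≤ 2 / 3 * (1 - y) ^ 2 + 2 * y * (y - a) - 3 / 2 * (y - a) ^ 2
      - z * (2 - 4 * y - 4 * (1 / 4 + m)) - 2 * (y - a) * z + 2 * z * c - 3 * c ^ 2
      - 2 * w * c) :
    Bq ≤ 2 / 3 * (1 - y) ^ 2 + z * (4 * y + 4 * m - 1) + (y - z) ^ 2 := by
  have h1 : (2 * a - y) * c ≤ w * c := mul_le_mul_of_nonneg_right hw hc
  nlinarith [sq_nonneg ((y - z) - ((y - a) - c)), sq_nonneg ((y - a) - 2 * c)]

end T9

theorem VL (q : Fin 4 → Fin 4 → ℝ) (hq : VM q) (phi m : ℝ) (hM : ∀ i, rs q i ≤ 1 / 4 + m)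
    (hm0 : 0 ≤ m) (hm : m ≤ 23 / 10 * phi) (i : Fin 4) (zz : ℝ) (hzz : zz = 1 - rs q i - cs q i)
    (hphi : phi ≤ 2 / 125 * zz) (hz : 3 / 20 ≤ zz) (hmin : ∀ k, zz ≤ 1 - rs q k - cs q k) :
    B q + phi < 2 / 5 := by
  have hm' : m ≤ 23 / 625 * zz := by linarith
  have hsum := hq.sum
  rw [Fin.sum_univ_four] at hsum
  have hM0 := hM 0
  have hM1 := hM 1
  have hM2 := hM 2
  have hM3 := hM 3
  rcases le_total zz (3 / 10) with hA | hA
  · obtain ⟨c, hc0, hc1, hB⟩ := HR hq (1 / 4 + m) hM i (rs q i) (mx (q i)) zz rfl rfl hzz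
    have h1 := T9.algA (rs q i) (mx (q i)) zz c m (B q) (max (2 * mx (q i) - rs q i) 0) hc0
      (le_max_left _ _) hB
    have hy1 : 1 / 4 - 3 * m ≤ rs q i := by
      fin_cases i <;> simp only [Fin.zero_eta, Fin.mk_one, Fin.reduceFinMk] <;> linarith
    have h2 := T9.numA m zz phi (rs q i) hm0 hm' hphi hz hA hy1 (hM i)
    linarith
  · have hB := B1 hq
    have hzs := zq_sum hq
    rw [Fin.sum_univ_four] at hB hzs
    have hk0 := hmin 0
    have hk1 := hmin 1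
    have hk2 := hmin 2
    have hk3 := hmin 3
    have hcs : ∀ k, 0 ≤ cs q k := fun k => Finset.sum_nonneg fun j _ => hq.nonneg j k
    have hc0 := hcs 0
    have hc1 := hcs 1
    have hc2 := hcs 2
    have hc3 := hcs 3
    have hzle : zz ≤ 1 / 2 := by linarith
    have hrs : ∀ k, 1 / 4 - 3 * m ≤ rs q k := by
      intro k
      fin_cases k <;> simp only [Fin.zero_eta, Fin.mk_one, Fin.reduceFinMk] <;> linarith
    have hsq : ∀ k, (rs q k - cs q k) ^ 2 ≤ 671 / 2500 * |rs q k - cs q k| := by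
      intro k
      rw [← sq_abs, sq]
      refine mul_le_mul_of_nonneg_right ?_ (abs_nonneg _)
      rw [abs_le]
      have := hrs k
      have := hmin k
      have := hM k
      have := hcs k
      constructor <;> linarith
    have key : 671 / 2500 / 4 * (|rs q 0 - cs q 0| + |rs q 1 - cs q 1| + |rs q 2 - cs q 2| +
        |rs q 3 - cs q 3|) + phi ≤ 2 / 5 - 1 / 3 - 1 / 1000 := by
      rcases le_total 0 (rs q 0 - cs q 0) with h0 | h0 <;>
      rcases le_total 0 (rs q 1 - cs q 1) with h1 | h1 <;>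
      rcases le_total 0 (rs q 2 - cs q 2) with h2 | h2 <;>
      rcases le_total 0 (rs q 3 - cs q 3) with h3 | h3 <;>
      simp only [abs_of_nonneg, abs_of_nonpos, h0, h1, h2, h3] <;> linarith
    have := hsq 0
    have := hsq 1
    have := hsq 2
    have := hsq 3
    linarith

end Pool.Agent.H190R2.P3
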