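import Pool.Agent.H190R2.P3.SF
import Pool.Agent.H190R2.P3.T6
import Pool.Agent.H190R2.P3.T8
import Pool.Agent.H190R2.P3.T9

/-! Task T10: a good partition of the whole graph. -/

set_option autoImplicit false
open Finset

namespace Pool.Agent.H190R2.P3

namespace T10

variable {V : Type} [Fintype V] {rel : V → V → Fin 3} {w : V → ℝ}

theorem wr_nonneg (i j : Fin 4) (r : Fin 3) : (0:ℝ) ≤ ((wr i j r : ℤ) : ℝ) := by
  unfold wr
  split_ifs <;> norm_num

/-- the sum of `zk` over the four classes -/
theorem zk_sum (hw : ∀ v, 0 ≤ w v) (h1 : ∑ v, w v = 1) (P : V → Fin 4) (v : V) :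
    ∑ k, zk rel w P v k = 2 := by
  have h2 : ∑ k, cs (q rel w P v) k = 1 := by
    have h3 := (VM_q rel w P hw h1 v).sum
    rw [← h3]
    unfold cs rs
    exact Finset.sum_comm
  have h3 := X_sum w P h1
  simp only [zk_eq rel w P h1 v]
  rw [Finset.sum_sub_distrib, Finset.sum_sub_distrib, h2, h3]
  simp
  norm_num

/-- splitting the wrong pairs -/
theorem split (hs : ∀ x y, rel y x = - rel x y) (hw : ∀ v, 0 ≤ w v) (K P : V → Fin 4)
    (T : V → Bool) (hP : ∀ x, T x = false → P x = K x) (Z : ℝ)
    (hZ : ∀ v, T v = true → z rel w P v ≤ Z) :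
    Phi rel w P ≤ fT rel w K T + 2 * mT w T * Z := by
  let g : V → V → ℝ := fun x y => w x * w y * ((wr (P x) (P y) (rel x y) : ℤ) : ℝ)
  have g0 : ∀ x y, 0 ≤ g x y := fun x y =>
    mul_nonneg (mul_nonneg (hw x) (hw y)) (wr_nonneg _ _ _)
  have gs : ∀ x y, g x y = g y x := by
    intro x y
    simp only [g]
    rw [wr_symm (P x) (P y), hs x y]
    ring
  have h1 : ∀ x y, g x y ≤ (if T x = false ∧ T y = false then
      w x * w y * ((wr (K x) (K y) (rel x y) : ℤ) : ℝ) else 0) +
      ((if T x = true then g x y else 0) + (if T y = true then g y x else 0)) := by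
    intro x y
    rw [← gs x y]
    cases hx : T x <;> cases hy : T y
    · simp only [and_self, if_true, Bool.false_eq_true, if_false, add_zero]
      simp only [g]
      rw [hP x hx, hP y hy]
    · simp
    · simp
    · simp only [if_true, Bool.true_eq_false, false_and, if_false, zero_add]
      linarith [g0 x y]
  have h2 : ∑ x, ∑ y, (if T x = true then g x y else 0) ≤ mT w T * Z := by
    unfold mT
    rw [Finset.sum_mul]
    refine Finset.sum_le_sum fun x _ => ?_
    cases hx : T x
    · simp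
    · simp only [if_true]
      have h3 : ∑ y, g x y = w x * z rel w P x := by
        unfold z zk
        rw [Finset.mul_sum]
        exact Finset.sum_congr rfl fun y _ => by simp only [g]; ring
      rw [h3]
      exact mul_le_mul_of_nonneg_left (hZ x hx) (hw x)
  have h3 : ∑ x, ∑ y, (if T y = true then g y x else 0) ≤ mT w T * Z := by
    rw [Finset.sum_comm]
    exact h2
  have h4 : Phi rel w P = ∑ x, ∑ y, g x y := rfl
  rw [h4]
  calc ∑ x, ∑ y, g x y ≤ ∑ x, ∑ y, ((if T x = false ∧ T y = false then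
      w x * w y * ((wr (K x) (K y) (rel x y) : ℤ) : ℝ) else 0) +
      ((if T x = true then g x y else 0) + (if T y = true then g y x else 0))) :=
        Finset.sum_le_sum fun x _ => Finset.sum_le_sum fun y _ => h1 x y
    _ = fT rel w K T + (∑ x, ∑ y, (if T x = true then g x y else 0) +
        ∑ x, ∑ y, (if T y = true then g y x else 0)) := by
        simp only [Finset.sum_add_distrib]
        rfl
    _ ≤ fT rel w K T + 2 * mT w T * Z := by linarith

theorem fT_nonneg (hw : ∀ v, 0 ≤ w v) (K : V → Fin 4) (T : V → Bool) : 0 ≤ fT rel w K T := by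
  unfold fT
  refine Finset.sum_nonneg fun x _ => Finset.sum_nonneg fun y _ => ?_
  split_ifs
  · exact mul_nonneg (mul_nonneg (hw x) (hw y)) (wr_nonneg _ _ _)
  · exact le_rfl

theorem mT_nonneg (hw : ∀ v, 0 ≤ w v) (T : V → Bool) : 0 ≤ mT w T := by
  unfold mT
  refine Finset.sum_nonneg fun x _ => ?_
  split_ifs
  · exact hw x
  · exact le_rfl

theorem X_le (hw : ∀ v, 0 ≤ w v) (K P : V → Fin 4) (T : V → Bool)
    (hP : ∀ x, T x = false → P x = K x) (i : Fin 4) :
    X w P i ≤ (∑ x, if T x = false ∧ K x = i then w x else 0) + mT w T := by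
  unfold X mT
  rw [← Finset.sum_add_distrib]
  refine Finset.sum_le_sum fun x _ => ?_
  cases hx : T x
  · rw [hP x hx]
    simp
  · simp only [Bool.true_eq_false, false_and, if_false, if_true, zero_add]
    split_ifs
    · exact le_rfl
    · exact hw x

/-- the bootstrap -/
theorem boot {m φ : ℝ} (h0 : 0 ≤ m) (hm : m ≤ 533 / 1000) (hφ : φ ≤ 77 / 10000)
    (h : m * (4 / 5 - 16 / 15 * m - 16 * φ) ≤ 3 / 2 * φ) : m ≤ 23 / 10 * φ := by
  have h1 : m ≤ 12 / 100 := by nlinarith
  have h2 : m ≤ 3 / 100 := by nlinarith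
  have h3 : m ≤ 185 / 10000 := by nlinarith
  nlinarith

end T10

open T10 in
theorem P0' {V : Type} [Fintype V] {rel : V → V → Fin 3} {w : V → ℝ} (O : Opt rel w)
    (K : V → Fin 4) (T : V → Bool) (hf : fT rel w K T + 3 / 10 * mT w T ≤ 23 / 10000)
    (hX : ∀ i : Fin 4, (∑ x, if T x = false ∧ K x = i then w x else 0) ≤ 31 / 40) :
    ∃ P : V → Fin 4, Phi rel w P ≤ 23 / 10000 ∧ ∀ i, X w P i ≤ 79 / 100 := by
  classical
  have hw : ∀ v, 0 ≤ w v := fun v => (O.pos v).le
  obtain ⟨P, hPm, hmin⟩ := Finset.exists_min_image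
    (univ.filter (fun P : V → Fin 4 => ∀ x, T x = false → P x = K x)) (fun P => Phi rel w P)
    ⟨K, by simp⟩
  have hP : ∀ x, T x = false → P x = K x := (Finset.mem_filter.1 hPm).2
  have ht0 := mT_nonneg hw T
  have hf0 := fT_nonneg (rel := rel) hw K T
  -- (1)
  have hz : ∀ v, T v = true → ∀ k, z rel w P v ≤ zk rel w P v k := by
    intro v hv k
    have h1 := hmin (Function.update P v k) (by
      rw [Finset.mem_filter]
      refine ⟨Finset.mem_univ _, fun x hx => ?_⟩
      have hxv : x ≠ v := by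
        rintro rfl
        rw [hv] at hx
        exact absurd hx (by decide)
      rw [Function.update_of_ne hxv]
      exact hP x hx)
    have h2 := Phi_update rel w P O.skew hw v k
    have h3 : 0 ≤ 2 * w v * (zk rel w P v k - z rel w P v) := by linarith
    have h4 : 0 < 2 * w v := by linarith [O.pos v]
    have h5 := nonneg_of_mul_nonneg_right h3 h4
    linarith
  have hz2 : ∀ v, T v = true → z rel w P v ≤ 1 / 2 := by
    intro v hv
    have h1 := zk_sum (rel := rel) hw O.sum P v
    rw [Fin.sum_univ_four] at h1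
    have := hz v hv
    linarith [this 0, this 1, this 2, this 3]
  -- (2)
  have hsp := split (rel := rel) O.skew hw K P T hP
  have hPhi1 : Phi rel w P ≤ 77 / 10000 := by
    have := hsp (1 / 2) hz2
    nlinarith
  have hPhi0 := Phi_nonneg rel w P hw
  -- (3)
  have hXi : ∀ i, X w P i ≤ 783 / 1000 := by
    intro i
    have h1 := X_le hw K P T hP i
    have h2 := hX i
    linarith
  obtain ⟨i, -, hi⟩ := Finset.exists_max_image (univ : Finset (Fin 4)) (fun i => X w P i)
    ⟨0, Finset.mem_univ _⟩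
  have hXs := X_sum w P O.sum
  obtain ⟨m, hm⟩ : ∃ m, m = X w P i - 1 / 4 := ⟨_, rfl⟩
  have hm0 : 0 ≤ m := by
    rw [Fin.sum_univ_four] at hXs
    linarith [hi 0 (Finset.mem_univ _), hi 1 (Finset.mem_univ _), hi 2 (Finset.mem_univ _),
      hi 3 (Finset.mem_univ _)]
  have hm1 : m ≤ 533 / 1000 := by linarith [hXi i]
  have hM : ∀ j, X w P j ≤ 1 / 4 + m := fun j => by linarith [hi j (Finset.mem_univ _)]
  have hCA := CA O P m (3 / 4) i (by linarith) hM (by
    intro v hv
    have h1 := zk_eq rel w P O.sum v i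
    have h2 : 0 ≤ cs (q rel w P v) i :=
      Finset.sum_nonneg fun j _ => (VM_q rel w P hw O.sum v).nonneg j i
    have h3 : z rel w P v = zk rel w P v i := by
      unfold z
      rw [hv]
    rw [h3, h1]
    linarith)
  have hm2 : m ≤ 23 / 10 * Phi rel w P := by
    refine boot hm0 hm1 hPhi1 (hCA.trans (le_of_eq ?_))
    ring
  refine ⟨P, ?_, fun i => (hXi i).trans (by norm_num)⟩
  -- (4)
  by_cases hsm : ∀ v, T v = true → z rel w P v ≤ 3 / 20
  · have := hsp (3 / 20) hsm
    linarith
  · exfalso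
    push Not at hsm
    obtain ⟨v0, hv0, hz0⟩ := hsm
    obtain ⟨v, hv, hvmax⟩ := Finset.exists_max_image (univ.filter (fun v => T v = true))
      (fun v => z rel w P v) ⟨v0, by simp [hv0]⟩
    have hvT : T v = true := (Finset.mem_filter.1 hv).2
    have hzz : 3 / 20 < z rel w P v := lt_of_lt_of_le hz0 (hvmax v0 (by simp [hv0]))
    have h1 := hsp (z rel w P v) (fun x hx => hvmax x (by simp [hx]))
    have hphi : Phi rel w P ≤ 2 / 125 * z rel w P v := by
      nlinarith [mul_nonneg hf0 (by linarith : (0:ℝ) ≤ z rel w P v - 3 / 20),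
        mul_le_mul_of_nonneg_right hf (by linarith : (0:ℝ) ≤ z rel w P v)]
    have hzk : ∀ k, zk rel w P v k = 1 - rs (q rel w P v) k - cs (q rel w P v) k := by
      intro k
      rw [zk_eq rel w P O.sum v k, rs_q]
    have h2 := VL (q rel w P v) (VM_q rel w P hw O.sum v) (Phi rel w P) m
      (fun j => by rw [rs_q]; exact hM j) hm0 hm2 (P v) (z rel w P v) (hzk (P v)) hphi hzz.le
      (fun k => by rw [← hzk k]; exact hz v hvT k)
    have h3 := V1 rel w P hw v
    have h4 := O.lag v
    have h5 := O.big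
    linarith

end Pool.Agent.H190R2.P3
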