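import Pool.Agent.H190R2.P3.T6
import Pool.Agent.H190R2.P3.T8
import Pool.Agent.H190R2.P3.T9

/-! Task T11 (an optimal partition). -/

set_option autoImplicit false
open Finset

namespace Pool.Agent.H190R2.P3

namespace T11

theorem h3_le : ∀ d e f : Fin 3, h3 d e f ≤ if d = e then 0 else 1 := by decide

theorem h3_left : ∀ e : Fin 3, h3 0 e e = 0 := by decide

theorem h3_right : ∀ d : Fin 3, h3 d 0 (-d) = 0 := by decide

theorem neg_self : ∀ d : Fin 3, d = -d → d = 0 := by decide

section
variable {V : Type} [Fintype V] {rel : V → V → Fin 3} {w : V → ℝ}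

theorem rel_self (hs : ∀ x y, rel y x = - rel x y) (v : V) : rel v v = 0 := neg_self _ (hs v v)

theorem H_le (hs : ∀ x y, rel y x = - rel x y) (v x y : V) :
    H rel v x y ≤ if rel v x = rel v y then 0 else 1 := by
  unfold H
  have := h3_le (rel v x) (rel v y) (rel x y)
  by_cases h : rel v x = rel v y
  · rw [if_pos h] at this ⊢
    exact_mod_cast this
  · rw [if_neg h] at this ⊢
    exact_mod_cast this

theorem H_left (hs : ∀ x y, rel y x = - rel x y) (v y : V) : H rel v v y = 0 := by
  unfold H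
  rw [rel_self hs v, h3_left]
  simp

theorem H_right (hs : ∀ x y, rel y x = - rel x y) (v x : V) : H rel v x v = 0 := by
  unfold H
  rw [rel_self hs v, hs v x, h3_right]
  simp

open Classical in
/-- a vertex has weight at most `113 / 500` -/
theorem w_le (O : Opt rel w) (v : V) : w v ≤ 113 / 500 := by
  have hL : 2 / 5 < L rel w v := by rw [O.lag v]; exact O.big
  obtain ⟨u, hu⟩ : ∃ u : V → ℝ, u = fun x => if x = v then 0 else w x := ⟨_, rfl⟩
  have hu0 : ∀ x, 0 ≤ u x := by
    intro x
    rw [hu]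
    dsimp only
    split_ifs
    · exact le_rfl
    · exact (O.pos x).le
  obtain ⟨f, hf⟩ : ∃ f : Fin 3 → V → ℝ, f = fun c x => if rel v x = c then u x else 0 := ⟨_, rfl⟩
  have hpt : ∀ x y, w x * w y * H rel v x y ≤ u x * u y - ∑ c, f c x * f c y := by
    intro x y
    have hsum : ∑ c, f c x * f c y = if rel v x = rel v y then u x * u y else 0 := by
      rw [hf]
      dsimp only
      rw [Finset.sum_eq_single (rel v x)]
      · rw [if_pos rfl]
        by_cases h : rel v x = rel v y
        · rw [if_pos h.symm, if_pos h]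
        · rw [if_neg (fun h' => h h'.symm), if_neg h, mul_zero]
      · intro c _ hc
        rw [if_neg (fun h => hc h.symm), zero_mul]
      · intro h
        exact absurd (Finset.mem_univ _) h
    rw [hsum]
    by_cases hx : x = v
    · subst hx
      rw [H_left O.skew, mul_zero]
      have : u x = 0 := by rw [hu]; simp
      rw [this]
      split_ifs <;> simp
    by_cases hy : y = v
    · subst hy
      rw [H_right O.skew, mul_zero]
      have : u y = 0 := by rw [hu]; simp
      rw [this]
      split_ifs <;> simp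
    have h1 : u x = w x := by rw [hu]; simp [hx]
    have h2 : u y = w y := by rw [hu]; simp [hy]
    rw [h1, h2]
    have h3 := H_le O.skew v x y
    have h4 : 0 < w x * w y := mul_pos (O.pos x) (O.pos y)
    split_ifs with h
    · rw [if_pos h] at h3
      nlinarith
    · rw [if_neg h] at h3
      nlinarith
  have hLle : L rel w v ≤ (∑ x, u x) ^ 2 - ∑ c, (∑ x, f c x) ^ 2 := by
    have e1 : (∑ x, u x) ^ 2 - ∑ c, (∑ x, f c x) ^ 2 =
        ∑ x, ∑ y, (u x * u y - ∑ c, f c x * f c y) := by
      simp only [Finset.sum_sub_distrib]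
      congr 1
      · rw [pow_two, Finset.sum_mul_sum]
      · have : ∀ x, ∑ y, ∑ c, f c x * f c y = ∑ c, ∑ y, f c x * f c y := fun x =>
          Finset.sum_comm
        simp only [this]
        rw [Finset.sum_comm]
        refine Finset.sum_congr rfl fun c _ => ?_
        rw [pow_two, Finset.sum_mul_sum]
    rw [e1]
    unfold L
    exact Finset.sum_le_sum fun x _ => Finset.sum_le_sum fun y _ => hpt x y
  have hsu : ∑ x, u x = 1 - w v := by
    have : ∑ x, w x = ∑ x, u x + w v := by
      have h5 : ∀ x, w x = u x + if x = v then w v else 0 := by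
        intro x
        rw [hu]
        dsimp only
        split_ifs with h
        · rw [h, zero_add]
        · rw [add_zero]
      rw [Finset.sum_congr rfl fun x _ => h5 x, Finset.sum_add_distrib]
      congr 1
      rw [Finset.sum_ite_eq' Finset.univ v (fun _ => w v)]
      simp
    rw [O.sum] at this
    linarith
  have hsf : ∑ c, ∑ x, f c x = 1 - w v := by
    rw [Finset.sum_comm, ← hsu]
    refine Finset.sum_congr rfl fun x _ => ?_
    rw [hf]
    dsimp only
    rw [Finset.sum_eq_single (rel v x)]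
    · rw [if_pos rfl]
    · intro c _ hc
      rw [if_neg (fun h => hc h.symm)]
    · intro h
      exact absurd (Finset.mem_univ _) h
  have hw1 : w v ≤ 1 := by
    rw [← O.sum]
    exact Finset.single_le_sum (fun x _ => (O.pos x).le) (Finset.mem_univ v)
  rw [hsu] at hLle
  rw [Fin.sum_univ_three] at hLle hsf
  by_contra hcon
  push Not at hcon
  have h6 : 3 * ((∑ x, f 0 x) ^ 2 + (∑ x, f 1 x) ^ 2 + (∑ x, f 2 x) ^ 2) ≥ (1 - w v) ^ 2 := by
    rw [← hsf]
    nlinarith [sq_nonneg (∑ x, f 0 x - ∑ x, f 1 x), sq_nonneg (∑ x, f 0 x - ∑ x, f 2 x),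
      sq_nonneg (∑ x, f 1 x - ∑ x, f 2 x)]
  nlinarith

/-- classes after moving one vertex -/
theorem X_update [DecidableEq V] (hw : ∀ v, 0 ≤ w v) (P : V → Fin 4) (v : V) (k i : Fin 4) :
    X w (Function.update P v k) i ≤ X w P i + w v := by
  unfold X
  have h1 : w v = ∑ x, if x = v then w v else 0 := by
    rw [Finset.sum_ite_eq' Finset.univ v (fun _ => w v)]
    simp
  rw [h1, ← Finset.sum_add_distrib]
  refine Finset.sum_le_sum fun x _ => ?_
  by_cases hx : x = v
  · subst hx
    rw [if_pos rfl]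
    have := hw x
    split_ifs <;> linarith
  · rw [Function.update_of_ne hx, if_neg hx, add_zero]

theorem z_le (O : Opt rel w) (P : V → Fin 4) (v : V) : z rel w P v ≤ 1 - X w P (P v) := by
  unfold z
  rw [zk_eq rel w P O.sum v (P v)]
  have : 0 ≤ cs (q rel w P v) (P v) :=
    Finset.sum_nonneg fun i _ => (VM_q rel w P (fun v => (O.pos v).le) O.sum v).nonneg i _
  linarith

/-- the largest class -/
theorem exists_max (P : V → Fin 4) : ∃ i, ∀ j, X w P j ≤ X w P i := by
  obtain ⟨i, -, hi⟩ := Finset.exists_max_image Finset.univ (X w P) ⟨0, Finset.mem_univ _⟩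
  exact ⟨i, fun j => hi j (Finset.mem_univ j)⟩

theorem step1 (O : Opt rel w) (P : V → Fin 4) (h1 : Phi rel w P ≤ 23 / 10000)
    (h2 : ∀ i, X w P i ≤ 79 / 100) :
    ∃ m : ℝ, 0 ≤ m ∧ m ≤ 47 / 10000 ∧ m ≤ 23 / 10 * Phi rel w P ∧
      (∀ j, X w P j ≤ 1 / 4 + m) ∧ ∃ i, X w P i = 1 / 4 + m := by
  obtain ⟨i, hi⟩ := exists_max (w := w) P
  have hPhi := Phi_nonneg rel w P (fun v => (O.pos v).le)
  obtain ⟨m, hm⟩ : ∃ m : ℝ, m = X w P i - 1 / 4 := ⟨_, rfl⟩
  have hXi : X w P i = 1 / 4 + m := by rw [hm]; ring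
  have hsum := X_sum w P O.sum
  rw [Fin.sum_univ_four] at hsum
  have hm0 : 0 ≤ m := by
    have a0 := hi 0
    have a1 := hi 1
    have a2 := hi 2
    have a3 := hi 3
    linarith
  have hm1 : m ≤ 54 / 100 := by
    have := h2 i
    linarith
  have hCA := CA O P m (3 / 4) i hXi (fun j => by rw [← hXi]; exact hi j) (fun v hv => by
    have := z_le O P v
    rw [hv] at this
    linarith)
  have hb1 : m ≤ 185 / 10000 := by
    by_contra hcon
    push Not at hcon
    have : 187 / 1000 ≤ 4 / 5 - 16 / 15 * m - 16 * Phi rel w P := by linarith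
    have h3 : m * (187 / 1000) ≤ m * (4 / 5 - 16 / 15 * m - 16 * Phi rel w P) :=
      mul_le_mul_of_nonneg_left this hm0
    linarith
  have hb2 : 743 / 1000 ≤ 4 / 5 - 16 / 15 * m - 16 * Phi rel w P := by linarith
  have hb3 : m * (743 / 1000) ≤ m * (4 / 5 - 16 / 15 * m - 16 * Phi rel w P) :=
    mul_le_mul_of_nonneg_left hb2 hm0
  refine ⟨m, hm0, by linarith, by linarith, fun j => by rw [← hXi]; exact hi j, i, hXi⟩

end

end T11

theorem Pstar {V : Type} [Fintype V] {rel : V → V → Fin 3} {w : V → ℝ} (O : Opt rel w)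
    (h : ∃ P : V → Fin 4, Phi rel w P ≤ 23 / 10000 ∧ ∀ i, X w P i ≤ 79 / 100) :
    ∃ P : V → Fin 4, Phi rel w P ≤ 23 / 10000 ∧ (∀ i, X w P i ≤ 1 / 4 + 7 / 2000) ∧
      ∀ v, z rel w P v ≤ 3 / 20 := by
  classical
  have hw : ∀ v, 0 ≤ w v := fun v => (O.pos v).le
  obtain ⟨P₀, hP₀⟩ := h
  obtain ⟨P, hP, hmin⟩ := Finset.exists_min_image
    (Finset.univ.filter fun P : V → Fin 4 => Phi rel w P ≤ 23 / 10000 ∧ ∀ i, X w P i ≤ 79 / 100)
    (fun P => Phi rel w P) ⟨P₀, by simpa using hP₀⟩
  simp only [Finset.mem_filter, Finset.mem_univ, true_and] at hP hmin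
  obtain ⟨m, hm0, hm1, hm2, hm3, i, hi⟩ := T11.step1 O P hP.1 hP.2
  have hopt : ∀ v k, z rel w P v ≤ zk rel w P v k := by
    intro v k
    by_contra hcon
    push Not at hcon
    have h1 := Phi_update rel w P O.skew hw v k
    have h2 : 2 * w v * (zk rel w P v k - z rel w P v) < 0 :=
      mul_neg_of_pos_of_neg (by linarith [O.pos v]) (by linarith)
    have h3 := hmin (Function.update P v k) ⟨by linarith [hP.1], fun j => by
      have a1 := T11.X_update hw P v k j
      have a2 := hm3 j
      have a3 := T11.w_le O v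
      linarith⟩
    linarith
  have hz : ∀ v, z rel w P v ≤ 3 / 20 := by
    intro v
    by_contra hcon
    push Not at hcon
    have h1 := VL (q rel w P v) (VM_q rel w P hw O.sum v) (Phi rel w P) m
      (fun j => by rw [rs_q]; exact hm3 j) hm0 hm2 (P v) (z rel w P v)
      (by unfold z; rw [zk_eq rel w P O.sum v (P v), rs_q])
      (by linarith [hP.1]) hcon.le (fun k => by
        have := hopt v k
        rw [zk_eq rel w P O.sum v k] at this
        rw [rs_q]
        exact this)
    have h2 := V1 rel w P hw v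
    have h3 := O.big
    rw [O.lag v] at h2
    linarith
  have hCA := CA O P m (3 / 20) i hi hm3 (fun v _ => hz v)
  have hfac : 758 / 1000 ≤ 4 / 5 - 16 / 15 * m - 16 * Phi rel w P := by linarith [hP.1]
  have h4 : m * (758 / 1000) ≤ m * (4 / 5 - 16 / 15 * m - 16 * Phi rel w P) :=
    mul_le_mul_of_nonneg_left hfac hm0
  refine ⟨P, hP.1, fun j => ?_, hz⟩
  have := hm3 j
  linarith [hP.1]

end Pool.Agent.H190R2.P3
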