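import Pool.Agent.H190R2.P3.Defs

/-! Task T12 (numeric). -/

set_option autoImplicit false
open Finset

namespace Pool.Agent.H190R2.P3

namespace T12

lemma caseA (d b : ℝ) (hd1 : -(21/2000) ≤ d) (hd2 : d ≤ 7/2000) :
    2 / 3 * (3/4 - d) ^ 2 + 2 * (1/4 + d) * b - 3 / 2 * b ^ 2
      + (4 * (d + 7/2000) - 2 * b) * (3/20) + (3/20) ^ 2 / 3 + 23/10000 ≤ 2 / 5 := by
  nlinarith [sq_nonneg (b - (1/5 + 2 * d) / 3), mul_nonneg (by linarith : (0:ℝ) ≤ d + 21/2000)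
    (by linarith : (0:ℝ) ≤ 7/2000 - d)]

lemma caseB1 (d b : ℝ) (hd1 : -(21/2000) ≤ d) (hd2 : d ≤ 7/2000) (hb : 0 ≤ b)
    (hb2 : b ≤ 5 * d + 21/2000) :
    2 / 3 * (3/4 - d) ^ 2 + 2 * (1/4 + d) * b - 3 / 2 * b ^ 2 + 23/10000 ≤ 2 / 5 := by
  nlinarith [mul_nonneg (by linarith : (0:ℝ) ≤ d + 21/2000)
    (by linarith : (0:ℝ) ≤ 7/2000 - d), mul_nonneg hb (by linarith : (0:ℝ) ≤ 7/2000 - d),
    sq_nonneg b]

lemma caseB2 (d t : ℝ) (hd1 : -(21/2000) ≤ d) (hd2 : d ≤ 7/2000) :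
    2 / 3 * (3/4 - d) ^ 2 + 2 * (1/4 + d) * (5 * d + 5/6 * t + 21/2000)
      - 3 / 2 * (5 * d + 5/6 * t + 21/2000) ^ 2
      + (4 * (d + 7/2000) - 2 * (5 * d + 5/6 * t + 21/2000)) * t + t ^ 2 / 3 + 23/10000
      ≤ 2 / 5 := by
  nlinarith [sq_nonneg (t - (383417/1000000 - 101/6 * d) / (19/4)),
    mul_nonneg (by linarith : (0:ℝ) ≤ d + 21/2000) (by linarith : (0:ℝ) ≤ 7/2000 - d)]

end T12

open T12 in
theorem NB (y b zz phi : ℝ) (hy : y ≤ 1 / 4 + 7 / 2000) (hy' : 1 / 4 - 21 / 2000 ≤ y)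
    (hz : 0 ≤ zz) (hz' : zz ≤ 3 / 20) (hb : 0 ≤ b) (hb' : 3 * b ≤ 2 * y)
    (hphi : phi ≤ 23 / 10000)
    (h : 2 / 5 < 2 / 3 * (1 - y) ^ 2 + 2 * y * b - 3 / 2 * b ^ 2
      - zz * (2 - 4 * y - 4 * (1 / 4 + 7 / 2000)) - 2 * b * zz + zz ^ 2 / 3 + phi) :
    (y - b) + zz + y - 1 / 2 - zz / 6 ≤ - (21 / 2000) - 3 * (y - 1 / 4) := by
  by_contra hcon
  push Not at hcon
  obtain ⟨d, rfl⟩ : ∃ d, y = 1/4 + d := ⟨y - 1/4, by ring⟩
  have hc : b < 5 * d + 5/6 * zz + 21/2000 := by linarith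
  have hd1 : -(21/2000) ≤ d := by linarith
  have hd2 : d ≤ 7/2000 := by linarith
  have h2 : 2 / 5 < 2 / 3 * (3/4 - d) ^ 2 + 2 * (1/4 + d) * b - 3 / 2 * b ^ 2
      + (4 * (d + 7/2000) - 2 * b) * zz + zz ^ 2 / 3 + 23/10000 := by
    have e : (1:ℝ) - (1/4 + d) = 3/4 - d := by ring
    rw [e] at h
    nlinarith
  by_cases hs : 0 ≤ (4 * (d + 7/2000) - 2 * b) + (zz + 3/20) / 3
  · have e1 : 0 ≤ (3/20 - zz) * ((4 * (d + 7/2000) - 2 * b) + (zz + 3/20) / 3) :=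
      mul_nonneg (by linarith) hs
    have := caseA d b hd1 hd2
    nlinarith
  · push Not at hs
    by_cases hb2 : b ≤ 5 * d + 21/2000
    · have := caseB1 d b hd1 hd2 hb hb2
      have e1 : zz * ((4 * (d + 7/2000) - 2 * b) + zz / 3) ≤ 0 := by
        apply mul_nonpos_of_nonneg_of_nonpos hz
        linarith
      nlinarith
    · push Not at hb2
      obtain ⟨t, ht⟩ : ∃ t, b = 5 * d + 5/6 * t + 21/2000 :=
        ⟨6/5 * (b - 5 * d - 21/2000), by ring⟩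
      have ht0 : 0 < t := by linarith
      have htz : t < zz := by linarith
      have := caseB2 d t hd1 hd2
      rw [← ht] at this
      have e1 : (zz - t) * ((4 * (d + 7/2000) - 2 * b) + (t + zz) / 3) ≤ 0 := by
        apply mul_nonpos_of_nonneg_of_nonpos (by linarith)
        linarith
      nlinarith

end Pool.Agent.H190R2.P3
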