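import Pool.Agent.H190R2.P3.Defs

/-! Task T13 (counting bound for a partition). -/

set_option autoImplicit false
open Finset

namespace Pool.Agent.H190R2.P3

/-- third elementary symmetric function of the class weights -/
noncomputable def e3 (y : Fin 4 → ℝ) : ℝ :=
  y 0 * y 1 * y 2 + y 0 * y 1 * y 3 + y 0 * y 2 * y 3 + y 1 * y 2 * y 3

namespace T13

def ind (p : Prop) [Decidable p] : ℤ := if p then 1 else 0

def R2 (i j k : Fin 4) (d e f : Fin 3) : ℤ :=
  2 * ind (i ≠ j ∧ i ≠ k ∧ j ≠ k) + 2 * ind (i = j ∧ i = k) * h3 d e f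
    + 6 * wr i j d * (2 * ind (k = i ∧ vt k e = vt j d) + 2 * ind (k = i) - 1 + 2 * wr i k e
      - ind (k = j) * wr i k e)

set_option maxRecDepth 100000 in
lemma point : ∀ i j k : Fin 4, ∀ d e f : Fin 3, 12 * h3 d e f ≤ R2 i j k d e f
    + R2 j i k (-d) f e + R2 i k j e d (-f) + R2 k i j (-e) (-f) d + R2 j k i f (-d) (-e)
    + R2 k j i (-f) (-e) (-d) := by decide +kernel

section
variable {α : Type} [Fintype α]

lemma s1 (f : α → α → α → ℝ) : ∑ a, ∑ b, ∑ c, f b a c = ∑ a, ∑ b, ∑ c, f a b c :=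
  Finset.sum_comm

lemma s2 (f : α → α → α → ℝ) : ∑ a, ∑ b, ∑ c, f a c b = ∑ a, ∑ b, ∑ c, f a b c :=
  Finset.sum_congr rfl fun _ _ => Finset.sum_comm

lemma s3 (f : α → α → α → ℝ) : ∑ a, ∑ b, ∑ c, f c a b = ∑ a, ∑ b, ∑ c, f a b c :=
  (s2 (fun a b c => f b a c)).trans (s1 f)

lemma s4 (f : α → α → α → ℝ) : ∑ a, ∑ b, ∑ c, f c b a = ∑ a, ∑ b, ∑ c, f a b c :=
  (s1 (fun a b c => f c a b)).trans (s3 f)

lemma s5 (f : α → α → α → ℝ) : ∑ a, ∑ b, ∑ c, f b c a = ∑ a, ∑ b, ∑ c, f a b c :=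
  (s2 (fun a b c => f c b a)).trans (s4 f)
end

lemma le_mx (f : Fin 4 → ℝ) (k : Fin 4) : f k ≤ mx f := by
  unfold mx
  fin_cases k <;> simp

variable {V : Type} [Fintype V] {rel : V → V → Fin 3} {w : V → ℝ}

lemma one (P : V → Fin 4) (g : Fin 4 → ℝ) : ∑ x, w x * g (P x) = ∑ i, X w P i * g i := by
  unfold X
  simp_rw [Finset.sum_mul]
  rw [Finset.sum_comm]
  refine Finset.sum_congr rfl fun x _ => ?_
  simp [ite_mul]

lemma partA (P : V → Fin 4) :
    ∑ x, ∑ y, ∑ t, w x * w y * w t * ((ind (P x ≠ P y ∧ P x ≠ P t ∧ P y ≠ P t) : ℤ) : ℝ)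
      = 6 * e3 (X w P) := by
  have h1 : ∀ x y, ∑ t, w x * w y * w t * ((ind (P x ≠ P y ∧ P x ≠ P t ∧ P y ≠ P t) : ℤ) : ℝ)
      = w x * (w y * ∑ k, X w P k * ((ind (P x ≠ P y ∧ P x ≠ k ∧ P y ≠ k) : ℤ) : ℝ)) := by
    intro x y
    rw [← one P (fun k => ((ind (P x ≠ P y ∧ P x ≠ k ∧ P y ≠ k) : ℤ) : ℝ)), Finset.mul_sum,
      Finset.mul_sum]
    exact Finset.sum_congr rfl fun t _ => by ring
  simp_rw [h1]
  have h2 : ∀ x, ∑ y, w x * (w y * ∑ k, X w P k * ((ind (P x ≠ P y ∧ P x ≠ k ∧ P y ≠ k) : ℤ) : ℝ))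
      = w x * ∑ j, X w P j * ∑ k, X w P k * ((ind (P x ≠ j ∧ P x ≠ k ∧ j ≠ k) : ℤ) : ℝ) := by
    intro x
    rw [← one P (fun j => ∑ k, X w P k * ((ind (P x ≠ j ∧ P x ≠ k ∧ j ≠ k) : ℤ) : ℝ)),
      Finset.mul_sum]
  simp_rw [h2]
  rw [one P (fun i => ∑ j, X w P j * ∑ k, X w P k * ((ind (i ≠ j ∧ i ≠ k ∧ j ≠ k) : ℤ) : ℝ))]
  simp only [Fin.sum_univ_four, ind, e3]
  simp
  ring

lemma partB (P : V → Fin 4) :
    ∑ x, ∑ y, ∑ t, w x * w y * w t * (((ind (P x = P y ∧ P x = P t) : ℤ) : ℝ) * H rel x y t)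
      = ∑ i, F rel (wi w P i) := by
  unfold F
  conv_rhs => rw [Finset.sum_comm]
  refine Finset.sum_congr rfl fun x _ => ?_
  conv_rhs => rw [Finset.sum_comm]
  refine Finset.sum_congr rfl fun y _ => ?_
  conv_rhs => rw [Finset.sum_comm]
  refine Finset.sum_congr rfl fun t _ => ?_
  rw [← Finset.sum_mul]
  have : ∑ i, wi w P i x * wi w P i y * wi w P i t
      = w x * w y * w t * ((ind (P x = P y ∧ P x = P t) : ℤ) : ℝ) := by
    rw [Finset.sum_eq_single (P x)]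
    · unfold wi ind
      by_cases h1 : P y = P x
      · by_cases h2 : P t = P x
        · simp [h1, h2]
        · simp [h1, h2, Ne.symm h2]
      · have : ¬ (P x = P y) := fun h => h1 h.symm
        simp [h1, this]
    · intro i _ hi
      unfold wi
      rw [if_neg (Ne.symm hi)]; ring
    · simp
  rw [this]; ring

lemma inner (h1 : ∑ v, w v = 1) (P : V → Fin 4) (x y : V) :
    ∑ t, w t * ((2 * ind (P t = P x ∧ vt (P t) (rel x t) = vt (P y) (rel x y)) + 2 * ind (P t = P x)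
      - 1 + 2 * wr (P x) (P t) (rel x t) - ind (P t = P y) * wr (P x) (P t) (rel x t) : ℤ) : ℝ)
      = 2 * q rel w P x (P x) (vt (P y) (rel x y)) + 2 * X w P (P x) - 1 + 2 * z rel w P x
        - zc rel w P x (P y) := by
  have e1 : (1:ℝ) = ∑ t, w t := h1.symm
  unfold q X z zk zc
  rw [e1, Finset.mul_sum, Finset.mul_sum, Finset.mul_sum, ← Finset.sum_add_distrib,
    ← Finset.sum_sub_distrib, ← Finset.sum_add_distrib, ← Finset.sum_sub_distrib]
  refine Finset.sum_congr rfl fun t _ => ?_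
  unfold ind
  push_cast
  split_ifs <;> ring

lemma sqs (P : V → Fin 4) (x : V) :
    ∑ y, w y * ((wr (P x) (P y) (rel x y) : ℤ) : ℝ) * zc rel w P x (P y)
      = ∑ j, zc rel w P x j ^ 2 := by
  have : ∀ j, zc rel w P x j ^ 2 = ∑ y, (if P y = j then
      w y * ((wr (P x) (P y) (rel x y) : ℤ) : ℝ) else 0) * zc rel w P x j := by
    intro j
    rw [← Finset.sum_mul, sq]
    rfl
  simp_rw [this]
  rw [Finset.sum_comm]
  refine Finset.sum_congr rfl fun y _ => ?_
  simp [ite_mul]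

end T13

open T13

variable {V : Type} [Fintype V] {rel : V → V → Fin 3} {w : V → ℝ}

theorem Gprime (hs : ∀ x y, rel y x = - rel x y) (hw : ∀ v, 0 ≤ w v) (h1 : ∑ v, w v = 1)
    (P : V → Fin 4) :
    F rel w ≤ 6 * e3 (X w P) + ∑ i, F rel (wi w P i)
      + 6 * ∑ v, w v * (z rel w P v * (mx (q rel w P v (P v)) + z rel w P v + X w P (P v) - 1 / 2)
          - 1 / 2 * ∑ j, zc rel w P v j ^ 2) := by
  set G : V → V → V → ℝ := fun x y t =>
    w x * w y * w t * ((R2 (P x) (P y) (P t) (rel x y) (rel x t) (rel y t) : ℤ) : ℝ) with hG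
  -- the pointwise inequality, summed
  have hp : ∀ x y t, 12 * (w x * w y * w t * H rel x y t)
      ≤ G x y t + G y x t + G x t y + G t x y + G y t x + G t y x := by
    intro x y t
    have hpt := point (P x) (P y) (P t) (rel x y) (rel x t) (rel y t)
    have hpt' : (12:ℝ) * H rel x y t ≤
        ((R2 (P x) (P y) (P t) (rel x y) (rel x t) (rel y t) : ℤ) : ℝ)
        + ((R2 (P y) (P x) (P t) (-rel x y) (rel y t) (rel x t) : ℤ) : ℝ)
        + ((R2 (P x) (P t) (P y) (rel x t) (rel x y) (-rel y t) : ℤ) : ℝ)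
        + ((R2 (P t) (P x) (P y) (-rel x t) (-rel y t) (rel x y) : ℤ) : ℝ)
        + ((R2 (P y) (P t) (P x) (rel y t) (-rel x y) (-rel x t) : ℤ) : ℝ)
        + ((R2 (P t) (P y) (P x) (-rel y t) (-rel x t) (-rel x y) : ℤ) : ℝ) := by
      unfold H
      exact_mod_cast hpt
    have hW : 0 ≤ w x * w y * w t := mul_nonneg (mul_nonneg (hw x) (hw y)) (hw t)
    have := mul_le_mul_of_nonneg_left hpt' hW
    simp only [hG]
    rw [hs x y, hs x t, hs y t]
    calc 12 * (w x * w y * w t * H rel x y t) = w x * w y * w t * (12 * H rel x y t) := by ring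
      _ ≤ _ := this
      _ = _ := by ring
  have hsum : 12 * F rel w ≤ 6 * ∑ x, ∑ y, ∑ t, G x y t := by
    have e : ∑ x, ∑ y, ∑ t, (G x y t + G y x t + G x t y + G t x y + G y t x + G t y x)
        = 6 * ∑ x, ∑ y, ∑ t, G x y t := by
      simp only [Finset.sum_add_distrib]
      rw [s1 G, s2 G, s3 G, s4 G, s5 G]
      ring
    rw [← e]
    unfold F
    rw [Finset.mul_sum]
    refine Finset.sum_le_sum fun x _ => ?_
    rw [Finset.mul_sum]
    refine Finset.sum_le_sum fun y _ => ?_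
    rw [Finset.mul_sum]
    exact Finset.sum_le_sum fun t _ => hp x y t
  -- evaluation of the sum
  set Cf : V → V → V → ℝ := fun x y t => w x * w y * w t * (((wr (P x) (P y) (rel x y) : ℤ) : ℝ)
    * ((2 * ind (P t = P x ∧ vt (P t) (rel x t) = vt (P y) (rel x y)) + 2 * ind (P t = P x)
      - 1 + 2 * wr (P x) (P t) (rel x t) - ind (P t = P y) * wr (P x) (P t) (rel x t) : ℤ) : ℝ))
    with hCf
  have hGe : ∑ x, ∑ y, ∑ t, G x y t = 2 * (6 * e3 (X w P)) + 2 * (∑ i, F rel (wi w P i))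
      + 6 * ∑ x, ∑ y, ∑ t, Cf x y t := by
    rw [← partA P, ← partB P]
    simp only [Finset.mul_sum, ← Finset.sum_add_distrib]
    refine Finset.sum_congr rfl fun x _ => Finset.sum_congr rfl fun y _ =>
      Finset.sum_congr rfl fun t _ => ?_
    simp only [hG, hCf, R2, H]
    push_cast
    ring
  have hC : ∑ x, ∑ y, ∑ t, Cf x y t ≤ ∑ v, w v * (2 * (z rel w P v * (mx (q rel w P v (P v))
      + z rel w P v + X w P (P v) - 1 / 2)) - ∑ j, zc rel w P v j ^ 2) := by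
    refine Finset.sum_le_sum fun x _ => ?_
    have e1 : ∀ y, ∑ t, Cf x y t = w x * (w y * ((wr (P x) (P y) (rel x y) : ℤ) : ℝ) *
        (2 * q rel w P x (P x) (vt (P y) (rel x y)) + 2 * X w P (P x) - 1 + 2 * z rel w P x
        - zc rel w P x (P y))) := by
      intro y
      rw [← inner h1 P x y, Finset.mul_sum, Finset.mul_sum]
      refine Finset.sum_congr rfl fun t _ => ?_
      simp only [hCf]
      ring
    simp_rw [e1]
    rw [← Finset.mul_sum]
    apply mul_le_mul_of_nonneg_left _ (hw x)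
    rw [← sqs P x]
    have e2 : ∑ y, w y * ((wr (P x) (P y) (rel x y) : ℤ) : ℝ) *
        (2 * q rel w P x (P x) (vt (P y) (rel x y)) + 2 * X w P (P x) - 1 + 2 * z rel w P x
        - zc rel w P x (P y)) ≤ ∑ y, (w y * ((wr (P x) (P y) (rel x y) : ℤ) : ℝ) *
        (2 * mx (q rel w P x (P x)) + 2 * X w P (P x) - 1 + 2 * z rel w P x)
        - w y * ((wr (P x) (P y) (rel x y) : ℤ) : ℝ) * zc rel w P x (P y)) := by
      refine Finset.sum_le_sum fun y _ => ?_
      have hwr : (0:ℝ) ≤ ((wr (P x) (P y) (rel x y) : ℤ) : ℝ) := by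
        unfold wr; split_ifs <;> norm_num
      have hW : 0 ≤ w y * ((wr (P x) (P y) (rel x y) : ℤ) : ℝ) := mul_nonneg (hw y) hwr
      have hmx := le_mx (q rel w P x (P x)) (vt (P y) (rel x y))
      nlinarith
    refine e2.trans (le_of_eq ?_)
    rw [Finset.sum_sub_distrib, ← Finset.sum_mul]
    have e3' : ∑ y, w y * ((wr (P x) (P y) (rel x y) : ℤ) : ℝ) = z rel w P x := rfl
    rw [e3']
    ring
  have hfin : ∑ v, w v * (2 * (z rel w P v * (mx (q rel w P v (P v))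
      + z rel w P v + X w P (P v) - 1 / 2)) - ∑ j, zc rel w P v j ^ 2)
      = 2 * ∑ v, w v * (z rel w P v * (mx (q rel w P v (P v)) + z rel w P v + X w P (P v) - 1 / 2)
          - 1 / 2 * ∑ j, zc rel w P v j ^ 2) := by
    rw [Finset.mul_sum]
    exact Finset.sum_congr rfl fun v _ => by ring
  rw [hfin] at hC
  rw [hGe] at hsum
  linarith

end Pool.Agent.H190R2.P3
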