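import Pool.Agent.H190R2.P3.Defs
import Pool.Agent.H190R2.P3.T6
import Pool.Agent.H190R2.P3.T7
import Pool.Agent.H190R2.P3.T12
import Pool.Agent.H190R2.P3.T13

/-! Task T14 (final contradiction). -/

set_option autoImplicit false
open Finset

namespace Pool.Agent.H190R2.P3

namespace T14

theorem sq_sum_le (f : Fin 4 → ℝ) (i : Fin 4) (hi : f i = 0) :
    (∑ j, f j) ^ 2 ≤ 3 * ∑ j, f j ^ 2 := by
  have key : ∀ a b c : ℝ, (a + b + c) ^ 2 ≤ 3 * (a ^ 2 + b ^ 2 + c ^ 2) := by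
    intro a b c
    nlinarith [sq_nonneg (a - b), sq_nonneg (a - c), sq_nonneg (b - c)]
  rw [Fin.sum_univ_four, Fin.sum_univ_four]
  fin_cases i
  · have h : f 0 = 0 := hi
    rw [h]
    have := key (f 1) (f 2) (f 3)
    nlinarith
  · have h : f 1 = 0 := hi
    rw [h]
    have := key (f 0) (f 2) (f 3)
    nlinarith
  · have h : f 2 = 0 := hi
    rw [h]
    have := key (f 0) (f 1) (f 3)
    nlinarith
  · have h : f 3 = 0 := hi
    rw [h]
    have := key (f 0) (f 1) (f 2)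
    nlinarith

theorem tri (a b c : ℝ) (ha : 0 ≤ a) (hb : 0 ≤ b) (hc : 0 ≤ c) :
    6 * (a * b * c) ≤ a ^ 2 * b + a ^ 2 * c + b ^ 2 * a + b ^ 2 * c + c ^ 2 * a + c ^ 2 * b := by
  nlinarith [mul_nonneg ha (sq_nonneg (b - c)), mul_nonneg hb (sq_nonneg (a - c)),
    mul_nonneg hc (sq_nonneg (a - b))]

theorem poly (y : Fin 4 → ℝ) (h0 : ∀ i, 0 ≤ y i) (h1 : ∑ i, y i = 1) :
    6 * e3 y ≤ 2 / 5 * (1 - ∑ i, y i ^ 3) := by
  rw [Fin.sum_univ_four] at h1 ⊢
  have e : (1 : ℝ) = (y 0 + y 1 + y 2 + y 3) ^ 3 := by rw [h1]; norm_num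
  have t1 := tri (y 0) (y 1) (y 2) (h0 0) (h0 1) (h0 2)
  have t2 := tri (y 0) (y 1) (y 3) (h0 0) (h0 1) (h0 3)
  have t3 := tri (y 0) (y 2) (y 3) (h0 0) (h0 2) (h0 3)
  have t4 := tri (y 1) (y 2) (y 3) (h0 1) (h0 2) (h0 3)
  rw [e]
  unfold e3
  nlinarith

end T14

theorem final {V : Type} [Fintype V] {rel : V → V → Fin 3} {w : V → ℝ} (O : Opt rel w)
    (P : V → Fin 4) (hPhi : Phi rel w P ≤ 23 / 10000) (hX : ∀ i, X w P i ≤ 1 / 4 + 7 / 2000)
    (hz : ∀ v, z rel w P v ≤ 3 / 20) : False := by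
  have hw : ∀ v, 0 ≤ w v := fun v => (O.pos v).le
  have hX0 : ∀ i, 0 ≤ X w P i := X_nonneg w P hw
  have hX1 : ∑ i, X w P i = 1 := X_sum w P O.sum
  have hXs : X w P 0 + X w P 1 + X w P 2 + X w P 3 = 1 := by
    rw [← hX1, Fin.sum_univ_four]
  have hXl : ∀ i, 1 / 4 - 21 / 2000 ≤ X w P i := by
    intro i
    have a0 := hX 0
    have a1 := hX 1
    have a2 := hX 2
    have a3 := hX 3
    fin_cases i <;> simp only [Fin.zero_eta, Fin.mk_one, Fin.reduceFinMk] <;> linarith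
  have hXX : ∀ i j, i ≠ j → 1 / 2 - 14 / 2000 ≤ X w P i + X w P j := by
    intro i j hij
    have a0 := hX 0
    have a1 := hX 1
    have a2 := hX 2
    have a3 := hX 3
    fin_cases i <;> fin_cases j <;>
      simp only [Fin.zero_eta, Fin.mk_one, Fin.reduceFinMk, ne_eq, not_true_eq_false] at hij ⊢ <;>
      linarith
  -- numeric bound for every vertex
  have hN : ∀ v, mx (q rel w P v (P v)) + z rel w P v + X w P (P v) - 1 / 2
      - z rel w P v / 6 ≤ - (21 / 2000) - 3 * (X w P (P v) - 1 / 4) := by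
    intro v
    have hq := VM_q rel w P hw O.sum v
    have hrs : ∀ i, rs (q rel w P v) i = X w P i := rs_q rel w P v
    have hzk : z rel w P v = 1 - rs (q rel w P v) (P v) - cs (q rel w P v) (P v) := by
      rw [hrs]; exact zk_eq rel w P O.sum v (P v)
    have hz0 : 0 ≤ z rel w P v := zk_nonneg rel w P hw v (P v)
    have hB := HB hq (1 / 4 + 7 / 2000) (fun i => by rw [hrs]; exact hX i) (P v)
      (X w P (P v)) (mx (q rel w P v (P v))) (z rel w P v) (hrs _).symm rfl hzk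
    have hV := V1 rel w P hw v
    have hL : 2 / 5 < L rel w v := by rw [O.lag v]; exact O.big
    have hm1 := mx_le_rs hq (P v)
    have hm2 := rs_le_mx hq (P v)
    rw [hrs] at hm1 hm2
    have := NB (X w P (P v)) (X w P (P v) - mx (q rel w P v (P v))) (z rel w P v)
      (Phi rel w P) (hX _) (hXl _) hz0 (hz v) (by linarith) (by linarith) hPhi (by linarith)
    linarith
  have hG := Gprime O.skew hw O.sum P
  have hFi : ∑ i, F rel (wi w P i) ≤ F rel w * ∑ i, X w P i ^ 3 := by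
    rw [Finset.mul_sum]
    refine Finset.sum_le_sum fun i _ => ?_
    have := O.max (wi w P i) (fun v => by unfold wi; split_ifs; exact hw v; exact le_rfl)
    exact this
  -- the bracket
  have hbr : ∀ v, z rel w P v * (mx (q rel w P v (P v)) + z rel w P v + X w P (P v) - 1 / 2)
      - 1 / 2 * ∑ j, zc rel w P v j ^ 2
      ≤ z rel w P v * (- (21 / 2000) - 3 * (X w P (P v) - 1 / 4)) := by
    intro v
    have hz0 : 0 ≤ z rel w P v := zk_nonneg rel w P hw v (P v)
    have h1 := T14.sq_sum_le (zc rel w P v) (P v) (zc_own rel w P v)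
    rw [← z_eq_zc] at h1
    have h2 := mul_le_mul_of_nonneg_left (hN v) hz0
    nlinarith
  have hsum : ∑ v, w v * (z rel w P v *
        (mx (q rel w P v (P v)) + z rel w P v + X w P (P v) - 1 / 2)
        - 1 / 2 * ∑ j, zc rel w P v j ^ 2)
      ≤ ∑ v, w v * (z rel w P v * (- (21 / 2000) - 3 * (X w P (P v) - 1 / 4))) :=
    Finset.sum_le_sum fun v _ => mul_le_mul_of_nonneg_left (hbr v) (hw v)
  set M : V → ℝ := fun v => - (21 / 2000) - 3 * (X w P (P v) - 1 / 4) with hM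
  have hdouble : ∑ v, w v * (z rel w P v * M v)
      = ∑ v, ∑ x, w v * w x * ((wr (P v) (P x) (rel v x) : ℤ) : ℝ) * M v := by
    refine Finset.sum_congr rfl fun v _ => ?_
    have : z rel w P v = ∑ x, w x * ((wr (P v) (P x) (rel v x) : ℤ) : ℝ) := rfl
    rw [this, Finset.sum_mul, Finset.mul_sum]
    refine Finset.sum_congr rfl fun x _ => ?_
    ring
  have hswap : ∑ v, ∑ x, w v * w x * ((wr (P v) (P x) (rel v x) : ℤ) : ℝ) * M v
      = ∑ v, ∑ x, w v * w x * ((wr (P v) (P x) (rel v x) : ℤ) : ℝ) * M x := by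
    rw [Finset.sum_comm]
    refine Finset.sum_congr rfl fun v _ => Finset.sum_congr rfl fun x _ => ?_
    rw [wr_symm (P x) (P v) (rel x v), ← O.skew x v]
    ring
  have hle : ∑ v, ∑ x, w v * w x * ((wr (P v) (P x) (rel v x) : ℤ) : ℝ) * M v
      + ∑ v, ∑ x, w v * w x * ((wr (P v) (P x) (rel v x) : ℤ) : ℝ) * M x ≤ 0 := by
    rw [← Finset.sum_add_distrib]
    refine Finset.sum_nonpos fun v _ => ?_
    rw [← Finset.sum_add_distrib]
    refine Finset.sum_nonpos fun x _ => ?_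
    by_cases hP : P v = P x
    · have : wr (P v) (P x) (rel v x) = 0 := by
        unfold wr
        rw [if_neg]
        rintro ⟨h, _⟩
        exact h hP
      rw [this]; simp
    · have h1 := hXX (P v) (P x) hP
      have h2 : M v + M x ≤ 0 := by
        simp only [hM]; linarith
      have h3 : (0 : ℝ) ≤ ((wr (P v) (P x) (rel v x) : ℤ) : ℝ) := by
        unfold wr; split_ifs <;> norm_num
      have h4 : 0 ≤ w v * w x * ((wr (P v) (P x) (rel v x) : ℤ) : ℝ) :=
        mul_nonneg (mul_nonneg (hw v) (hw x)) h3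
      nlinarith [mul_nonneg h4 (neg_nonneg.mpr h2)]
  have hS0 : ∑ v, w v * (z rel w P v * M v) ≤ 0 := by
    rw [hdouble]; linarith
  have hp := T14.poly (X w P) hX0 hX1
  have hcube : ∑ i, X w P i ^ 3 < 1 := by
    have hc : ∀ i, X w P i ^ 3 ≤ X w P i * (1 / 2) := by
      intro i
      have h0 := hX0 i
      have h1 := hX i
      have h2 : X w P i ^ 2 ≤ 1 / 2 := by nlinarith
      calc X w P i ^ 3 = X w P i * X w P i ^ 2 := by ring
        _ ≤ X w P i * (1 / 2) := mul_le_mul_of_nonneg_left h2 h0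
    calc ∑ i, X w P i ^ 3 ≤ ∑ i, X w P i * (1 / 2) := Finset.sum_le_sum fun i _ => hc i
      _ = 1 / 2 := by rw [← Finset.sum_mul, hX1]; norm_num
      _ < 1 := by norm_num
  have hbig := O.big
  have : F rel w ≤ 6 * e3 (X w P) + F rel w * ∑ i, X w P i ^ 3 := by
    have h6 : ∑ v, w v * (z rel w P v *
        (mx (q rel w P v (P v)) + z rel w P v + X w P (P v) - 1 / 2)
        - 1 / 2 * ∑ j, zc rel w P v j ^ 2) ≤ 0 := le_trans hsum hS0
    linarith
  nlinarith

end Pool.Agent.H190R2.P3
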