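import Mathlib

/-! Task T15 (helper130): lower bound, iterated blow-up of the directed 4-cycle. -/

set_option autoImplicit false
open Finset

namespace Pool.Agent.H190R2.P3

namespace T15

/-- the iterated blow-up of the directed 4-cycle -/
def rF : ℕ → ℕ → ℕ → Bool
  | 0, _, _ => false
  | k + 1, x, y => if x % 4 = y % 4 then rF k (x / 4) (y / 4) else decide (y % 4 = (x % 4 + 1) % 4)

lemma rF_irr (k x : ℕ) : rF k x x = false := by
  induction k generalizing x with
  | zero => rfl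
  | succ k ih => simp [rF, ih]

lemma rF_anti (k x y : ℕ) : ¬ (rF k x y = true ∧ rF k y x = true) := by
  induction k generalizing x y with
  | zero => simp [rF]
  | succ k ih =>
    simp only [rF]
    by_cases h : x % 4 = y % 4
    · rw [if_pos h, if_pos h.symm]; exact ih _ _
    · rw [if_neg h, if_neg (Ne.symm h)]
      simp only [decide_eq_true_eq]
      omega

/-- the induced directed 2-paths -/
def Pk (k : ℕ) (t : ℕ × ℕ × ℕ) : Prop :=
  rF k t.1 t.2.1 = true ∧ rF k t.2.1 t.2.2 = true ∧ rF k t.1 t.2.2 = false ∧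
    rF k t.2.2 t.1 = false ∧ t.1 ≠ t.2.2

instance (k : ℕ) (t : ℕ × ℕ × ℕ) : Decidable (Pk k t) := by unfold Pk; infer_instance

/-- the set of induced directed 2-paths below `n` -/
def C (k n : ℕ) : Finset (ℕ × ℕ × ℕ) :=
  (range n ×ˢ range n ×ˢ range n).filter (fun t => Pk k t)

lemma mem_C {k n : ℕ} {t : ℕ × ℕ × ℕ} : t ∈ C k n ↔ (t.1 < n ∧ t.2.1 < n ∧ t.2.2 < n) ∧
    rF k t.1 t.2.1 = true ∧ rF k t.2.1 t.2.2 = true ∧ rF k t.1 t.2.2 = false ∧
    rF k t.2.2 t.1 = false ∧ t.1 ≠ t.2.2 := by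
  unfold C
  rw [mem_filter, mem_product, mem_product, mem_range, mem_range, mem_range]
  rfl

lemma rF_succ_ne {k x y : ℕ} (h : x % 4 ≠ y % 4) :
    rF (k + 1) x y = decide (y % 4 = (x % 4 + 1) % 4) := by
  simp only [rF]; rw [if_neg h]

lemma rF_succ_eq {k x y i : ℕ} (hi : i < 4) :
    rF (k + 1) (4 * x + i) (4 * y + i) = rF k x y := by
  have e : ∀ x : ℕ, (4 * x + i) % 4 = i := fun x => by omega
  have e' : ∀ x : ℕ, (4 * x + i) / 4 = x := fun x => by omega
  simp only [rF, e, e', if_true]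

/-- residues -/
def res (t : ℕ × ℕ × ℕ) : ℕ × ℕ × ℕ := (t.1 % 4, t.2.1 % 4, t.2.2 % 4)

/-- the eight residue triples -/
def R8 : Finset (ℕ × ℕ × ℕ) :=
  {(0, 0, 0), (1, 1, 1), (2, 2, 2), (3, 3, 3), (0, 1, 2), (1, 2, 3), (2, 3, 0), (3, 0, 1)}

lemma card_ge (k n : ℕ) : ∑ ρ ∈ R8, ((C (k + 1) n).filter (fun t => res t = ρ)).card ≤
    (C (k + 1) n).card := by
  have h := card_eq_sum_card_fiberwise (s := C (k + 1) n) (f := res)
    (t := range 4 ×ˢ range 4 ×ˢ range 4) (by
      intro t _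
      simp only [coe_product, coe_range, Set.mem_prod, Set.mem_Iio, res]
      exact ⟨Nat.mod_lt _ (by norm_num), Nat.mod_lt _ (by norm_num), Nat.mod_lt _ (by norm_num)⟩)
  rw [h]
  exact sum_le_sum_of_subset (by decide)

lemma diag (k n i : ℕ) (hi : i < 4) :
    (C k ((n + 3 - i) / 4)).card ≤ ((C (k + 1) n).filter (fun t => res t = (i, i, i))).card := by
  apply card_le_card_of_injOn (fun t => (4 * t.1 + i, 4 * t.2.1 + i, 4 * t.2.2 + i))
  · intro t ht
    rw [mem_coe, mem_C] at ht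
    rw [mem_coe, mem_filter, mem_C]
    obtain ⟨⟨h1, h2, h3⟩, h4, h5, h6, h7, h8⟩ := ht
    simp only [rF_succ_eq hi]
    refine ⟨⟨⟨by omega, by omega, by omega⟩, h4, h5, h6, h7, by omega⟩, ?_⟩
    simp only [res, Prod.mk.injEq]
    omega
  · intro a _ b _ hab
    simp only [Prod.mk.injEq] at hab
    obtain ⟨h1, h2, h3⟩ := hab
    ext <;> omega

lemma cyc (k n i j l : ℕ) (hi : i < 4) (hj : j = (i + 1) % 4) (hl : l = (i + 2) % 4) :
    ((n + 3 - i) / 4) * (((n + 3 - j) / 4) * ((n + 3 - l) / 4)) ≤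
      ((C (k + 1) n).filter (fun t => res t = (i, j, l))).card := by
  rw [← card_range ((n + 3 - i) / 4), ← card_range ((n + 3 - j) / 4),
    ← card_range ((n + 3 - l) / 4), ← card_product, ← card_product]
  apply card_le_card_of_injOn (fun t => (4 * t.1 + i, 4 * t.2.1 + j, 4 * t.2.2 + l))
  · intro t ht
    rw [mem_coe, mem_product, mem_product] at ht
    rw [mem_coe, mem_filter, mem_C]
    simp only [mem_range] at ht
    obtain ⟨h1, h2, h3⟩ := ht
    have ei : (4 * t.1 + i) % 4 = i := by omega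
    have ej : (4 * t.2.1 + j) % 4 = j := by omega
    have el : (4 * t.2.2 + l) % 4 = l := by omega
    refine ⟨⟨⟨by simp only; omega, by simp only; omega, by simp only; omega⟩, ?_, ?_, ?_, ?_,
      by simp only; omega⟩, ?_⟩
    · simp only
      rw [rF_succ_ne (by omega), ei, ej]; exact decide_eq_true hj
    · simp only
      rw [rF_succ_ne (by omega), ej, el]; exact decide_eq_true (by omega)
    · simp only
      rw [rF_succ_ne (by omega), ei, el]; exact decide_eq_false (by omega)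
    · simp only
      rw [rF_succ_ne (by omega), ei, el]; exact decide_eq_false (by omega)
    · simp only [res, Prod.mk.injEq]
      omega
  · intro a _ b _ hab
    simp only [Prod.mk.injEq] at hab
    obtain ⟨h1, h2, h3⟩ := hab
    ext <;> omega

lemma main (k n : ℕ) (hn : n ≤ 4 ^ k) :
    (n : ℝ) ^ 3 / 15 - 3 / 2 * (n : ℝ) ^ 2 ≤ ((C k n).card : ℝ) := by
  induction k generalizing n with
  | zero =>
    have h1 : n = 0 ∨ n = 1 := by simp at hn; omega
    have h2 : (0 : ℝ) ≤ ((C 0 n).card : ℝ) := by positivity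
    refine le_trans ?_ h2
    rcases h1 with rfl | rfl <;> norm_num
  | succ k ih =>
    have h0 := card_ge k n
    have d0 := diag k n 0 (by norm_num)
    have d1 := diag k n 1 (by norm_num)
    have d2 := diag k n 2 (by norm_num)
    have d3 := diag k n 3 (by norm_num)
    have c0 := cyc k n 0 1 2 (by norm_num) rfl rfl
    have c1 := cyc k n 1 2 3 (by norm_num) rfl rfl
    have c2 := cyc k n 2 3 0 (by norm_num) rfl rfl
    have c3 := cyc k n 3 0 1 (by norm_num) rfl rfl
    have hR : ∑ ρ ∈ R8, ((C (k + 1) n).filter (fun t => res t = ρ)).card =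
        ((C (k + 1) n).filter (fun t => res t = (0, 0, 0))).card +
        (((C (k + 1) n).filter (fun t => res t = (1, 1, 1))).card +
        (((C (k + 1) n).filter (fun t => res t = (2, 2, 2))).card +
        (((C (k + 1) n).filter (fun t => res t = (3, 3, 3))).card +
        (((C (k + 1) n).filter (fun t => res t = (0, 1, 2))).card +
        (((C (k + 1) n).filter (fun t => res t = (1, 2, 3))).card +
        (((C (k + 1) n).filter (fun t => res t = (2, 3, 0))).card +
        ((C (k + 1) n).filter (fun t => res t = (3, 0, 1))).card)))))) := by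
      unfold R8
      rw [sum_insert (by decide), sum_insert (by decide), sum_insert (by decide),
        sum_insert (by decide), sum_insert (by decide), sum_insert (by decide),
        sum_insert (by decide), sum_singleton]
    have hpow : 4 ^ (k + 1) = 4 * 4 ^ k := by ring
    rw [hpow] at hn
    have i0 := ih ((n + 3 - 0) / 4) (by omega)
    have i1 := ih ((n + 3 - 1) / 4) (by omega)
    have i2 := ih ((n + 3 - 2) / 4) (by omega)
    have i3 := ih ((n + 3 - 3) / 4) (by omega)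
    have htot : (C k ((n + 3 - 0) / 4)).card + ((C k ((n + 3 - 1) / 4)).card +
        ((C k ((n + 3 - 2) / 4)).card + ((C k ((n + 3 - 3) / 4)).card +
        (((n + 3 - 0) / 4) * (((n + 3 - 1) / 4) * ((n + 3 - 2) / 4)) +
        (((n + 3 - 1) / 4) * (((n + 3 - 2) / 4) * ((n + 3 - 3) / 4)) +
        (((n + 3 - 2) / 4) * (((n + 3 - 3) / 4) * ((n + 3 - 0) / 4)) +
        ((n + 3 - 3) / 4) * (((n + 3 - 0) / 4) * ((n + 3 - 1) / 4)))))))) ≤ (C (k + 1) n).card := by
      rw [hR] at h0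
      exact le_trans (by gcongr) h0
    have htot' : ((C k ((n + 3 - 0) / 4)).card : ℝ) + (((C k ((n + 3 - 1) / 4)).card : ℝ) +
        (((C k ((n + 3 - 2) / 4)).card : ℝ) + (((C k ((n + 3 - 3) / 4)).card : ℝ) +
        ((((n + 3 - 0) / 4 : ℕ) : ℝ) * ((((n + 3 - 1) / 4 : ℕ) : ℝ) * (((n + 3 - 2) / 4 : ℕ) : ℝ)) +
        ((((n + 3 - 1) / 4 : ℕ) : ℝ) * ((((n + 3 - 2) / 4 : ℕ) : ℝ) * (((n + 3 - 3) / 4 : ℕ) : ℝ)) +
        ((((n + 3 - 2) / 4 : ℕ) : ℝ) * ((((n + 3 - 3) / 4 : ℕ) : ℝ) * (((n + 3 - 0) / 4 : ℕ) : ℝ)) +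
        (((n + 3 - 3) / 4 : ℕ) : ℝ) * ((((n + 3 - 0) / 4 : ℕ) : ℝ) * (((n + 3 - 1) / 4 : ℕ) : ℝ)))))))) ≤
        ((C (k + 1) n).card : ℝ) := by exact_mod_cast htot
    refine le_trans ?_ htot'
    refine le_trans ?_ (add_le_add i0 (add_le_add i1 (add_le_add i2 (add_le_add i3 le_rfl))))
    obtain ⟨s, r, hr, rfl⟩ : ∃ s r, r < 4 ∧ n = 4 * s + r := ⟨n / 4, n % 4, by omega, by omega⟩
    have hs : (0 : ℝ) ≤ (s : ℝ) := by positivity
    interval_cases r
    · have e0 : (4 * s + 0 + 3 - 0) / 4 = s := by omega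
      have e1 : (4 * s + 0 + 3 - 1) / 4 = s := by omega
      have e2 : (4 * s + 0 + 3 - 2) / 4 = s := by omega
      have e3 : (4 * s + 0 + 3 - 3) / 4 = s := by omega
      rw [e0, e1, e2, e3]
      push_cast
      rw [← sub_nonneg]
      ring_nf
      positivity
    · have e0 : (4 * s + 1 + 3 - 0) / 4 = s + 1 := by omega
      have e1 : (4 * s + 1 + 3 - 1) / 4 = s := by omega
      have e2 : (4 * s + 1 + 3 - 2) / 4 = s := by omega
      have e3 : (4 * s + 1 + 3 - 3) / 4 = s := by omega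
      rw [e0, e1, e2, e3]
      push_cast
      rw [← sub_nonneg]
      ring_nf
      positivity
    · have e0 : (4 * s + 2 + 3 - 0) / 4 = s + 1 := by omega
      have e1 : (4 * s + 2 + 3 - 1) / 4 = s + 1 := by omega
      have e2 : (4 * s + 2 + 3 - 2) / 4 = s := by omega
      have e3 : (4 * s + 2 + 3 - 3) / 4 = s := by omega
      rw [e0, e1, e2, e3]
      push_cast
      rw [← sub_nonneg]
      ring_nf
      positivity
    · have e0 : (4 * s + 3 + 3 - 0) / 4 = s + 1 := by omega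
      have e1 : (4 * s + 3 + 3 - 1) / 4 = s + 1 := by omega
      have e2 : (4 * s + 3 + 3 - 2) / 4 = s + 1 := by omega
      have e3 : (4 * s + 3 + 3 - 3) / 4 = s := by omega
      rw [e0, e1, e2, e3]
      push_cast
      rw [← sub_nonneg]
      ring_nf
      positivity

end T15

theorem lower (n : ℕ) : ∃ r : Fin n → Fin n → Bool,
    (∀ i, r i i = false) ∧ (∀ i j, ¬ (r i j = true ∧ r j i = true)) ∧
    (n : ℝ) ^ 3 / 15 - 3 / 2 * (n : ℝ) ^ 2 ≤
      ((((Finset.univ : Finset (Fin n × Fin n × Fin n)).filter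
        (fun t => r t.1 t.2.1 = true ∧ r t.2.1 t.2.2 = true ∧
          r t.1 t.2.2 = false ∧ r t.2.2 t.1 = false ∧ t.1 ≠ t.2.2)).card : ℕ) : ℝ) := by
  refine ⟨fun i j => T15.rF n i j, fun i => T15.rF_irr n i, fun i j => T15.rF_anti n i j, ?_⟩
  have hn : n ≤ 4 ^ n := (Nat.lt_pow_self (by norm_num)).le
  refine (T15.main n n hn).trans ?_
  have hsub : T15.C n n ⊆ ((Finset.univ : Finset (Fin n × Fin n × Fin n)).filter
        (fun t => T15.rF n t.1 t.2.1 = true ∧ T15.rF n t.2.1 t.2.2 = true ∧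
          T15.rF n t.1 t.2.2 = false ∧ T15.rF n t.2.2 t.1 = false ∧ t.1 ≠ t.2.2)).image
        (fun t => ((t.1 : ℕ), (t.2.1 : ℕ), (t.2.2 : ℕ))) := by
    intro t ht
    rw [T15.mem_C] at ht
    obtain ⟨⟨h1, h2, h3⟩, h4, h5, h6, h7, h8⟩ := ht
    refine mem_image.2 ⟨(⟨t.1, h1⟩, ⟨t.2.1, h2⟩, ⟨t.2.2, h3⟩), ?_, rfl⟩
    simp only [mem_filter, mem_univ, true_and]
    exact ⟨h4, h5, h6, h7, fun h => h8 (by simpa using h)⟩
  exact_mod_cast (card_le_card hsub).trans card_image_le

end Pool.Agent.H190R2.P3
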