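import Pool.Agent.H190R2.P3.Defs

/-! Task T16 (from the weighted bound to the counting bound). -/

set_option autoImplicit false
open Finset

namespace Pool.Agent.H190R2.P3

namespace T16

def rl (x x' : Bool) : Fin 3 := if x = true then 1 else if x' = true then 2 else 0

lemma rl_skew : ∀ x x' : Bool, ¬ (x = true ∧ x' = true) → rl x' x = - rl x x' := by decide

def pp (ab bc ac ca : Bool) : ℤ :=
  if ab = true ∧ bc = true ∧ ac = false ∧ ca = false then 1 else 0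

lemma six : ∀ ab ba ac ca bc cb : Bool, ¬ (ab = true ∧ ba = true) → ¬ (ac = true ∧ ca = true) →
    ¬ (bc = true ∧ cb = true) →
    pp ab bc ac ca + pp cb ba ca ac + pp ba ac bc cb + pp ca ab cb bc + pp ac cb ab ba
      + pp bc ca ba ab ≤ h3 (rl ab ba) (rl ac ca) (rl bc cb) := by decide

variable {α : Type} [Fintype α]

lemma s1 (f : α → α → α → ℝ) : ∑ a, ∑ b, ∑ c, f b a c = ∑ a, ∑ b, ∑ c, f a b c :=
  Finset.sum_comm

lemma s2 (f : α → α → α → ℝ) : ∑ a, ∑ b, ∑ c, f a c b = ∑ a, ∑ b, ∑ c, f a b c :=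
  Finset.sum_congr rfl fun _ _ => Finset.sum_comm

lemma s3 (f : α → α → α → ℝ) : ∑ a, ∑ b, ∑ c, f c a b = ∑ a, ∑ b, ∑ c, f a b c :=
  (s2 (fun a b c => f b a c)).trans (s1 f)

lemma s4 (f : α → α → α → ℝ) : ∑ a, ∑ b, ∑ c, f c b a = ∑ a, ∑ b, ∑ c, f a b c :=
  (s1 (fun a b c => f c a b)).trans (s3 f)

lemma s5 (f : α → α → α → ℝ) : ∑ a, ∑ b, ∑ c, f b c a = ∑ a, ∑ b, ∑ c, f a b c :=
  (s2 (fun a b c => f c b a)).trans (s4 f)

end T16

open T16 in
theorem upper_of (h : ∀ (n : ℕ) (rel : Fin n → Fin n → Fin 3) (_ : ∀ x y, rel y x = - rel x y)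
      (w : Fin n → ℝ) (_ : ∀ v, 0 ≤ w v) (_ : ∑ v, w v = 1), F rel w ≤ 2 / 5)
    (n : ℕ) (r : Fin n → Fin n → Bool) (h0 : ∀ i, r i i = false)
    (h1 : ∀ i j, ¬ (r i j = true ∧ r j i = true)) :
    ((((Finset.univ : Finset (Fin n × Fin n × Fin n)).filter
      (fun t => r t.1 t.2.1 = true ∧ r t.2.1 t.2.2 = true ∧
        r t.1 t.2.2 = false ∧ r t.2.2 t.1 = false ∧ t.1 ≠ t.2.2)).card : ℕ) : ℝ)
      ≤ (n : ℝ) ^ 3 / 15 := by
  rcases Nat.eq_zero_or_pos n with hn | hn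
  · subst hn
    simp
  have hn0 : (0:ℝ) < n := by exact_mod_cast hn
  set rel : Fin n → Fin n → Fin 3 := fun i j => rl (r i j) (r j i) with hrel
  have hskew : ∀ x y, rel y x = - rel x y := fun x y => rl_skew _ _ (h1 x y)
  have hF := h n rel hskew (fun _ => 1 / n) (fun _ => by positivity) (by
    rw [Finset.sum_const, Finset.card_univ, Fintype.card_fin, nsmul_eq_mul]
    field_simp)
  have hFe : F rel (fun _ => 1 / (n:ℝ)) = (1 / n) ^ 3 * ∑ a, ∑ b, ∑ c, H rel a b c := by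
    unfold F
    rw [Finset.mul_sum]
    refine Finset.sum_congr rfl fun a _ => ?_
    rw [Finset.mul_sum]
    refine Finset.sum_congr rfl fun b _ => ?_
    rw [Finset.mul_sum]
    refine Finset.sum_congr rfl fun c _ => ?_
    ring
  set p : Fin n → Fin n → Fin n → ℝ := fun a b c => ((pp (r a b) (r b c) (r a c) (r c a) : ℤ) : ℝ)
    with hp
  have hpt : ∀ a b c, p a b c + p c b a + p b a c + p c a b + p a c b + p b c a ≤ H rel a b c := by
    intro a b c
    have := six (r a b) (r b a) (r a c) (r c a) (r b c) (r c b) (h1 a b) (h1 a c) (h1 b c)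
    simp only [hp, hrel, H]
    exact_mod_cast this
  have hsum : 6 * ∑ a, ∑ b, ∑ c, p a b c ≤ ∑ a, ∑ b, ∑ c, H rel a b c := by
    have e : ∑ a, ∑ b, ∑ c, (p a b c + p c b a + p b a c + p c a b + p a c b + p b c a)
        = 6 * ∑ a, ∑ b, ∑ c, p a b c := by
      simp only [Finset.sum_add_distrib]
      rw [s4 p, s1 p, s3 p, s2 p, s5 p]
      ring
    rw [← e]
    exact Finset.sum_le_sum fun a _ => Finset.sum_le_sum fun b _ => Finset.sum_le_sum fun c _ =>
      hpt a b c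
  have hcard : ((((Finset.univ : Finset (Fin n × Fin n × Fin n)).filter
      (fun t => r t.1 t.2.1 = true ∧ r t.2.1 t.2.2 = true ∧
        r t.1 t.2.2 = false ∧ r t.2.2 t.1 = false ∧ t.1 ≠ t.2.2)).card : ℕ) : ℝ)
      ≤ ∑ a, ∑ b, ∑ c, p a b c := by
    rw [Finset.card_filter]
    push_cast
    rw [Fintype.sum_prod_type]
    refine Finset.sum_le_sum fun a _ => ?_
    rw [Fintype.sum_prod_type]
    refine Finset.sum_le_sum fun b _ => Finset.sum_le_sum fun c _ => ?_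
    simp only [hp, pp]
    split_ifs with c1 c2 c2
    · norm_num
    · exact absurd ⟨c1.1, c1.2.1, c1.2.2.1, c1.2.2.2.1⟩ c2
    · norm_num
    · norm_num
  rw [hFe] at hF
  have hn3 : (0:ℝ) < (n:ℝ) ^ 3 := by positivity
  have h5 : ∑ a, ∑ b, ∑ c, H rel a b c ≤ 2 / 5 * n ^ 3 := by
    have e1 : (1 / (n:ℝ)) ^ 3 * ∑ a, ∑ b, ∑ c, H rel a b c
        = (∑ a, ∑ b, ∑ c, H rel a b c) / n ^ 3 := by
      rw [one_div, inv_pow, div_eq_inv_mul]
    rw [e1, div_le_iff₀ hn3] at hF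
    exact hF
  linarith

end Pool.Agent.H190R2.P3
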