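import Pool.Agent.H190R2.P3.SF

/-! Task T5 (from the flag algebra bound to a partition of most of the graph), helper503. -/

set_option autoImplicit false
open Finset

namespace Pool.Agent.H190R2.P3

namespace T5

lemma h3_le (d e f : Fin 3) : h3 d e f ≤ if d = e then 0 else 1 := by
  revert d e f; decide

lemma h3_nonneg (d e f : Fin 3) : 0 ≤ h3 d e f := by
  revert d e f; decide

lemma h3_sw (d e f : Fin 3) : h3 e d (-f) = h3 d e f := by
  revert d e f; decide

lemma h3_rot (d e f : Fin 3) : h3 (-d) f e = h3 d e f := by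
  revert d e f; decide

lemma wr_nonneg (i j : Fin 4) (r : Fin 3) : 0 ≤ wr i j r := by
  revert i j r; decide

lemma un_tr (r0 r1 r2 : Fin 3) (h : un r0 r1 r2 = true) : tr r0 r1 r2 = true := by
  revert r0 r1 r2; decide

lemma cls_mem (r0 r1 r2 : Fin 3) (h : tr r0 r1 r2 = false) :
    (cls r0 r1 r2 = 0 → r1 = 2) ∧ (cls r0 r1 r2 = 1 → r0 = 1) ∧ (cls r0 r1 r2 = 2 → r0 = 0) ∧
      (cls r0 r1 r2 = 3 → r0 = 2) := by
  revert r0 r1 r2; decide

section
variable {V : Type} {rel : V → V → Fin 3}

lemma H_le (a b c : V) : H rel a b c ≤ if rel a b = rel a c then 0 else 1 := by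
  unfold H
  have h1 := h3_le (rel a b) (rel a c) (rel b c)
  split_ifs at h1 ⊢ with h
  · exact_mod_cast h1
  · exact_mod_cast h1

lemma H_nonneg (a b c : V) : 0 ≤ H rel a b c := by
  unfold H
  exact_mod_cast h3_nonneg _ _ _

lemma H_le_one (a b c : V) : H rel a b c ≤ 1 :=
  (H_le a b c).trans (by split_ifs <;> norm_num)

lemma H_sw (hs : ∀ x y, rel y x = -rel x y) (a b c : V) : H rel a c b = H rel a b c := by
  unfold H
  rw [hs b c, h3_sw]

lemma H_rot (hs : ∀ x y, rel y x = -rel x y) (a b c : V) : H rel b a c = H rel a b c := by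
  unfold H
  rw [hs a b, h3_rot]

end

variable {V : Type} [Fintype V] {rel : V → V → Fin 3} {w : V → ℝ}

/-- the trilinear form -/
noncomputable def TF (rel : V → V → Fin 3) (u v x : V → ℝ) : ℝ :=
  ∑ a, ∑ b, ∑ c, u a * v b * x c * H rel a b c

/-- the link form -/
noncomputable def LF (rel : V → V → Fin 3) (v : V → ℝ) (x : V) : ℝ :=
  ∑ y, ∑ z, v y * v z * H rel x y z

lemma TF_swap23 (hs : ∀ x y, rel y x = -rel x y) (u v x : V → ℝ) :
    TF rel u v x = TF rel u x v := by
  unfold TF
  refine sum_congr rfl fun a _ => ?_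
  rw [sum_comm]
  refine sum_congr rfl fun c _ => sum_congr rfl fun b _ => ?_
  rw [H_sw hs a b c]
  ring

lemma TF_swap12 (hs : ∀ x y, rel y x = -rel x y) (u v x : V → ℝ) :
    TF rel u v x = TF rel v u x := by
  unfold TF
  rw [sum_comm]
  refine sum_congr rfl fun b _ => sum_congr rfl fun a _ => sum_congr rfl fun c _ => ?_
  rw [H_rot hs a b c]
  ring

lemma TF_add2 (u v v' x : V → ℝ) :
    TF rel u (fun y => v y + v' y) x = TF rel u v x + TF rel u v' x := by
  unfold TF
  simp only [mul_add, add_mul, sum_add_distrib]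

lemma TF_add3 (u v x x' : V → ℝ) :
    TF rel u v (fun y => x y + x' y) = TF rel u v x + TF rel u v x' := by
  unfold TF
  simp only [mul_add, add_mul, sum_add_distrib]

lemma TF_link (u v : V → ℝ) : TF rel u v v = ∑ a, u a * LF rel v a := by
  unfold TF LF
  refine sum_congr rfl fun a _ => ?_
  rw [mul_sum]
  refine sum_congr rfl fun b _ => ?_
  rw [mul_sum]
  refine sum_congr rfl fun c _ => ?_
  ring

lemma pairs (v : V → ℝ) (κ : V → Fin 3) :
    ∑ y, ∑ z, v y * v z * (if κ y = κ z then (0 : ℝ) else 1) =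
      (∑ y, v y) ^ 2 - ∑ c, (∑ y, if κ y = c then v y else 0) ^ 2 := by
  have h1 : ∀ y z, v y * v z * (if κ y = κ z then (0 : ℝ) else 1) = v y * v z -
      ∑ c, (if κ y = c then v y else 0) * (if κ z = c then v z else 0) := by
    intro y z
    rw [Finset.sum_eq_single (κ y)]
    · by_cases h : κ y = κ z
      · simp [h]
      · simp [h, Ne.symm h]
    · intro c _ hc
      rw [if_neg (Ne.symm hc), zero_mul]
    · intro hcon
      exact absurd (mem_univ _) hcon
  simp only [h1, sum_sub_distrib]
  congr 1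
  · rw [pow_two, sum_mul_sum]
  · simp only [pow_two, sum_mul_sum]
    calc ∑ y, ∑ z, ∑ c, (if κ y = c then v y else 0) * (if κ z = c then v z else 0)
        = ∑ y, ∑ c, ∑ z, (if κ y = c then v y else 0) * (if κ z = c then v z else 0) :=
          sum_congr rfl fun y _ => sum_comm
      _ = _ := sum_comm

lemma LF_le_pairs (v : V → ℝ) (hv : ∀ y, 0 ≤ v y) (x : V) :
    LF rel v x ≤ (∑ y, v y) ^ 2 - ∑ c, (∑ y, if rel x y = c then v y else 0) ^ 2 := by
  rw [← pairs]
  unfold LF
  refine sum_le_sum fun y _ => sum_le_sum fun z _ => ?_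
  exact mul_le_mul_of_nonneg_left (H_le x y z) (mul_nonneg (hv y) (hv z))

lemma sum_class (v : V → ℝ) (κ : V → Fin 3) :
    ∑ c, (∑ y, if κ y = c then v y else 0) = ∑ y, v y := by
  rw [sum_comm]
  refine sum_congr rfl fun y _ => ?_
  rw [sum_ite_eq]
  simp

lemma LF_le_two_thirds (v : V → ℝ) (hv : ∀ y, 0 ≤ v y) (x : V) :
    LF rel v x ≤ 2 / 3 * (∑ y, v y) ^ 2 := by
  refine (LF_le_pairs v hv x).trans ?_
  have h := sum_class v (fun y => rel x y)
  rw [← h]
  rw [Fin.sum_univ_three, Fin.sum_univ_three]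
  set n0 := ∑ y, if rel x y = 0 then v y else 0
  set n1 := ∑ y, if rel x y = 1 then v y else 0
  set n2 := ∑ y, if rel x y = 2 then v y else 0
  nlinarith [sq_nonneg (n0 - n1), sq_nonneg (n0 - n2), sq_nonneg (n1 - n2)]

lemma LF_le_class (v : V → ℝ) (hv : ∀ y, 0 ≤ v y) (x : V) (c : Fin 3) :
    LF rel v x ≤ (∑ y, v y) ^ 2 - (∑ y, if rel x y = c then v y else 0) ^ 2 := by
  refine (LF_le_pairs v hv x).trans ?_
  have h := single_le_sum (f := fun c => (∑ y, if rel x y = c then v y else 0) ^ 2)
    (fun i _ => sq_nonneg _) (mem_univ c)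
  linarith

/-- the code classes have weight at most `31/40` -/
lemma class_le (O : Opt rel w) (a : V) (c : Fin 3) :
    (∑ x, if rel a x = c then w x else 0) ≤ 31 / 40 := by
  have h1 := LF_le_class (rel := rel) w (fun y => (O.pos y).le) a c
  have h2 : LF rel w a = F rel w := O.lag a
  rw [h2, O.sum] at h1
  have h3 := O.big
  by_contra hcon
  push Not at hcon
  nlinarith

lemma LC_le (hs : ∀ x y, rel y x = -rel x y) (v : V → ℝ) (hv : ∀ y, 0 ≤ v y) (x : V)
    (c : Fin 3) :
    LF rel v x ≤ 2 * (∑ y, v y * (if rel y x = c then 0 else 1)) * ∑ y, v y := by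
  have h1 : ∀ y z, v y * v z * H rel x y z ≤
      v y * (if rel y x = c then 0 else 1) * v z + v y * (v z * (if rel z x = c then 0 else 1)) := by
    intro y z
    have h2 := H_le (rel := rel) x y z
    have h3 : (if rel x y = rel x z then (0 : ℝ) else 1) ≤
        (if rel y x = c then 0 else 1) + (if rel z x = c then 0 else 1) := by
      by_cases hy : rel y x = c
      · by_cases hz : rel z x = c
        · have : rel x y = rel x z := by
            rw [hs y x, hs z x, hy, hz]
          simp [this, hy, hz]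
        · simp only [hz, hy, if_true, if_false, zero_add]
          split_ifs <;> norm_num
      · simp only [hy, if_false]
        split_ifs <;> norm_num
    calc v y * v z * H rel x y z ≤ v y * v z *
        ((if rel y x = c then 0 else 1) + (if rel z x = c then 0 else 1)) :=
          mul_le_mul_of_nonneg_left (h2.trans h3) (mul_nonneg (hv y) (hv z))
      _ = _ := by ring
  unfold LF
  calc ∑ y, ∑ z, v y * v z * H rel x y z
      ≤ ∑ y, ∑ z, (v y * (if rel y x = c then 0 else 1) * v z +
          v y * (v z * (if rel z x = c then 0 else 1))) :=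
        sum_le_sum fun y _ => sum_le_sum fun z _ => h1 y z
    _ = _ := by
        simp only [sum_add_distrib, ← mul_sum, ← sum_mul]
        ring

end T5

open T5 in
theorem ustep {V : Type} [Fintype V] {rel : V → V → Fin 3} {w : V → ℝ} (O : Opt rel w)
    (a0 a1 a2 : V)
    (h : fT rel w (Kc rel a0 a1 a2) (Tr rel a0 a1 a2)
        + 3 / 10 * (mT w (Tr rel a0 a1 a2) - mT w (Un rel a0 a1 a2))
        + 2 * gU rel w (Tr rel a0 a1 a2) (Un rel a0 a1 a2) (rel a0)
      ≤ 23 / 10000 * (1 - 3 / 2 * mT w (Tr rel a0 a1 a2))) :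
    fT rel w (Kc rel a0 a1 a2) (Tr rel a0 a1 a2) + 3 / 10 * mT w (Tr rel a0 a1 a2) ≤ 23 / 10000
    ∧ ∀ i : Fin 4, (∑ x, if Tr rel a0 a1 a2 x = false ∧ Kc rel a0 a1 a2 x = i then w x else 0)
        ≤ 31 / 40 := by
  set T := Tr rel a0 a1 a2 with hT
  set U := Un rel a0 a1 a2 with hU
  have hs := O.skew
  have hw0 : ∀ y, 0 ≤ w y := fun y => (O.pos y).le
  have hUT : ∀ x, U x = true → T x = true := fun x hx => un_tr _ _ _ hx
  set t := mT w T with ht
  set u := mT w U with hu
  set g := gU rel w T U (rel a0) with hg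
  set f := fT rel w (Kc rel a0 a1 a2) T with hf
  set ρ := F rel w with hρ
  have hbig := O.big
  set wC : V → ℝ := fun x => if T x = true then 0 else w x with hwC
  set wT : V → ℝ := fun x => if T x = true then w x else 0 with hwT
  set wU : V → ℝ := fun x => if U x = true then w x else 0 with hwU
  have hwC0 : ∀ x, 0 ≤ wC x := by
    intro x; simp only [hwC]; split_ifs
    · exact le_rfl
    · exact hw0 x
  have hwT0 : ∀ x, 0 ≤ wT x := by
    intro x; simp only [hwT]; split_ifs
    · exact hw0 x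
    · exact le_rfl
  have hwU0 : ∀ x, 0 ≤ wU x := by
    intro x; simp only [hwU]; split_ifs
    · exact hw0 x
    · exact le_rfl
  have hUTw : ∀ x, wU x ≤ wT x := by
    intro x
    simp only [hwU, hwT]
    by_cases hx : U x = true
    · simp [hx, hUT x hx]
    · rw [if_neg hx]
      exact hwT0 x
  have hadd : ∀ x, wC x + wT x = w x := by
    intro x; simp only [hwC, hwT]; split_ifs <;> ring
  have hsT : ∑ x, wT x = t := rfl
  have hsU : ∑ x, wU x = u := rfl
  have hsC : ∑ x, wC x = 1 - t := by
    have : ∑ x, wC x + ∑ x, wT x = 1 := by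
      rw [← sum_add_distrib, ← O.sum]
      exact sum_congr rfl fun x _ => hadd x
    rw [hsT] at this
    linarith
  have ht0 : 0 ≤ t := by rw [← hsT]; exact sum_nonneg fun x _ => hwT0 x
  have hut : u ≤ t := by rw [← hsT, ← hsU]; exact sum_le_sum fun x _ => hUTw x
  have hf0 : 0 ≤ f := by
    rw [hf]
    unfold fT
    refine sum_nonneg fun x _ => sum_nonneg fun y _ => ?_
    split_ifs
    · have : (0 : ℝ) ≤ ((wr (Kc rel a0 a1 a2 x) (Kc rel a0 a1 a2 y) (rel x y) : ℤ) : ℝ) := by
        exact_mod_cast wr_nonneg _ _ _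
      have h1 := hw0 x
      have h2 := hw0 y
      positivity
    · exact le_rfl
  set ν : V → ℝ := fun x => ∑ y, wC y * (if rel y x = rel a0 x then 0 else 1) with hν
  have hν0 : ∀ x, 0 ≤ ν x := by
    intro x
    refine sum_nonneg fun y _ => mul_nonneg (hwC0 y) ?_
    split_ifs <;> norm_num
  have hgν : g = ∑ x, wU x * ν x := by
    rw [hg]
    unfold gU
    refine sum_congr rfl fun x _ => ?_
    simp only [hν]
    rw [mul_sum]
    refine sum_congr rfl fun y _ => ?_
    simp only [hwU, hwC]
    by_cases h1 : U x = true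
    · by_cases h2 : T y = true
      · simp [h1, h2]
      · have h2' : T y = false := by simpa using h2
        by_cases h3 : rel y x = rel a0 x
        · simp [h1, h2', h3]
        · simp [h1, h2', h3]
    · simp [h1]
  have hg0 : 0 ≤ g := by
    rw [hgν]
    exact sum_nonneg fun x _ => mul_nonneg (hwU0 x) (hν0 x)
  have ht23 : t ≤ 2 / 3 := by linarith
  have hLC : ∀ x, LF rel wC x ≤ 2 * ν x * (1 - t) := by
    intro x
    have h1 := LC_le hs wC hwC0 x (rel a0 x)
    rw [hsC] at h1
    exact h1
  -- the expansion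
  have hexp : ρ * (1 - t) = F rel wC + 2 * TF rel wT wC wC + TF rel wC wT wT := by
    have h1 : TF rel wC w w = ρ * (1 - t) := by
      rw [TF_link]
      have : ∀ a, LF rel w a = ρ := fun a => O.lag a
      simp only [this]
      rw [← sum_mul, hsC]
      ring
    have h2 : TF rel wC w w = TF rel wC (fun y => wC y + wT y) (fun y => wC y + wT y) := by
      have : w = fun y => wC y + wT y := by
        funext y
        exact (hadd y).symm
      rw [← this]
    rw [← h1, h2, TF_add2, TF_add3, TF_add3, TF_swap23 hs wC wC wT, TF_swap12 hs wC wT wC]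
    have h3 : TF rel wC wC wC = F rel wC := rfl
    rw [h3]
    ring
  have hmax : F rel wC ≤ ρ * (1 - t) ^ 3 := by
    have h1 := O.max wC hwC0
    rw [hsC] at h1
    exact h1
  have hA2 : TF rel wC wT wT ≤ (1 - t) * (2 / 3 * t ^ 2) := by
    rw [TF_link, ← hsC, sum_mul]
    refine sum_le_sum fun x _ => ?_
    refine mul_le_mul_of_nonneg_left ?_ (hwC0 x)
    have h1 := LF_le_two_thirds (rel := rel) wT hwT0 x
    rw [hsT] at h1
    exact h1
  have hA1 : TF rel wT wC wC ≤ 2 / 3 * (1 - t) ^ 2 * (t - u) + 2 * (1 - t) * g := by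
    rw [TF_link]
    have h1 : ∀ x, wT x * LF rel wC x ≤
        (2 / 3 * (1 - t) ^ 2) * (wT x - wU x) + (2 * (1 - t)) * (wU x * ν x) := by
      intro x
      have h2 := LF_le_two_thirds (rel := rel) wC hwC0 x
      rw [hsC] at h2
      have h3 := hLC x
      have h4 := hUTw x
      have h5 := hwU0 x
      nlinarith [mul_le_mul_of_nonneg_left h2 (sub_nonneg.2 h4), mul_le_mul_of_nonneg_left h3 h5]
    calc ∑ x, wT x * LF rel wC x
        ≤ ∑ x, ((2 / 3 * (1 - t) ^ 2) * (wT x - wU x) + (2 * (1 - t)) * (wU x * ν x)) :=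
          sum_le_sum fun x _ => h1 x
      _ = _ := by
          rw [sum_add_distrib, ← mul_sum, ← mul_sum, sum_sub_distrib, hsT, hsU, ← hgν]
  have ht1 : 0 < 1 - t := by linarith
  have hkey : ρ * (t * (2 - t)) ≤ 4 / 3 * (1 - t) * (t - u) + 4 * g + 2 / 3 * t ^ 2 := by
    have h1 : (1 - t) * (ρ * (t * (2 - t))) ≤
        (1 - t) * (4 / 3 * (1 - t) * (t - u) + 4 * g + 2 / 3 * t ^ 2) := by
      nlinarith
    exact le_of_mul_le_mul_left h1 ht1
  have hkey2 : 2 / 5 * (t * (2 - t)) ≤ 40 / 9 * (23 / 10000) + 2 / 3 * t ^ 2 := by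
    have h1 : 2 / 5 * (t * (2 - t)) ≤ ρ * (t * (2 - t)) :=
      mul_le_mul_of_nonneg_right hbig.le (mul_nonneg ht0 (by linarith))
    have h2 : 4 / 3 * (1 - t) * (t - u) ≤ 4 / 3 * (t - u) := by
      have : (1 - t) * (t - u) ≤ 1 * (t - u) :=
        mul_le_mul_of_nonneg_right (by linarith) (by linarith)
      linarith
    linarith
  have ht14 : t ≤ 14 / 1000 := by
    by_contra hcon
    push Not at hcon
    nlinarith [mul_nonneg (sub_nonneg.2 hcon.le) (sub_nonneg.2 ht23)]
  have hνlow : ∀ x, 186 / 1000 ≤ ν x := by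
    intro x
    have h1 : ρ ≤ LF rel wC x + 2 * t := by
      have h2 : LF rel w x = ρ := O.lag x
      have h3 : LF rel w x ≤ LF rel wC x + ∑ y, ∑ z, (w y * w z - wC y * wC z) := by
        unfold LF
        rw [← sum_add_distrib]
        refine sum_le_sum fun y _ => ?_
        rw [← sum_add_distrib]
        refine sum_le_sum fun z _ => ?_
        have e1 := hadd y
        have e2 := hadd z
        have e3 := hwC0 y
        have e4 := hwC0 z
        have e5 := hwT0 y
        have e6 := hwT0 z
        have e7 : 0 ≤ w y * w z - wC y * wC z := by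
          rw [← e1, ← e2]
          nlinarith [mul_nonneg e3 e6, mul_nonneg e5 e4, mul_nonneg e5 e6]
        have e8 := mul_le_mul_of_nonneg_left (H_le_one (rel := rel) x y z) e7
        rw [mul_one] at e8
        have e9 : w y * w z * H rel x y z =
            wC y * wC z * H rel x y z + (w y * w z - wC y * wC z) * H rel x y z := by ring
        linarith
      have h4 : ∑ y, ∑ z, (w y * w z - wC y * wC z) = 1 - (1 - t) ^ 2 := by
        simp only [sum_sub_distrib]
        rw [← sum_mul_sum, ← sum_mul_sum, O.sum, hsC]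
        ring
      rw [h2, h4] at h3
      nlinarith
    have h5 := hLC x
    have h6 := hν0 x
    nlinarith [mul_nonneg h6 ht0]
  have hug : 186 / 1000 * u ≤ g := by
    rw [hgν, ← hsU, mul_sum]
    refine sum_le_sum fun x _ => ?_
    have h1 := hνlow x
    have h2 := hwU0 x
    nlinarith
  refine ⟨?_, ?_⟩
  · have hu0 : 0 ≤ u := by rw [← hsU]; exact sum_nonneg fun x _ => hwU0 x
    linarith
  · intro i
    have hle : ∀ (a : V) (c : Fin 3),
        (∀ x, T x = false → Kc rel a0 a1 a2 x = i → rel a x = c) →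
        (∑ x, if T x = false ∧ Kc rel a0 a1 a2 x = i then w x else 0) ≤ 31 / 40 := by
      intro a c hac
      refine le_trans (sum_le_sum fun x _ => ?_) (class_le O a c)
      by_cases hx : T x = false ∧ Kc rel a0 a1 a2 x = i
      · rw [if_pos hx, if_pos (hac x hx.1 hx.2)]
      · rw [if_neg hx]
        split_ifs
        · exact hw0 x
        · exact le_rfl
    have hcl : ∀ x, T x = false → _ := fun x hx =>
      cls_mem (rel a0 x) (rel a1 x) (rel a2 x) hx
    fin_cases i
    · exact hle a1 2 fun x hx hk => (hcl x hx).1 hk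
    · exact hle a0 1 fun x hx hk => (hcl x hx).2.1 hk
    · exact hle a0 0 fun x hx hk => (hcl x hx).2.2.1 hk
    · exact hle a0 2 fun x hx hk => (hcl x hx).2.2.2 hk

end Pool.Agent.H190R2.P3
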