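import Pool.Agent.H190R2.P3.T4
import Pool.Agent.H190R2.P3.T1
import Pool.Agent.H190R2.P3.T5
import Pool.Agent.H190R2.P3.T10
import Pool.Agent.H190R2.P3.T11
import Pool.Agent.H190R2.P3.T14
import Pool.Agent.H190R2.P3.T15
import Pool.Agent.H190R2.P3.T16

/-! Main theorem (assembly). -/

set_option autoImplicit false
open Finset

namespace Pool.Agent.H190R2.P3

/-- the weighted density of induced directed 2-paths of an oriented graph is at most `2/5` -/
theorem main_bound {V : Type} [Fintype V] (rel : V → V → Fin 3) (hs : ∀ x y, rel y x = - rel x y)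
    (w : V → ℝ) (hw : ∀ v, 0 ≤ w v) (h1 : ∑ v, w v = 1) : F rel w ≤ 2 / 5 := by
  by_contra h
  push Not at h
  obtain ⟨W, _, rel', w', O⟩ := exists_opt rel hs w hw h1 h
  obtain ⟨a0, a1, a2, hA⟩ := flagA rel' O.skew w' (fun v => (O.pos v).le) O.sum O.big
  obtain ⟨hf, hX⟩ := ustep O a0 a1 a2 hA
  obtain ⟨P, g1, g2, g3⟩ := Pstar O (P0' O _ _ hf hX)
  exact final O P g1 g2 g3

theorem thomasse : ∃ C : ℝ, ∀ n : ℕ,
      (∀ r : Fin n → Fin n → Bool,
        (∀ i, r i i = false) → (∀ i j, ¬ (r i j = true ∧ r j i = true)) →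
        ((((Finset.univ : Finset (Fin n × Fin n × Fin n)).filter
            (fun t => r t.1 t.2.1 = true ∧ r t.2.1 t.2.2 = true ∧
              r t.1 t.2.2 = false ∧ r t.2.2 t.1 = false ∧ t.1 ≠ t.2.2)).card : ℕ) : ℝ)
          ≤ (n : ℝ) ^ 3 / 15 + C * (n : ℝ) ^ 2) ∧
      (∃ r : Fin n → Fin n → Bool,
        (∀ i, r i i = false) ∧ (∀ i j, ¬ (r i j = true ∧ r j i = true)) ∧
        (n : ℝ) ^ 3 / 15 - C * (n : ℝ) ^ 2 ≤
          ((((Finset.univ : Finset (Fin n × Fin n × Fin n)).filter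
            (fun t => r t.1 t.2.1 = true ∧ r t.2.1 t.2.2 = true ∧
              r t.1 t.2.2 = false ∧ r t.2.2 t.1 = false ∧ t.1 ≠ t.2.2)).card : ℕ) : ℝ)) := by
  refine ⟨3 / 2, fun n => ⟨fun r h0 h1 => ?_, lower n⟩⟩
  have h := upper_of (fun n rel hs w hw h1 => main_bound rel hs w hw h1) n r h0 h1
  have : (0 : ℝ) ≤ 3 / 2 * (n : ℝ) ^ 2 := by positivity
  linarith

end Pool.Agent.H190R2.P3
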