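import Pool.Agent.H190R2.P3.Defs

/-! Definitions used by the flag algebra step and the remaining stubs. -/

set_option autoImplicit false
open Finset

namespace Pool.Agent.H190R2.P3

variable {V : Type} [Fintype V] (rel : V → V → Fin 3) (w : V → ℝ)

/-- trash predicate of a directed path `a0 → a1 → a2` -/
def Tr (a0 a1 a2 x : V) : Bool := tr (rel a0 x) (rel a1 x) (rel a2 x)
/-- uniform vertices -/
def Un (a0 a1 a2 x : V) : Bool := un (rel a0 x) (rel a1 x) (rel a2 x)
/-- classes -/
def Kc (a0 a1 a2 x : V) : Fin 4 := cls (rel a0 x) (rel a1 x) (rel a2 x)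

/-- weight of the wrong pairs outside the trash -/
noncomputable def fT (K : V → Fin 4) (T : V → Bool) : ℝ :=
  ∑ x, ∑ y, if T x = false ∧ T y = false then w x * w y * ((wr (K x) (K y) (rel x y) : ℤ) : ℝ)
    else 0
/-- weight of a set -/
noncomputable def mT (T : V → Bool) : ℝ := ∑ x, if T x = true then w x else 0
/-- weight of the pairs `(x, y)`, `x` uniform, `y` classified, `rel y x ≠ c x` -/
noncomputable def gU (T U : V → Bool) (c : V → Fin 3) : ℝ :=
  ∑ x, ∑ y, if U x = true ∧ T y = false ∧ rel y x ≠ c x then w x * w y else 0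

end Pool.Agent.H190R2.P3
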