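import Pool.Agent.H190R2.P3.Fin
import Pool.Agent.H190R2.P3.SF

/-! Task T4: the flag algebra inequality at a suitable induced path. -/

set_option autoImplicit false
set_option maxRecDepth 100000
open Finset

namespace Pool.Agent.H190R2.P3

namespace T4

open Pool.Agent.H122R2.FdF (cd Pr)

/-- weight of an attachment -/
def G (r0 r1 r2 : Fin 3) : ℕ :=
  if tr r0 r1 r2 = true then (if un r0 r1 r2 = true then 22226418 else 1954958418) else 0

def Bd (r0 r1 r2 s0 s1 s2 r : Fin 3) : ℕ :=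
  (if tr r0 r1 r2 = false ∧ tr s0 s1 s2 = false ∧ wr (cls r0 r1 r2) (cls s0 s1 s2) r = 1
    then 1 else 0)
  + (if un r0 r1 r2 = true ∧ tr s0 s1 s2 = false ∧ -r ≠ r0 then 1 else 0)
  + (if un s0 s1 s2 = true ∧ tr r0 r1 r2 = false ∧ r ≠ s0 then 1 else 0)

theorem gp10 : ∀ r0 r1 r2 : Fin 3, gp 10 (cd r0.val r1.val r2.val) = G r0 r1 r2 := by
  decide +kernel
theorem gp5 : ∀ r0 r1 r2 : Fin 3, gp 5 (cd r1.val r0.val r2.val) = G r0 r1 r2 := by
  decide +kernel
theorem gp7 : ∀ r0 r1 r2 : Fin 3, gp 7 (cd r1.val r2.val r0.val) = G r0 r1 r2 := by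
  decide +kernel
theorem gp15 : ∀ r0 r1 r2 : Fin 3, gp 15 (cd r2.val r0.val r1.val) = G r0 r1 r2 := by
  decide +kernel
theorem gp20 : ∀ r0 r1 r2 : Fin 3, gp 20 (cd r2.val r1.val r0.val) = G r0 r1 r2 := by
  decide +kernel
theorem gp21 : ∀ r0 r1 r2 : Fin 3, gp 21 (cd r0.val r2.val r1.val) = G r0 r1 r2 := by
  decide +kernel

theorem bd10 : ∀ r0 r1 r2 s0 s1 s2 r : Fin 3, bd 10 (cd r0.val r1.val r2.val)
    (cd s0.val s1.val s2.val) r.val = Bd r0 r1 r2 s0 s1 s2 r := by decide +kernel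
theorem bd5 : ∀ r0 r1 r2 s0 s1 s2 r : Fin 3, bd 5 (cd r1.val r0.val r2.val)
    (cd s1.val s0.val s2.val) r.val = Bd r0 r1 r2 s0 s1 s2 r := by decide +kernel
theorem bd7 : ∀ r0 r1 r2 s0 s1 s2 r : Fin 3, bd 7 (cd r1.val r2.val r0.val)
    (cd s1.val s2.val s0.val) r.val = Bd r0 r1 r2 s0 s1 s2 r := by decide +kernel
theorem bd15 : ∀ r0 r1 r2 s0 s1 s2 r : Fin 3, bd 15 (cd r2.val r0.val r1.val)
    (cd s2.val s0.val s1.val) r.val = Bd r0 r1 r2 s0 s1 s2 r := by decide +kernel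
theorem bd20 : ∀ r0 r1 r2 s0 s1 s2 r : Fin 3, bd 20 (cd r2.val r1.val r0.val)
    (cd s2.val s1.val s0.val) r.val = Bd r0 r1 r2 s0 s1 s2 r := by decide +kernel
theorem bd21 : ∀ r0 r1 r2 s0 s1 s2 r : Fin 3, bd 21 (cd r0.val r2.val r1.val)
    (cd s0.val s2.val s1.val) r.val = Bd r0 r1 r2 s0 s1 s2 r := by decide +kernel

theorem p3c_eq : ∀ d e f : Fin 3, (p3c (cd d.val e.val f.val) : ℤ) = h3 d e f := by decide +kernel

theorem h3_cases : ∀ d e f : Fin 3, h3 d e f = 0 ∨ (h3 d e f = 1 ∧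
    ((d = 1 ∧ e = 0 ∧ f = 1) ∨ (d = 2 ∧ e = 0 ∧ f = 2) ∨ (d = 2 ∧ e = 1 ∧ f = 0) ∨
      (d = 1 ∧ e = 2 ∧ f = 0) ∨ (d = 0 ∧ e = 1 ∧ f = 2) ∨ (d = 0 ∧ e = 2 ∧ f = 1))) := by decide

theorem un_tr : ∀ r0 r1 r2 : Fin 3, un r0 r1 r2 = true → tr r0 r1 r2 = true := by decide

theorem wr_01 : ∀ (i j : Fin 4) (r : Fin 3), wr i j r = 0 ∨ wr i j r = 1 := by decide

theorem Pr_val : ∀ r : Fin 3, Pr r.val (-r).val := by
  intro r
  fin_cases r
  · exact Or.inl ⟨rfl, rfl⟩
  · exact Or.inr (Or.inl ⟨rfl, rfl⟩)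
  · exact Or.inr (Or.inr ⟨rfl, rfl⟩)

variable {V : Type} [Fintype V] (rel : V → V → Fin 3) (w : V → ℝ)

theorem sumG (a0 a1 a2 : V) :
    ∑ d, w d * (G (rel a0 d) (rel a1 d) (rel a2 d) : ℝ)
      = 1932732000 * (mT w (Tr rel a0 a1 a2) - mT w (Un rel a0 a1 a2))
        + 22226418 * mT w (Tr rel a0 a1 a2) := by
  unfold mT
  rw [← sum_sub_distrib, mul_sum, mul_sum, ← sum_add_distrib]
  refine sum_congr rfl fun d _ => ?_
  have h := un_tr (rel a0 d) (rel a1 d) (rel a2 d)
  unfold G Tr Un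
  by_cases hu : un (rel a0 d) (rel a1 d) (rel a2 d) = true
  · rw [if_pos (h hu), if_pos hu, if_pos (h hu), if_pos hu]
    push_cast
    ring
  · by_cases ht : tr (rel a0 d) (rel a1 d) (rel a2 d) = true
    · rw [if_pos ht, if_neg hu, if_pos ht, if_neg hu]
      push_cast
      ring
    · rw [if_neg ht, if_neg ht, if_neg hu]
      push_cast
      ring

theorem sumBd (hs : ∀ x y, rel y x = - rel x y) (a0 a1 a2 : V) :
    ∑ d, ∑ e, w d * w e * (Bd (rel a0 d) (rel a1 d) (rel a2 d) (rel a0 e) (rel a1 e) (rel a2 e)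
        (rel d e) : ℝ)
      = fT rel w (Kc rel a0 a1 a2) (Tr rel a0 a1 a2)
        + 2 * gU rel w (Tr rel a0 a1 a2) (Un rel a0 a1 a2) (rel a0) := by
  have e1 : gU rel w (Tr rel a0 a1 a2) (Un rel a0 a1 a2) (rel a0)
      = ∑ d, ∑ e, w d * w e * (if un (rel a0 d) (rel a1 d) (rel a2 d) = true ∧
          tr (rel a0 e) (rel a1 e) (rel a2 e) = false ∧ -(rel d e) ≠ rel a0 d then 1 else 0) := by
    unfold gU Tr Un
    refine sum_congr rfl fun d _ => sum_congr rfl fun e _ => ?_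
    rw [hs d e, mul_ite, mul_one, mul_zero]
  have e2 : gU rel w (Tr rel a0 a1 a2) (Un rel a0 a1 a2) (rel a0)
      = ∑ d, ∑ e, w d * w e * (if un (rel a0 e) (rel a1 e) (rel a2 e) = true ∧
          tr (rel a0 d) (rel a1 d) (rel a2 d) = false ∧ rel d e ≠ rel a0 e then 1 else 0) := by
    unfold gU Tr Un
    rw [sum_comm]
    refine sum_congr rfl fun d _ => sum_congr rfl fun e _ => ?_
    rw [mul_ite, mul_one, mul_zero, mul_comm (w e) (w d)]
  have e3 : fT rel w (Kc rel a0 a1 a2) (Tr rel a0 a1 a2)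
      = ∑ d, ∑ e, w d * w e * (if tr (rel a0 d) (rel a1 d) (rel a2 d) = false ∧
          tr (rel a0 e) (rel a1 e) (rel a2 e) = false ∧
          wr (cls (rel a0 d) (rel a1 d) (rel a2 d)) (cls (rel a0 e) (rel a1 e) (rel a2 e))
            (rel d e) = 1 then 1 else 0) := by
    unfold fT Tr Kc
    refine sum_congr rfl fun d _ => sum_congr rfl fun e _ => ?_
    rcases wr_01 (cls (rel a0 d) (rel a1 d) (rel a2 d)) (cls (rel a0 e) (rel a1 e) (rel a2 e))
      (rel d e) with h | h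
    · rw [h]; simp
    · rw [h]
      by_cases ht : tr (rel a0 d) (rel a1 d) (rel a2 d) = false ∧
          tr (rel a0 e) (rel a1 e) (rel a2 e) = false
      · rw [if_pos ht, if_pos ⟨ht.1, ht.2, rfl⟩]; simp
      · rw [if_neg ht, if_neg (fun h' => ht ⟨h'.1, h'.2.1⟩)]; simp
  rw [two_mul, e3]
  nth_rewrite 1 [e1]
  rw [e2]
  rw [← sum_add_distrib, ← sum_add_distrib]
  refine sum_congr rfl fun d _ => ?_
  rw [← sum_add_distrib, ← sum_add_distrib]
  refine sum_congr rfl fun e _ => ?_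
  unfold Bd
  push_cast
  ring

theorem fin_step (hs : ∀ x y, rel y x = - rel x y) (a0 a1 a2 : V)
    (h : 2 * (∑ d, w d * (G (rel a0 d) (rel a1 d) (rel a2 d) : ℝ))
      + 12884880000 * (∑ d, ∑ e, w d * w e * (Bd (rel a0 d) (rel a1 d) (rel a2 d)
          (rel a0 e) (rel a1 e) (rel a2 e) (rel d e) : ℝ)) < 29635224) :
    fT rel w (Kc rel a0 a1 a2) (Tr rel a0 a1 a2)
        + 3 / 10 * (mT w (Tr rel a0 a1 a2) - mT w (Un rel a0 a1 a2))
        + 2 * gU rel w (Tr rel a0 a1 a2) (Un rel a0 a1 a2) (rel a0)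
      ≤ 23 / 10000 * (1 - 3 / 2 * mT w (Tr rel a0 a1 a2)) := by
  rw [sumG, sumBd rel w hs] at h
  linarith

end T4

open T4 in
/-- Task T4 -/
theorem flagA {V : Type} [Fintype V] (rel : V → V → Fin 3) (hs : ∀ x y, rel y x = - rel x y)
    (w : V → ℝ) (hw : ∀ v, 0 ≤ w v) (h1 : ∑ v, w v = 1) (hF : 2 / 5 < F rel w) :
    ∃ a0 a1 a2 : V,
    fT rel w (Kc rel a0 a1 a2) (Tr rel a0 a1 a2)
        + 3 / 10 * (mT w (Tr rel a0 a1 a2) - mT w (Un rel a0 a1 a2))
        + 2 * gU rel w (Tr rel a0 a1 a2) (Un rel a0 a1 a2) (rel a0)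
      ≤ 23 / 10000 * (1 - 3 / 2 * mT w (Tr rel a0 a1 a2)) := by
  have hrel : ∀ x y, Pool.Agent.H122R2.FdF.Pr (rel x y).val (rel y x).val := by
    intro x y
    rw [hs x y]
    exact Pr_val _
  have M := flag_main (fun x y => (rel x y).val) hrel w hw h1
  have eF : (∑ a, ∑ b, ∑ c, w a * w b * w c *
      (40060650951 * (p3c (Pool.Agent.H122R2.FdF.cd (rel a b).val (rel a c).val (rel b c).val)
        : ℝ))) = 40060650951 * F rel w := by
    unfold F
    rw [mul_sum]
    refine sum_congr rfl fun a _ => ?_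
    rw [mul_sum]
    refine sum_congr rfl fun b _ => ?_
    rw [mul_sum]
    refine sum_congr rfl fun c _ => ?_
    have : (p3c (Pool.Agent.H122R2.FdF.cd (rel a b).val (rel a c).val (rel b c).val) : ℝ)
        = H rel a b c := by
      unfold H
      rw [← p3c_eq]
      push_cast
      rfl
    rw [this]
    ring
  -- the combined summand
  let S : V → V → V → ℝ := fun a b c =>
    2 * (∑ d, w d * (gp (Pool.Agent.H122R2.FdF.cd (rel a b).val (rel a c).val (rel b c).val)
      (Pool.Agent.H122R2.FdF.cd (rel a d).val (rel b d).val (rel c d).val) : ℝ))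
    + 12884880000 * (∑ d, ∑ e, w d * w e *
      (Bb (fun x y => (rel x y).val) bd a b c d e : ℝ))
    - 29635224 * H rel a b c
  have eS : (∑ a, ∑ b, ∑ c, w a * w b * w c * S a b c)
      = 2 * (∑ a, ∑ b, ∑ c, ∑ d, w a * w b * w c * w d *
          (gp (Pool.Agent.H122R2.FdF.cd (rel a b).val (rel a c).val (rel b c).val)
            (Pool.Agent.H122R2.FdF.cd (rel a d).val (rel b d).val (rel c d).val) : ℝ))
      + 12884880000 * (∑ a, ∑ b, ∑ c, ∑ d, ∑ e, w a * w b * w c * w d * w e *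
          (Bb (fun x y => (rel x y).val) bd a b c d e : ℝ)) - 29635224 * F rel w := by
    unfold F
    rw [mul_sum, mul_sum, mul_sum, ← sum_add_distrib, ← sum_sub_distrib]
    refine sum_congr rfl fun a _ => ?_
    rw [mul_sum, mul_sum, mul_sum, ← sum_add_distrib, ← sum_sub_distrib]
    refine sum_congr rfl fun b _ => ?_
    rw [mul_sum, mul_sum, mul_sum, ← sum_add_distrib, ← sum_sub_distrib]
    refine sum_congr rfl fun c _ => ?_
    have k1 : ∑ d, w a * w b * w c * w d *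
          (gp (Pool.Agent.H122R2.FdF.cd (rel a b).val (rel a c).val (rel b c).val)
            (Pool.Agent.H122R2.FdF.cd (rel a d).val (rel b d).val (rel c d).val) : ℝ)
        = w a * w b * w c * ∑ d, w d *
          (gp (Pool.Agent.H122R2.FdF.cd (rel a b).val (rel a c).val (rel b c).val)
            (Pool.Agent.H122R2.FdF.cd (rel a d).val (rel b d).val (rel c d).val) : ℝ) := by
      rw [mul_sum]
      exact sum_congr rfl fun d _ => by ring
    have k2 : ∑ d, ∑ e, w a * w b * w c * w d * w e *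
          (Bb (fun x y => (rel x y).val) bd a b c d e : ℝ)
        = w a * w b * w c * ∑ d, ∑ e, w d * w e *
          (Bb (fun x y => (rel x y).val) bd a b c d e : ℝ) := by
      rw [mul_sum]
      refine sum_congr rfl fun d _ => ?_
      rw [mul_sum]
      exact sum_congr rfl fun e _ => by ring
    rw [k1, k2]
    ring
  have hneg : (∑ a, ∑ b, ∑ c, w a * w b * w c * S a b c) < 0 := by
    rw [eS]
    rw [eF] at M
    nlinarith [M, hF]
  obtain ⟨a, b, c, hS⟩ : ∃ a b c, S a b c < 0 := by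
    by_contra hcon
    push Not at hcon
    have : 0 ≤ ∑ a, ∑ b, ∑ c, w a * w b * w c * S a b c :=
      sum_nonneg fun a _ => sum_nonneg fun b _ => sum_nonneg fun c _ =>
        mul_nonneg (mul_nonneg (mul_nonneg (hw a) (hw b)) (hw c)) (hcon a b c)
    linarith
  have nn1 : 0 ≤ ∑ d, w d * (gp (Pool.Agent.H122R2.FdF.cd (rel a b).val (rel a c).val
      (rel b c).val) (Pool.Agent.H122R2.FdF.cd (rel a d).val (rel b d).val (rel c d).val) : ℝ) :=
    sum_nonneg fun d _ => mul_nonneg (hw d) (Nat.cast_nonneg _)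
  have nn2 : 0 ≤ ∑ d, ∑ e, w d * w e * (Bb (fun x y => (rel x y).val) bd a b c d e : ℝ) :=
    sum_nonneg fun d _ => sum_nonneg fun e _ =>
      mul_nonneg (mul_nonneg (hw d) (hw e)) (Nat.cast_nonneg _)
  have hS' : 2 * (∑ d, w d * (gp (Pool.Agent.H122R2.FdF.cd (rel a b).val (rel a c).val
      (rel b c).val) (Pool.Agent.H122R2.FdF.cd (rel a d).val (rel b d).val (rel c d).val) : ℝ))
    + 12884880000 * (∑ d, ∑ e, w d * w e *
      (Bb (fun x y => (rel x y).val) bd a b c d e : ℝ))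
    - 29635224 * H rel a b c < 0 := hS
  unfold H at hS'
  rcases h3_cases (rel a b) (rel a c) (rel b c) with h0 | ⟨h3, hc⟩
  · rw [h0] at hS'
    push_cast at hS'
    linarith
  · rw [h3] at hS'
    push_cast at hS'
    unfold Bb at hS'
    rcases hc with ⟨x1, x2, x3⟩ | ⟨x1, x2, x3⟩ | ⟨x1, x2, x3⟩ | ⟨x1, x2, x3⟩ | ⟨x1, x2, x3⟩ |
      ⟨x1, x2, x3⟩
    · refine ⟨a, b, c, fin_step rel w hs a b c ?_⟩
      simp only [x1, x2, x3] at hS'
      have y1 : ∀ d, gp (Pool.Agent.H122R2.FdF.cd (1 : Fin 3).val (0 : Fin 3).val (1 : Fin 3).val)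
        (Pool.Agent.H122R2.FdF.cd (rel a d).val (rel b d).val (rel c d).val)
          = G (rel a d) (rel b d) (rel c d) := fun d => gp10 _ _ _
      have y2 : ∀ d e, bd (Pool.Agent.H122R2.FdF.cd (1 : Fin 3).val (0 : Fin 3).val
        (1 : Fin 3).val) (Pool.Agent.H122R2.FdF.cd (rel a d).val (rel b d).val (rel c d).val)
        (Pool.Agent.H122R2.FdF.cd (rel a e).val (rel b e).val (rel c e).val) (rel d e).val
          = Bd (rel a d) (rel b d) (rel c d) (rel a e) (rel b e) (rel c e) (rel d e) :=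
        fun d e => bd10 _ _ _ _ _ _ _
      simp only [y1, y2] at hS'
      linarith
    · refine ⟨c, b, a, fin_step rel w hs c b a ?_⟩
      simp only [x1, x2, x3] at hS'
      have y1 : ∀ d, gp (Pool.Agent.H122R2.FdF.cd (2 : Fin 3).val (0 : Fin 3).val (2 : Fin 3).val)
        (Pool.Agent.H122R2.FdF.cd (rel a d).val (rel b d).val (rel c d).val)
          = G (rel c d) (rel b d) (rel a d) := fun d => gp20 _ _ _
      have y2 : ∀ d e, bd (Pool.Agent.H122R2.FdF.cd (2 : Fin 3).val (0 : Fin 3).val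
        (2 : Fin 3).val) (Pool.Agent.H122R2.FdF.cd (rel a d).val (rel b d).val (rel c d).val)
        (Pool.Agent.H122R2.FdF.cd (rel a e).val (rel b e).val (rel c e).val) (rel d e).val
          = Bd (rel c d) (rel b d) (rel a d) (rel c e) (rel b e) (rel a e) (rel d e) :=
        fun d e => bd20 _ _ _ _ _ _ _
      simp only [y1, y2] at hS'
      linarith
    · refine ⟨b, a, c, fin_step rel w hs b a c ?_⟩
      simp only [x1, x2, x3] at hS'
      have y1 : ∀ d, gp (Pool.Agent.H122R2.FdF.cd (2 : Fin 3).val (1 : Fin 3).val (0 : Fin 3).val)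
        (Pool.Agent.H122R2.FdF.cd (rel a d).val (rel b d).val (rel c d).val)
          = G (rel b d) (rel a d) (rel c d) := fun d => gp5 _ _ _
      have y2 : ∀ d e, bd (Pool.Agent.H122R2.FdF.cd (2 : Fin 3).val (1 : Fin 3).val
        (0 : Fin 3).val) (Pool.Agent.H122R2.FdF.cd (rel a d).val (rel b d).val (rel c d).val)
        (Pool.Agent.H122R2.FdF.cd (rel a e).val (rel b e).val (rel c e).val) (rel d e).val
          = Bd (rel b d) (rel a d) (rel c d) (rel b e) (rel a e) (rel c e) (rel d e) :=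
        fun d e => bd5 _ _ _ _ _ _ _
      simp only [y1, y2] at hS'
      linarith
    · refine ⟨c, a, b, fin_step rel w hs c a b ?_⟩
      simp only [x1, x2, x3] at hS'
      have y1 : ∀ d, gp (Pool.Agent.H122R2.FdF.cd (1 : Fin 3).val (2 : Fin 3).val (0 : Fin 3).val)
        (Pool.Agent.H122R2.FdF.cd (rel a d).val (rel b d).val (rel c d).val)
          = G (rel c d) (rel a d) (rel b d) := fun d => gp7 _ _ _
      have y2 : ∀ d e, bd (Pool.Agent.H122R2.FdF.cd (1 : Fin 3).val (2 : Fin 3).val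
        (0 : Fin 3).val) (Pool.Agent.H122R2.FdF.cd (rel a d).val (rel b d).val (rel c d).val)
        (Pool.Agent.H122R2.FdF.cd (rel a e).val (rel b e).val (rel c e).val) (rel d e).val
          = Bd (rel c d) (rel a d) (rel b d) (rel c e) (rel a e) (rel b e) (rel d e) :=
        fun d e => bd7 _ _ _ _ _ _ _
      simp only [y1, y2] at hS'
      linarith
    · refine ⟨a, c, b, fin_step rel w hs a c b ?_⟩
      simp only [x1, x2, x3] at hS'
      have y1 : ∀ d, gp (Pool.Agent.H122R2.FdF.cd (0 : Fin 3).val (1 : Fin 3).val (2 : Fin 3).val)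
        (Pool.Agent.H122R2.FdF.cd (rel a d).val (rel b d).val (rel c d).val)
          = G (rel a d) (rel c d) (rel b d) := fun d => gp21 _ _ _
      have y2 : ∀ d e, bd (Pool.Agent.H122R2.FdF.cd (0 : Fin 3).val (1 : Fin 3).val
        (2 : Fin 3).val) (Pool.Agent.H122R2.FdF.cd (rel a d).val (rel b d).val (rel c d).val)
        (Pool.Agent.H122R2.FdF.cd (rel a e).val (rel b e).val (rel c e).val) (rel d e).val
          = Bd (rel a d) (rel c d) (rel b d) (rel a e) (rel c e) (rel b e) (rel d e) :=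
        fun d e => bd21 _ _ _ _ _ _ _
      simp only [y1, y2] at hS'
      linarith
    · refine ⟨b, c, a, fin_step rel w hs b c a ?_⟩
      simp only [x1, x2, x3] at hS'
      have y1 : ∀ d, gp (Pool.Agent.H122R2.FdF.cd (0 : Fin 3).val (2 : Fin 3).val (1 : Fin 3).val)
        (Pool.Agent.H122R2.FdF.cd (rel a d).val (rel b d).val (rel c d).val)
          = G (rel b d) (rel c d) (rel a d) := fun d => gp15 _ _ _
      have y2 : ∀ d e, bd (Pool.Agent.H122R2.FdF.cd (0 : Fin 3).val (2 : Fin 3).val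
        (1 : Fin 3).val) (Pool.Agent.H122R2.FdF.cd (rel a d).val (rel b d).val (rel c d).val)
        (Pool.Agent.H122R2.FdF.cd (rel a e).val (rel b e).val (rel c e).val) (rel d e).val
          = Bd (rel b d) (rel c d) (rel a d) (rel b e) (rel c e) (rel a e) (rel d e) :=
        fun d e => bd15 _ _ _ _ _ _ _
      simp only [y1, y2] at hS'
      linarith

end Pool.Agent.H190R2.P3
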